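import Pool.Agent.M45f4ba.Grade

/-!
From a principal cylinder to an additive group action.
-/

namespace Pool.Agent.M45f4ba

open Polynomial

variable {n : ℕ}

section

variable {L A : Type} [CommRing L] [Algebra ℂ L] [CommRing A] [Algebra ℂ A]
  (φ : L ≃ₐ[ℂ] A[X])

/-- The derivation `d/dX` transported along an isomorphism with a polynomial ring. -/
noncomputable def transDer (z : L) : L := φ.symm (derivative (φ z))

lemma transDer_add (x y : L) : transDer φ (x + y) = transDer φ x + transDer φ y := by
  simp [transDer]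

lemma transDer_mul (x y : L) : transDer φ (x * y) = x * transDer φ y + y * transDer φ x := by
  simp [transDer]
  ring

lemma transDer_algebraMap (c : ℂ) : transDer φ (algebraMap ℂ L c) = 0 := by
  unfold transDer
  rw [AlgEquiv.commutes]
  have : (algebraMap ℂ A[X]) c = C (algebraMap ℂ A c) := rfl
  rw [this, derivative_C, map_zero]

lemma transDer_unit [IsReduced L] {u : L} (hu : IsUnit u) : transDer φ u = 0 := by
  have : IsReduced A[X] := by
    constructor
    intro x hx
    have h1 : IsNilpotent (φ.symm x) := hx.map φ.symm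
    have h2 := h1.eq_zero
    rw [map_eq_zero_iff _ φ.symm.injective] at h2
    exact h2
  have : IsReduced A := by
    constructor
    intro x hx
    have h1 : IsNilpotent (C x) := hx.map C
    exact C_eq_zero.1 h1.eq_zero
  have h3 : IsUnit (φ u) := hu.map φ
  rw [Polynomial.isUnit_iff_coeff_isUnit_isNilpotent] at h3
  have h4 : φ u = C ((φ u).coeff 0) := by
    ext i
    by_cases hi : i = 0
    · rw [hi, coeff_C_zero]
    · rw [coeff_C_of_ne_zero hi]
      exact (h3.2 i hi).eq_zero
  unfold transDer
  rw [h4, derivative_C, map_zero]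

lemma transDer_iter (m : ℕ) (z : L) :
    φ ((transDer φ)^[m] z) = (⇑derivative)^[m] (φ z) := by
  induction m with
  | zero => rfl
  | succ m ih => rw [Function.iterate_succ_apply', Function.iterate_succ_apply', ← ih, transDer,
      AlgEquiv.apply_symm_apply]

lemma transDer_nil (z : L) : ∃ m, (transDer φ)^[m] z = 0 := by
  refine ⟨(φ z).natDegree + 1, ?_⟩
  apply φ.injective
  rw [transDer_iter, map_zero]
  exact Polynomial.iterate_derivative_eq_zero (Nat.lt_succ_self _)

end

theorem action_of_cylinder {p h : MvPolynomial (Fin n) ℂ} {A : Type} [CommRing A] [Algebra ℂ A]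
    [Nontrivial A]
    (φ : Localization.Away (Ideal.Quotient.mk _ h : CoordRing p) ≃ₐ[ℂ] A[X]) :
    AdmitsAdditiveAction p := by
  classical
  set I := (Ideal.span {p}).radical with hI
  set L := Localization.Away (Ideal.Quotient.mk I h) with hL
  have hredC : IsReduced (MvPolynomial (Fin n) ℂ ⧸ I) :=
    (Ideal.isRadical_iff_quotient_reduced I).1 (Ideal.radical_isRadical _)
  have hredL : IsReduced L :=
    isReduced_localizationPreserves (Submonoid.powers (Ideal.Quotient.mk I h)) L hredC
  have hntL : Nontrivial L := φ.toEquiv.nontrivial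
  set j : MvPolynomial (Fin n) ℂ →+* L :=
    (algebraMap (MvPolynomial (Fin n) ℂ ⧸ I) L).comp (Ideal.Quotient.mk I) with hj
  have hjh : IsUnit (j h) := IsLocalization.Away.algebraMap_isUnit (Ideal.Quotient.mk I h)
  have hjC : ∀ c, j (MvPolynomial.C c) = algebraMap ℂ L c := by
    intro c
    rfl
  have hδh : transDer φ (j h) = 0 := transDer_unit φ hjh
  have hδhk : ∀ k, transDer φ (j h ^ k) = 0 := fun k => transDer_unit φ (hjh.pow k)
  have hex : ∀ z : L, ∃ (k : ℕ) (f : MvPolynomial (Fin n) ℂ), z * j h ^ k = j f := by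
    intro z
    obtain ⟨k, a, ha⟩ := IsLocalization.Away.surj (Ideal.Quotient.mk I h) z
    obtain ⟨f, rfl⟩ := Ideal.Quotient.mk_surjective a
    exact ⟨k, f, ha⟩
  -- the key fact about reducedness
  have key : ∀ g, j (h * g) = 0 → h * g ∈ I := by
    intro g hg
    rw [map_mul] at hg
    have h1 : j g = 0 := by
      have := hjh.mul_right_eq_zero.1 hg
      exact this
    have h2 : algebraMap (MvPolynomial (Fin n) ℂ ⧸ I) L (Ideal.Quotient.mk I g) =
        algebraMap (MvPolynomial (Fin n) ℂ ⧸ I) L 0 := by rw [map_zero]; exact h1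
    obtain ⟨k, hk⟩ := IsLocalization.Away.exists_of_eq (Ideal.Quotient.mk I h) h2
    rw [mul_zero, ← map_pow, ← map_mul, Ideal.Quotient.eq_zero_iff_mem] at hk
    have h3 : (h * g) ^ (k + 1) ∈ I := by
      have : (h * g) ^ (k + 1) = (h * g ^ k) * (h ^ k * g) := by ring
      rw [this]
      exact Ideal.mul_mem_left _ _ hk
    exact (Ideal.radical_isRadical (Ideal.span {p})) ⟨k + 1, h3⟩
  -- the derivation
  choose k b hkb using fun i : Fin n => hex (transDer φ (j (MvPolynomial.X i)))
  obtain ⟨N, hN⟩ : ∃ N, ∀ i, k i ≤ N :=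
    ⟨Finset.univ.sup k, fun i => Finset.le_sup (Finset.mem_univ i)⟩
  set a : Fin n → MvPolynomial (Fin n) ℂ := fun i => h * (b i * h ^ (N - k i)) with ha
  set E := mkD a with hE
  have hEj : ∀ f, j (E f) = j h ^ (N + 1) * transDer φ (j f) := by
    intro f
    induction f using MvPolynomial.induction_on with
    | C c =>
      rw [MvPolynomial.derivation_C, map_zero, hjC, transDer_algebraMap, mul_zero]
    | add f g hf hg =>
      rw [map_add, map_add, map_add, transDer_add, hf, hg]
      ring
    | mul_X f i hf =>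
      have h0 : E (MvPolynomial.X i) = a i := MvPolynomial.mkDerivation_X ℂ a i
      rw [Derivation.leibniz, smul_eq_mul, smul_eq_mul, h0, map_add, map_mul j f (a i),
        map_mul j (MvPolynomial.X i) (E f), hf, map_mul j f (MvPolynomial.X i), transDer_mul]
      have h1 : j (a i) = j h ^ (N + 1) * transDer φ (j (MvPolynomial.X i)) := by
        obtain ⟨l, hl⟩ := Nat.exists_eq_add_of_le (hN i)
        have h2 : N - k i = l := by omega
        simp only [ha]
        rw [map_mul, map_mul, ← hkb i, map_pow, h2, hl]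
        ring
      rw [h1]
      ring
  have hEh : ∀ f, h ∣ E f := by
    intro f
    rw [hE, mkD_apply]
    refine Finset.dvd_sum fun i _ => ?_
    exact (Dvd.intro _ rfl).mul_right _
  have hzero : ∀ f, j (E f) = 0 → E f ∈ I := by
    intro f hf
    obtain ⟨g, hg⟩ := hEh f
    rw [hg] at hf ⊢
    exact key g hf
  have hI0 : ∀ f ∈ I, j f = 0 := by
    intro f hf
    have : Ideal.Quotient.mk I f = 0 := Ideal.Quotient.eq_zero_iff_mem.2 hf
    rw [hj, RingHom.comp_apply, this, map_zero]
  have hδ0 : transDer φ 0 = 0 := by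
    have := transDer_algebraMap φ 0
    rwa [map_zero] at this
  obtain ⟨D, hD⟩ := exists_descend I E (by
    intro f hf
    apply hzero
    rw [hEj, hI0 f hf, hδ0, mul_zero])
  refine ⟨D, ?_, ?_⟩
  · intro h0
    obtain ⟨l, c, hc⟩ := hex (φ.symm X)
    have h1 : transDer φ (j c) = j h ^ l := by
      rw [← hc, transDer_mul, hδhk, mul_zero, zero_add]
      have : transDer φ (φ.symm X) = 1 := by
        rw [transDer, AlgEquiv.apply_symm_apply, derivative_X, map_one]
      rw [this, mul_one]
    have h2 : j (E c) = 0 := by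
      apply hI0
      rw [← Ideal.Quotient.eq_zero_iff_mem, ← hD, h0]
      rfl
    rw [hEj, h1] at h2
    exact ((hjh.pow (N + 1)).mul (hjh.pow l)).ne_zero h2
  · intro x
    obtain ⟨f, rfl⟩ := Ideal.Quotient.mk_surjective x
    obtain ⟨m, hm⟩ := transDer_nil φ (j f)
    have hiter : ∀ i, j ((⇑E)^[i] f) = j h ^ ((N + 1) * i) * (transDer φ)^[i] (j f) := by
      intro i
      induction i with
      | zero => simp
      | succ i ih =>
        rw [iter_succ, hEj, ih, transDer_mul, hδhk, mul_zero, add_zero,
          Function.iterate_succ_apply']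
        ring
    refine ⟨m + 1, ?_⟩
    rw [iter_mk I E D (fun f => (hD f).symm), Ideal.Quotient.eq_zero_iff_mem, iter_succ]
    apply hzero
    rw [hEj, hiter, hm, mul_zero, hδ0, mul_zero]

end Pool.Agent.M45f4ba
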