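import Mathlib

/-!
Extraction of a common root: if `q i ^ m j = q j ^ m i` for all `i, j` in a finite set and the
exponents `m i` are positive with greatest common divisor one, then all `q i` are powers
`φ ^ m i` of one polynomial `φ`.
-/

namespace Pool.Agent.M45f4ba

open Polynomial

/-- Bezout coefficients for natural numbers with gcd one, over the integers. -/
lemma exists_int_coeff {ι : Type*} (s : Finset ι) (m : ι → ℕ) (hgcd : s.gcd m = 1) :
    ∃ u : ι → ℤ, ∑ i ∈ s, (m i : ℤ) * u i = 1 := by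
  obtain ⟨u, hu⟩ := Finset.gcd_eq_sum_mul s (fun i => (m i : ℤ))
  refine ⟨u, ?_⟩
  rw [← hu]
  have h1 : ∀ t : Finset ι, t.gcd (fun i => (m i : ℤ)) = ((t.gcd m : ℕ) : ℤ) := by
    classical
    intro t
    induction t using Finset.induction with
    | empty => simp
    | insert a t ha ih =>
      rw [Finset.gcd_insert, Finset.gcd_insert, ih]
      rfl
  rw [h1, hgcd]
  rfl

/-- In a group with zero: elements with `q i ^ m j = q j ^ m i`, exponents of gcd one. -/
lemma zpow_root {K ι : Type*} [Field K] (s : Finset ι) (m : ι → ℕ) (u : ι → ℤ)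
    (hu : ∑ i ∈ s, (m i : ℤ) * u i = 1) (q : ι → K) (hq0 : ∀ i ∈ s, q i ≠ 0)
    (h : ∀ i ∈ s, ∀ j ∈ s, q i ^ m j = q j ^ m i) (j : ι) (hj : j ∈ s) :
    (∏ i ∈ s, q i ^ u i) ^ m j = q j := by
  rw [← Finset.prod_pow]
  have : ∀ i ∈ s, (q i ^ u i) ^ m j = q j ^ ((m i : ℤ) * u i) := by
    intro i hi
    rw [← zpow_natCast, ← zpow_mul, mul_comm (u i), zpow_mul, zpow_natCast, h i hi j hj,
      zpow_mul, zpow_natCast]
  rw [Finset.prod_congr rfl this]
  have h2 : ∀ t : Finset ι, ∏ i ∈ t, q j ^ ((m i : ℤ) * u i) = q j ^ (∑ i ∈ t, (m i : ℤ) * u i) := by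
    classical
    intro t
    induction t using Finset.induction with
    | empty => simp
    | insert a t ha ih =>
      rw [Finset.prod_insert ha, Finset.sum_insert ha, ih, zpow_add₀ (hq0 j hj)]
  rw [h2, hu, zpow_one]

/-- Common root of a family of polynomials. -/
lemma exists_common_root {ι : Type*} (s : Finset ι) (m : ι → ℕ) (hm : ∀ i ∈ s, 0 < m i)
    (hgcd : s.gcd m = 1) (q : ι → ℂ[X])
    (h : ∀ i ∈ s, ∀ j ∈ s, q i ^ m j = q j ^ m i) :
    ∃ φ : ℂ[X], ∀ i ∈ s, q i = φ ^ m i := by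
  obtain ⟨u, hu⟩ := exists_int_coeff s m hgcd
  by_cases hz : ∃ i ∈ s, q i = 0
  · obtain ⟨i, hi, hi0⟩ := hz
    refine ⟨0, fun j hj => ?_⟩
    have h1 := h i hi j hj
    rw [hi0, zero_pow (hm j hj).ne'] at h1
    have h2 : q j = 0 := by
      have := h1.symm
      exact pow_eq_zero_iff (hm i hi).ne' |>.1 this
    rw [h2, zero_pow (hm j hj).ne']
  · push Not at hz
    have hinj : Function.Injective (algebraMap ℂ[X] (RatFunc ℂ)) :=
      IsFractionRing.injective ℂ[X] (RatFunc ℂ)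
    set Q : ι → RatFunc ℂ := fun i => algebraMap ℂ[X] (RatFunc ℂ) (q i) with hQ
    have hQ0 : ∀ i ∈ s, Q i ≠ 0 := fun i hi h0 => hz i hi (hinj (by rw [map_zero]; exact h0))
    have hQh : ∀ i ∈ s, ∀ j ∈ s, Q i ^ m j = Q j ^ m i := by
      intro i hi j hj
      simp only [hQ, ← map_pow, h i hi j hj]
    set Φ : RatFunc ℂ := ∏ i ∈ s, Q i ^ u i with hΦ
    have hΦj : ∀ j ∈ s, Φ ^ m j = Q j := fun j hj => zpow_root s m u hu Q hQ0 hQh j hj
    by_cases hs : s.Nonempty
    · obtain ⟨i0, hi0⟩ := hs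
      have hint : IsIntegral ℂ[X] Φ := by
        refine IsIntegral.of_pow (hm i0 hi0) ?_
        rw [hΦj i0 hi0]
        exact isIntegral_algebraMap
      obtain ⟨φ, hφ⟩ := IsIntegrallyClosed.isIntegral_iff.1 hint
      refine ⟨φ, fun j hj => hinj ?_⟩
      rw [map_pow, hφ, hΦj j hj]
    · exact ⟨0, fun j hj => absurd ⟨j, hj⟩ hs⟩

/-- Two nonzero complex numbers with equal `m i`-th powers, the `m i` of gcd one, are equal. -/
lemma eq_of_pow_eq {ι : Type*} (s : Finset ι) (m : ι → ℕ) (hm : ∀ i ∈ s, 0 < m i)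
    (hgcd : s.gcd m = 1) (hs : s.Nonempty) (a b : ℂ) (h : ∀ i ∈ s, a ^ m i = b ^ m i) : a = b := by
  obtain ⟨u, hu⟩ := exists_int_coeff s m hgcd
  obtain ⟨i0, hi0⟩ := hs
  by_cases ha : a = 0
  · have h1 := h i0 hi0
    rw [ha, zero_pow (hm i0 hi0).ne'] at h1
    rw [ha, pow_eq_zero_iff (hm i0 hi0).ne' |>.1 h1.symm]
  · have hb : b ≠ 0 := by
      intro hb
      have h1 := h i0 hi0
      rw [hb, zero_pow (hm i0 hi0).ne'] at h1
      exact ha (pow_eq_zero_iff (hm i0 hi0).ne' |>.1 h1)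
    have key : ∀ c : ℂ, c ≠ 0 → c = ∏ i ∈ s, (c ^ m i) ^ u i := by
      intro c hc
      have h2 : ∀ t : Finset ι, ∏ i ∈ t, (c ^ m i) ^ u i = c ^ (∑ i ∈ t, (m i : ℤ) * u i) := by
        classical
        intro t
        induction t using Finset.induction with
        | empty => simp
        | insert a t ha ih =>
          rw [Finset.prod_insert ha, Finset.sum_insert ha, ih, zpow_add₀ hc, zpow_mul,
            zpow_natCast]
      rw [h2, hu, zpow_one]
    rw [key a ha, key b hb]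
    exact Finset.prod_congr rfl fun i hi => by rw [h i hi]

end Pool.Agent.M45f4ba
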