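import Pool.Agent.M45f4ba.Defs
import Pool.Agent.M45f4ba.Root

/-!
Polynomial curves and closures of orbits of regular actions of the multiplicative group.
-/

namespace Pool.Agent.M45f4ba

open Polynomial

variable {n : ℕ}

/-- Weighted homogeneity in terms of values. -/
lemma eval_weighted {w : Fin n → ℕ} {p : MvPolynomial (Fin n) ℂ} {d : ℕ}
    (hp : MvPolynomial.IsWeightedHomogeneous w p d) (c : ℂ) (x : Fin n → ℂ) :
    MvPolynomial.eval (fun i => c ^ w i * x i) p = c ^ d * MvPolynomial.eval x p := by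
  rw [MvPolynomial.eval_eq', MvPolynomial.eval_eq', Finset.mul_sum]
  refine Finset.sum_congr rfl fun m hm => ?_
  have h : Finsupp.weight w m = d := hp (MvPolynomial.mem_support_iff.1 hm)
  have h2 : ∏ i, (c ^ w i * x i) ^ m i = c ^ d * ∏ i, x i ^ m i := by
    rw [Finset.prod_congr rfl (fun i _ => mul_pow (c ^ w i) (x i) (m i)), Finset.prod_mul_distrib]
    congr 1
    rw [← h, Finsupp.weight_apply, Finsupp.sum_fintype _ _ (by simp), ← Finset.prod_pow_eq_pow_sum]
    refine Finset.prod_congr rfl fun i _ => ?_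
    rw [← pow_mul, smul_eq_mul, mul_comm]
  rw [h2]
  ring

/-- The composite of a polynomial in `n` variables with a polynomial curve. -/
noncomputable def pull (f : Fin n → ℂ[X]) (q : MvPolynomial (Fin n) ℂ) : ℂ[X] :=
  MvPolynomial.aeval f q

lemma pull_eval (f : Fin n → ℂ[X]) (q : MvPolynomial (Fin n) ℂ) (t : ℂ) :
    (pull f q).eval t = MvPolynomial.eval (val f t) q := by
  unfold pull
  have h : (Polynomial.evalRingHom t) (MvPolynomial.aeval f q) =
      MvPolynomial.eval (val f t) q := by
    rw [MvPolynomial.aeval_def, MvPolynomial.hom_eval₂]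
    rw [MvPolynomial.eval, MvPolynomial.coe_eval₂Hom]
    congr 1
    ext z
    simp
  exact h

lemma subset_zclosure (S : Set (Fin n → ℂ)) : S ⊆ zclosure S := fun x hx _ hq => hq x hx

/-- The identity of polynomials with infinitely many common values. -/
lemma poly_ext_of_units (A B : ℂ[X]) (h : ∀ l : ℂˣ, A.eval (l : ℂ) = B.eval (l : ℂ)) : A = B := by
  refine Polynomial.eq_of_infinite_eval_eq A B ?_
  refine Set.Infinite.mono (s := ({0}ᶜ : Set ℂ)) ?_ (Set.Finite.infinite_compl (Set.finite_singleton 0))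
  intro z hz
  exact h (Units.mk0 z hz)

/-- The characters of an orbit of a regular action extend to regular functions. -/
lemma orbit_coeff {Z : Set (Fin n → ℂ)} (σ : CStarAction Z) (x : Z) (N : ℕ)
    (A : Fin n → Polynomial (MvPolynomial (Fin n) ℂ))
    (hA : ∀ (l : ℂˣ) (x : Z) (i : Fin n),
      (l : ℂ) ^ N * (σ.action.smul l x : Fin n → ℂ) i =
        ((A i).map (MvPolynomial.eval (x : Fin n → ℂ))).eval (l : ℂ))
    (l : ℂˣ) (i : Fin n) (k : ℕ) :
    (l : ℂ) ^ N * MvPolynomial.eval ((σ.action.smul l x : Z) : Fin n → ℂ) ((A i).coeff k) =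
      MvPolynomial.eval (x : Fin n → ℂ) ((A i).coeff k) * (l : ℂ) ^ k := by
  have key : C ((l : ℂ) ^ N) * (A i).map (MvPolynomial.eval ((σ.action.smul l x : Z) : Fin n → ℂ)) =
      ((A i).map (MvPolynomial.eval (x : Fin n → ℂ))).comp (C (l : ℂ) * X) := by
    refine poly_ext_of_units _ _ fun m => ?_
    rw [eval_mul, eval_C, eval_comp, eval_mul, eval_C, eval_X, ← hA m (σ.action.smul l x) i]
    have h1 := hA (l * m) x i
    rw [Units.val_mul] at h1
    rw [← h1]
    have h2 : σ.action.smul m (σ.action.smul l x) = σ.action.smul (l * m) x := by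
      have := σ.action.mul_smul m l x
      rw [mul_comm l m]
      exact this.symm
    rw [h2]
    ring
  have h3 := congrArg (fun P => Polynomial.coeff P k) key
  simp only [coeff_C_mul, coeff_map, comp_C_mul_X_coeff] at h3
  exact h3

end Pool.Agent.M45f4ba
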