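import Pool.Agent.M45f4ba.Curve1

/-!
A polynomial curve whose image is the closure of an orbit factors through an injective
parametrization.
-/

namespace Pool.Agent.M45f4ba

open Polynomial

variable {n : ℕ}

/-- If the image of a non-constant polynomial curve `f` is the closure of an orbit of a regular
action of the multiplicative group, then `f` is a composite `P ∘ φ` in which `φ` separates
points that `f` separates, and only these. -/
lemma factor_through {Z : Set (Fin n → ℂ)} (σ : CStarAction Z) (x : Z) (f : Fin n → ℂ[X])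
    (hne : ∃ s t, val f s ≠ val f t) (hrange : Set.range (val f) = zclosure (σ.orbit x)) :
    ∃ (φ : ℂ[X]) (P : Fin n → ℂ[X]), (∀ i, f i = (P i).comp φ) ∧
      ∀ s t, val f s = val f t → φ.eval s = φ.eval t := by
  classical
  obtain ⟨N, A, hA⟩ := σ.regular
  set L : ℂˣ → Fin n → ℂ := fun l => ((σ.action.smul l x : Z) : Fin n → ℂ) with hL
  set a : Fin n → ℕ → ℂ := fun i k => MvPolynomial.eval (x : Fin n → ℂ) ((A i).coeff k) with ha
  have hco : ∀ (l : ℂˣ) (i : Fin n) (k : ℕ),
      (l : ℂ) ^ N * MvPolynomial.eval (L l) ((A i).coeff k) = a i k * (l : ℂ) ^ k :=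
    fun l i k => orbit_coeff σ x N A hA l i k
  -- transfer of identities from the orbit to the curve
  have transfer : ∀ q : MvPolynomial (Fin n) ℂ, (∀ l, MvPolynomial.eval (L l) q = 0) →
      ∀ t, MvPolynomial.eval (val f t) q = 0 := by
    intro q hq t
    have h1 : val f t ∈ zclosure (σ.orbit x) := hrange ▸ Set.mem_range_self t
    refine h1 q ?_
    rintro y ⟨l, rfl⟩
    exact hq l
  have onCurve : ∀ l, ∃ t, val f t = L l := by
    intro l
    have h1 : L l ∈ zclosure (σ.orbit x) := subset_zclosure _ ⟨l, rfl⟩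
    rw [← hrange] at h1
    exact h1
  -- a bound for the degrees
  obtain ⟨M, hM⟩ : ∃ M : ℕ, ∀ i, (A i).natDegree < M := by
    refine ⟨(Finset.univ.sup fun i => (A i).natDegree) + 1, fun i => ?_⟩
    exact Nat.lt_succ_of_le (Finset.le_sup (f := fun i => (A i).natDegree) (Finset.mem_univ i))
  set T : Finset (Fin n × ℕ) :=
    (Finset.univ ×ˢ Finset.range M).filter (fun τ => a τ.1 τ.2 ≠ 0 ∧ τ.2 ≠ N) with hT
  have memT : ∀ i k, (i, k) ∈ T ↔ k < M ∧ a i k ≠ 0 ∧ k ≠ N := by
    intro i k
    simp [hT]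
  set χ : Fin n × ℕ → MvPolynomial (Fin n) ℂ :=
    fun τ => MvPolynomial.C (a τ.1 τ.2)⁻¹ * (A τ.1).coeff τ.2 with hχ
  have hχval : ∀ τ ∈ T, ∀ l : ℂˣ, (l : ℂ) ^ N * MvPolynomial.eval (L l) (χ τ) = (l : ℂ) ^ τ.2 := by
    rintro ⟨i, k⟩ hτ l
    have hne0 := ((memT i k).1 hτ).2.1
    simp only [hχ, map_mul, MvPolynomial.eval_C]
    rw [mul_left_comm, hco l i k, ← mul_assoc, inv_mul_cancel₀ hne0, one_mul]
  -- the case of exponents of both signs
  have nosign : ¬ ∃ τ ∈ T, ∃ τ' ∈ T, N < τ.2 ∧ τ'.2 < N := by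
    rintro ⟨τ, hτ, τ', hτ', h1, h2⟩
    have v1 : ∀ l : ℂˣ, MvPolynomial.eval (L l) (χ τ) = (l : ℂ) ^ (τ.2 - N) := by
      intro l
      have := hχval τ hτ l
      have h3 : (l : ℂ) ^ τ.2 = (l : ℂ) ^ N * (l : ℂ) ^ (τ.2 - N) := by
        rw [← pow_add]; congr 1; omega
      rw [h3] at this
      exact mul_left_cancel₀ (pow_ne_zero _ l.ne_zero) this
    have v2 : ∀ l : ℂˣ, (l : ℂ) ^ (N - τ'.2) * MvPolynomial.eval (L l) (χ τ') = 1 := by
      intro l
      have := hχval τ' hτ' l
      have h3 : (l : ℂ) ^ N = (l : ℂ) ^ τ'.2 * (l : ℂ) ^ (N - τ'.2) := by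
        rw [← pow_add]; congr 1; omega
      rw [h3, mul_assoc] at this
      exact mul_left_cancel₀ (pow_ne_zero τ'.2 l.ne_zero) (by rw [this, mul_one])
    have rel : ∀ t, MvPolynomial.eval (val f t)
        (χ τ ^ (N - τ'.2) * χ τ' ^ (τ.2 - N) - 1) = 0 := by
      refine transfer _ fun l => ?_
      rw [map_sub, map_mul, map_pow, map_pow, map_one, v1 l, ← pow_mul, mul_comm (τ.2 - N),
        pow_mul, ← mul_pow, v2 l, one_pow, sub_self]
    have relp : pull f (χ τ) ^ (N - τ'.2) * pull f (χ τ') ^ (τ.2 - N) = 1 := by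
      refine Polynomial.funext fun t => ?_
      have := rel t
      rw [map_sub, map_mul, map_pow, map_pow, map_one, sub_eq_zero] at this
      rw [eval_mul, eval_pow, eval_pow, pull_eval, pull_eval, this, eval_one]
    have hunit : IsUnit (pull f (χ τ)) := by
      have h3 : IsUnit (pull f (χ τ) ^ (N - τ'.2)) := IsUnit.of_mul_eq_one _ relp
      exact (isUnit_pow_iff (by omega)).1 h3
    obtain ⟨c, -, hc⟩ := Polynomial.isUnit_iff.1 hunit
    obtain ⟨t1, ht1⟩ := onCurve 1
    obtain ⟨t2, ht2⟩ := onCurve (Units.mk0 2 two_ne_zero)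
    have e1 : c = 1 := by
      have := pull_eval f (χ τ) t1
      rw [ht1, v1, ← hc, eval_C] at this
      simpa using this
    have e2 : c = 2 ^ (τ.2 - N) := by
      have := pull_eval f (χ τ) t2
      rw [ht2, v1, ← hc, eval_C] at this
      simpa using this
    have e3 : (2 : ℂ) ^ (τ.2 - N) = 1 := by rw [← e2, e1]
    have e4 : (2 : ℕ) ^ (τ.2 - N) = 1 := by exact_mod_cast e3
    have e5 : τ.2 - N ≠ 0 := by omega
    exact absurd e4 (Nat.one_lt_two_pow e5).ne'
  -- all the characters are powers of one function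
  set e : Fin n × ℕ → ℕ := fun τ => (τ.2 - N) + (N - τ.2) with he
  obtain ⟨ν, hν⟩ : ∃ ν : ℂˣ → ℂ, ∀ τ ∈ T, ∀ l, MvPolynomial.eval (L l) (χ τ) = ν l ^ e τ := by
    by_cases hpos : ∃ τ ∈ T, N < τ.2
    · refine ⟨fun l => (l : ℂ), fun τ hτ l => ?_⟩
      have h1 : N < τ.2 := by
        by_contra hcon
        obtain ⟨τ0, hτ0, h0⟩ := hpos
        refine nosign ⟨τ0, hτ0, τ, hτ, h0, ?_⟩
        have := ((memT τ.1 τ.2).1 hτ).2.2
        omega
      have := hχval τ hτ l
      have h3 : (l : ℂ) ^ τ.2 = (l : ℂ) ^ N * (l : ℂ) ^ (e τ) := by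
        rw [← pow_add]; congr 1; simp only [he]; omega
      rw [h3] at this
      exact mul_left_cancel₀ (pow_ne_zero _ l.ne_zero) this
    · push Not at hpos
      refine ⟨fun l => (l : ℂ)⁻¹, fun τ hτ l => ?_⟩
      have h1 : τ.2 < N := lt_of_le_of_ne (hpos τ hτ) ((memT τ.1 τ.2).1 hτ).2.2
      have := hχval τ hτ l
      have h3 : (l : ℂ) ^ N = (l : ℂ) ^ τ.2 * (l : ℂ) ^ (e τ) := by
        rw [← pow_add]; congr 1; simp only [he]; omega
      rw [h3, mul_assoc] at this
      have h4 : (l : ℂ) ^ (e τ) * MvPolynomial.eval (L l) (χ τ) = 1 :=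
        mul_left_cancel₀ (pow_ne_zero τ.2 l.ne_zero) (by rw [this, mul_one])
      rw [inv_pow]
      exact eq_inv_of_mul_eq_one_right h4
  have epos : ∀ τ ∈ T, 0 < e τ := by
    intro τ hτ
    have := ((memT τ.1 τ.2).1 hτ).2.2
    simp only [he]
    omega
  -- the coordinates in terms of the characters
  have hcoord : ∀ i, f i = ∑ k ∈ Finset.range M, pull f ((A i).coeff k) := by
    intro i
    have h1 : ∀ t, MvPolynomial.eval (val f t)
        (MvPolynomial.X i - ∑ k ∈ Finset.range M, (A i).coeff k) = 0 := by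
      refine transfer _ fun l => ?_
      rw [map_sub, MvPolynomial.eval_X, map_sum]
      have h2 := hA 1 (σ.action.smul l x) i
      have h3 : σ.action.smul 1 (σ.action.smul l x) = σ.action.smul l x :=
        σ.action.one_smul _
      rw [h3, Units.val_one, one_pow, one_mul] at h2
      have h4 : ((A i).map (MvPolynomial.eval (L l))).natDegree < M :=
        lt_of_le_of_lt natDegree_map_le (hM i)
      rw [Polynomial.eval_eq_sum_range' h4] at h2
      simp only [coeff_map, one_pow, mul_one] at h2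
      rw [sub_eq_zero]
      exact h2
    refine Polynomial.funext fun t => ?_
    have h2 := h1 t
    rw [map_sub, MvPolynomial.eval_X, map_sum, sub_eq_zero] at h2
    rw [Polynomial.eval_finsetSum]
    simp only [pull_eval]
    exact h2
  have hterm : ∀ i k, pull f ((A i).coeff k) =
      if a i k ≠ 0 ∧ k ≠ N then C (a i k) * pull f (χ (i, k)) else C (a i k) := by
    intro i k
    split_ifs with h
    · refine Polynomial.funext fun t => ?_
      rw [eval_mul, eval_C, pull_eval, pull_eval]
      simp only [hχ, map_mul, MvPolynomial.eval_C]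
      rw [← mul_assoc, mul_inv_cancel₀ h.1, one_mul]
    · refine Polynomial.funext fun t => ?_
      rw [eval_C, pull_eval]
      have h1 : MvPolynomial.eval (val f t) ((A i).coeff k - MvPolynomial.C (a i k)) = 0 := by
        refine transfer _ (fun l => ?_) t
        rw [map_sub, MvPolynomial.eval_C]
        have h2 := hco l i k
        by_cases hk : k = N
        · subst hk
          rw [mul_comm] at h2
          rw [mul_right_cancel₀ (pow_ne_zero _ l.ne_zero) h2, sub_self]
        · have h3 : a i k = 0 := by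
            by_contra h4
            exact h ⟨h4, hk⟩
          rw [h3, zero_mul, mul_eq_zero] at h2
          rcases h2 with h2 | h2
          · exact absurd h2 (pow_ne_zero _ l.ne_zero)
          · rw [h2, h3, sub_zero]
      rw [map_sub, MvPolynomial.eval_C, sub_eq_zero] at h1
      exact h1
  have hTne : T.Nonempty := by
    by_contra hcon
    rw [Finset.not_nonempty_iff_eq_empty] at hcon
    obtain ⟨s, t, hst⟩ := hne
    refine hst (_root_.funext fun i => ?_)
    have hconst : f i = ∑ k ∈ Finset.range M, C (a i k) := by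
      rw [hcoord i]
      refine Finset.sum_congr rfl fun k hk => ?_
      rw [hterm i k, if_neg]
      intro h
      have : (i, k) ∈ T := (memT i k).2 ⟨Finset.mem_range.1 hk, h.1, h.2⟩
      rw [hcon] at this
      simp at this
    simp only [val, hconst, Polynomial.eval_finsetSum, eval_C]
  obtain ⟨m, hm, hgcd⟩ := Finset.extract_gcd e hTne
  have mpos : ∀ τ ∈ T, 0 < m τ := by
    intro τ hτ
    have h1 := epos τ hτ
    rw [hm τ hτ] at h1
    exact Nat.pos_of_mul_pos_left h1
  have hrel : ∀ τ ∈ T, ∀ τ' ∈ T, pull f (χ τ) ^ m τ' = pull f (χ τ') ^ m τ := by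
    intro τ hτ τ' hτ'
    refine Polynomial.funext fun t => ?_
    rw [eval_pow, eval_pow, pull_eval, pull_eval]
    have h1 : MvPolynomial.eval (val f t) (χ τ ^ m τ' - χ τ' ^ m τ) = 0 := by
      refine transfer _ (fun l => ?_) t
      rw [map_sub, map_pow, map_pow, hν τ hτ l, hν τ' hτ' l, ← pow_mul, ← pow_mul, hm τ hτ,
        hm τ' hτ', sub_eq_zero]
      congr 1
      ring
    rw [map_sub, map_pow, map_pow, sub_eq_zero] at h1
    exact h1
  obtain ⟨φ, hφ⟩ := exists_common_root T m mpos hgcd (fun τ => pull f (χ τ)) hrel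
  refine ⟨φ, fun i => ∑ k ∈ Finset.range M,
    (if a i k ≠ 0 ∧ k ≠ N then C (a i k) * X ^ m (i, k) else C (a i k)), fun i => ?_, ?_⟩
  · rw [hcoord i, Polynomial.sum_comp]
    refine Finset.sum_congr rfl fun k hk => ?_
    rw [hterm i k]
    split_ifs with h
    · have hmem : (i, k) ∈ T := (memT i k).2 ⟨Finset.mem_range.1 hk, h.1, h.2⟩
      rw [mul_comp, C_comp, pow_comp, X_comp, hφ (i, k) hmem]
    · rw [C_comp]
  · intro s t hst
    refine eq_of_pow_eq T m mpos hgcd hTne _ _ fun τ hτ => ?_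
    rw [← eval_pow, ← eval_pow, ← hφ τ hτ, pull_eval, pull_eval, hst]

end Pool.Agent.M45f4ba
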