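import Pool.Agent.M45f4ba.Curve2

/-!
Two branches with different directions at the vertex are incompatible with an injective
parametrization.
-/

namespace Pool.Agent.M45f4ba

open Polynomial

variable {n : ℕ}

lemma split_root (p : ℂ[X]) (hp : p ≠ 0) (a : ℂ) :
    ∃ (k : ℕ) (q : ℂ[X]), p = (X - C a) ^ k * q ∧ q.eval a ≠ 0 := by
  obtain ⟨q, hq, hnd⟩ := Polynomial.exists_eq_pow_rootMultiplicity_mul_and_not_dvd p hp a
  refine ⟨p.rootMultiplicity a, q, hq, fun h => hnd ?_⟩
  exact Polynomial.dvd_iff_isRoot.2 h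

lemma cmp_root (a : ℂ) (u v : ℕ) (G H : ℂ[X]) (h : (X - C a) ^ u * G = (X - C a) ^ v * H)
    (hH : H.eval a ≠ 0) :
    (G.eval a ≠ 0 → u = v ∧ G.eval a = H.eval a) ∧ (G.eval a = 0 → u < v) := by
  have hX : (X - C a : ℂ[X]) ≠ 0 := X_sub_C_ne_zero a
  have huv : u ≤ v := by
    by_contra hcon
    push Not at hcon
    have h1 : (X - C a) ^ u = (X - C a) ^ v * (X - C a) ^ (u - v) := by
      rw [← pow_add]; congr 1; omega
    rw [h1, mul_assoc] at h
    have h2 := mul_left_cancel₀ (pow_ne_zero v hX) h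
    apply hH
    rw [← h2, eval_mul, eval_pow, eval_sub, eval_X, eval_C, sub_self, zero_pow (by omega),
      zero_mul]
  have h1 : (X - C a) ^ v = (X - C a) ^ u * (X - C a) ^ (v - u) := by
    rw [← pow_add]; congr 1; omega
  rw [h1, mul_assoc] at h
  have h2 := mul_left_cancel₀ (pow_ne_zero u hX) h
  constructor
  · intro hG
    have h3 : u = v := by
      by_contra hne
      apply hG
      rw [h2, eval_mul, eval_pow, eval_sub, eval_X, eval_C, sub_self, zero_pow (by omega),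
        zero_mul]
    refine ⟨h3, ?_⟩
    rw [h2, h3, Nat.sub_self, pow_zero, one_mul]
  · intro hG
    refine lt_of_le_of_ne huv fun h3 => ?_
    rw [h2, h3, Nat.sub_self, pow_zero, one_mul] at hG
    exact hH hG

/-- The heart of the matter: if the curve `h ^ w • g` with `h = (X - s) (X - t)` factors as
`P ∘ φ` with `φ s = φ t`, then `g s` and `g t` lie in one orbit. -/
lemma same_of_comp {w : Fin n → ℕ} (hw : ∀ i, 0 < w i) (g : Fin n → ℂ[X]) (s t : ℂ)
    (hst : s ≠ t) (φ : ℂ[X]) (P : Fin n → ℂ[X])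
    (hf : ∀ i, ((X - C s) * (X - C t)) ^ w i * g i = (P i).comp φ)
    (hφ : φ.eval s = φ.eval t) (hs : val g s ≠ 0) (ht : val g t ≠ 0) :
    SameOrbit w (val g s) (val g t) := by
  classical
  set c := φ.eval s with hc
  set ψ := φ - C c with hψ
  set Q : Fin n → ℂ[X] := fun i => (P i).comp (X + C c) with hQ
  have hQψ : ∀ i, (P i).comp φ = (Q i).comp ψ := by
    intro i
    simp only [hQ, comp_assoc, hψ, add_comp, X_comp, C_comp, sub_add_cancel]
  have hψs : ψ.eval s = 0 := by simp [hψ, hc]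
  have hψt : ψ.eval t = 0 := by simp [hψ, hφ]
  have hψ0 : ψ ≠ 0 := by
    intro h0
    apply hs
    refine _root_.funext fun i => ?_
    have h1 := hf i
    rw [hQψ, h0] at h1
    have h2 : (((X - C s) * (X - C t)) ^ w i * g i).eval s = 0 := by
      simp [(hw i).ne']
    have h3 : (Q i).comp (0 : ℂ[X]) = C ((Q i).eval 0) := by
      rw [← C_0, comp_C]
    rw [h1, h3, eval_C] at h2
    rw [h3, h2, C_0, mul_eq_zero] at h1
    rcases h1 with h1 | h1
    · exact absurd h1 (pow_ne_zero _ (mul_ne_zero (X_sub_C_ne_zero s) (X_sub_C_ne_zero t)))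
    · simp [val, h1]
  obtain ⟨e0, ψ0, hψe0, hρ0⟩ := split_root ψ hψ0 s
  obtain ⟨e1, ψ1, hψe1, hρ1⟩ := split_root ψ hψ0 t
  -- data for each coordinate
  have data : ∀ i, ∃ (m : ℕ) (r : ℂ), g i ≠ 0 → r ≠ 0 ∧
      (((g i).eval s ≠ 0 → w i = e0 * m ∧ (s - t) ^ w i * (g i).eval s = ψ0.eval s ^ m * r) ∧
        ((g i).eval s = 0 → w i < e0 * m)) ∧
      (((g i).eval t ≠ 0 → w i = e1 * m ∧ (t - s) ^ w i * (g i).eval t = ψ1.eval t ^ m * r) ∧
        ((g i).eval t = 0 → w i < e1 * m)) := by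
    intro i
    by_cases hg : g i = 0
    · exact ⟨0, 0, fun h => absurd hg h⟩
    have hQ0 : Q i ≠ 0 := by
      intro h0
      have h1 := hf i
      rw [hQψ, h0, zero_comp, mul_eq_zero] at h1
      rcases h1 with h1 | h1
      · exact absurd h1 (pow_ne_zero _ (mul_ne_zero (X_sub_C_ne_zero s) (X_sub_C_ne_zero t)))
      · exact hg h1
    obtain ⟨m, R, hR, hR0⟩ := split_root (Q i) hQ0 0
    rw [C_0, sub_zero] at hR
    have hcomp : (Q i).comp ψ = ψ ^ m * R.comp ψ := by
      rw [hR, mul_comp, pow_comp, X_comp]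
    refine ⟨m, R.eval 0, fun _ => ⟨hR0, ?_, ?_⟩⟩
    · have h1 : (X - C s) ^ w i * ((X - C t) ^ w i * g i) =
          (X - C s) ^ (e0 * m) * (ψ0 ^ m * R.comp ψ) := by
        rw [← mul_assoc, ← mul_pow, hf i, hQψ, hcomp]
        nth_rewrite 1 [hψe0]
        rw [mul_pow, ← pow_mul, mul_assoc]
      have h2 : (ψ0 ^ m * R.comp ψ).eval s ≠ 0 := by
        rw [eval_mul, eval_pow, eval_comp, hψs]
        exact mul_ne_zero (pow_ne_zero _ hρ0) hR0
      obtain ⟨h3, h4⟩ := cmp_root s _ _ _ _ h1 h2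
      have h5 : ((X - C t) ^ w i * g i).eval s = (s - t) ^ w i * (g i).eval s := by simp
      have h6 : (ψ0 ^ m * R.comp ψ).eval s = ψ0.eval s ^ m * R.eval 0 := by
        rw [eval_mul, eval_pow, eval_comp, hψs]
      rw [h5, h6] at h3
      rw [h5] at h4
      refine ⟨fun hne => h3 (mul_ne_zero (pow_ne_zero _ (sub_ne_zero.2 hst)) hne), fun h0 => ?_⟩
      exact h4 (by rw [h0, mul_zero])
    · have h1 : (X - C t) ^ w i * ((X - C s) ^ w i * g i) =
          (X - C t) ^ (e1 * m) * (ψ1 ^ m * R.comp ψ) := by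
        rw [← mul_assoc, ← mul_pow, mul_comm (X - C t) (X - C s), hf i, hQψ, hcomp]
        nth_rewrite 1 [hψe1]
        rw [mul_pow, ← pow_mul, mul_assoc]
      have h2 : (ψ1 ^ m * R.comp ψ).eval t ≠ 0 := by
        rw [eval_mul, eval_pow, eval_comp, hψt]
        exact mul_ne_zero (pow_ne_zero _ hρ1) hR0
      obtain ⟨h3, h4⟩ := cmp_root t _ _ _ _ h1 h2
      have h5 : ((X - C s) ^ w i * g i).eval t = (t - s) ^ w i * (g i).eval t := by simp
      have h6 : (ψ1 ^ m * R.comp ψ).eval t = ψ1.eval t ^ m * R.eval 0 := by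
        rw [eval_mul, eval_pow, eval_comp, hψt]
      rw [h5, h6] at h3
      rw [h5] at h4
      refine ⟨fun hne => h3 (mul_ne_zero (pow_ne_zero _ (sub_ne_zero.2 hst.symm)) hne),
        fun h0 => ?_⟩
      exact h4 (by rw [h0, mul_zero])
  choose m r hmr using data
  have hs' : ∃ i, (g i).eval s ≠ 0 := by
    by_contra hcon
    push Not at hcon
    exact hs (_root_.funext hcon)
  have ht' : ∃ i, (g i).eval t ≠ 0 := by
    by_contra hcon
    push Not at hcon
    exact ht (_root_.funext hcon)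
  have gne : ∀ i (z : ℂ), (g i).eval z ≠ 0 → g i ≠ 0 := by
    intro i z h h0
    rw [h0, eval_zero] at h
    exact h rfl
  have hee : e0 = e1 := by
    obtain ⟨i, hi⟩ := hs'
    obtain ⟨j, hj⟩ := ht'
    obtain ⟨-, hi0, hi1⟩ := hmr i (gne i s hi)
    obtain ⟨-, hj0, hj1⟩ := hmr j (gne j t hj)
    have a1 : w i = e0 * m i := (hi0.1 hi).1
    have a2 : w i ≤ e1 * m i := by
      by_cases h : (g i).eval t = 0
      · exact (hi1.2 h).le
      · exact (hi1.1 h).1.le
    have b1 : w j = e1 * m j := (hj1.1 hj).1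
    have b2 : w j ≤ e0 * m j := by
      by_cases h : (g j).eval s = 0
      · exact (hj0.2 h).le
      · exact (hj0.1 h).1.le
    have hmi : 0 < m i := by
      have := hw i
      rw [a1] at this
      exact Nat.pos_of_mul_pos_left this
    have hmj : 0 < m j := by
      have := hw j
      rw [b1] at this
      exact Nat.pos_of_mul_pos_left this
    have c1 : e0 ≤ e1 := Nat.le_of_mul_le_mul_right (a1 ▸ a2) hmi
    have c2 : e1 ≤ e0 := Nat.le_of_mul_le_mul_right (b1 ▸ b2) hmj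
    exact le_antisymm c1 c2
  have e0pos : 0 < e0 := by
    obtain ⟨i, hi⟩ := hs'
    obtain ⟨-, hi0, -⟩ := hmr i (gne i s hi)
    have := hw i
    rw [(hi0.1 hi).1] at this
    exact Nat.pos_of_mul_pos_right this
  obtain ⟨μ, hμ⟩ := IsAlgClosed.exists_pow_nat_eq (ψ1.eval t / ψ0.eval s) e0pos
  have hμ0 : μ ≠ 0 := by
    intro h0
    rw [h0, zero_pow e0pos.ne'] at hμ
    exact div_ne_zero hρ1 hρ0 hμ.symm
  refine ⟨Units.mk0 (-μ) (neg_ne_zero.2 hμ0), fun i => ?_⟩
  simp only [val, Units.val_mk0]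
  by_cases hi : (g i).eval s = 0
  · by_cases hit : (g i).eval t = 0
    · rw [hi, hit, mul_zero]
    · exfalso
      obtain ⟨-, hi0, hi1⟩ := hmr i (gne i t hit)
      have h1 := hi0.2 hi
      have h2 := (hi1.1 hit).1
      rw [h2, hee] at h1
      exact lt_irrefl _ h1
  · obtain ⟨hr, hi0, hi1⟩ := hmr i (gne i s hi)
    obtain ⟨h1, h2⟩ := hi0.1 hi
    have hit : (g i).eval t ≠ 0 := by
      intro h0
      have h3 := hi1.2 h0
      rw [h1, hee] at h3
      exact lt_irrefl _ h3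
    obtain ⟨h3, h4⟩ := hi1.1 hit
    have hst' : (s - t) ^ w i ≠ 0 := pow_ne_zero _ (sub_ne_zero.2 hst)
    have h5 : (t - s) ^ w i = (-1) ^ w i * (s - t) ^ w i := by
      rw [← mul_pow]; congr 1; ring
    have h6 : μ ^ w i = (ψ1.eval t / ψ0.eval s) ^ m i := by
      rw [h1, pow_mul, hμ]
    have h7 : (-μ) ^ w i = (-1) ^ w i * μ ^ w i := by
      rw [← mul_pow]; congr 1; ring
    have h8 : ((-1 : ℂ) ^ w i) * ((-1) ^ w i) = 1 := by
      rw [← mul_pow]; simp
    have h9 : (s - t) ^ w i * ((-1) ^ w i * (g i).eval t) = ψ1.eval t ^ m i * r i := by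
      rw [← h4, h5]; ring
    have h10 : ψ0.eval s ^ m i ≠ 0 := pow_ne_zero _ hρ0
    have h11 : (s - t) ^ w i * ((g i).eval t) =
        (s - t) ^ w i * ((-μ) ^ w i * (g i).eval s) := by
      rw [h7, h6, div_pow]
      have h12 : (s - t) ^ w i * ((-1) ^ w i * (ψ1.eval t ^ m i / ψ0.eval s ^ m i) *
          (g i).eval s) = (-1) ^ w i * (ψ1.eval t ^ m i / ψ0.eval s ^ m i) *
          ((s - t) ^ w i * (g i).eval s) := by ring
      rw [h12, h2]
      have h13 : (-1) ^ w i * (ψ1.eval t ^ m i / ψ0.eval s ^ m i) * (ψ0.eval s ^ m i * r i) =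
          (-1) ^ w i * (ψ1.eval t ^ m i * r i) := by
        field_simp
      rw [h13, ← h9]
      have h14 : (-1) ^ w i * ((s - t) ^ w i * ((-1) ^ w i * (g i).eval t)) =
          ((-1 : ℂ) ^ w i * (-1) ^ w i) * ((s - t) ^ w i * (g i).eval t) := by ring
      rw [h14, h8, one_mul]
    exact mul_left_cancel₀ hst' h11

end Pool.Agent.M45f4ba
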