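import Pool.Agent.M45f4ba.Curve3

/-!
Non-orbit polynomial curves exist if and only if there is a rational curve in the weighted
projective variety.
-/

namespace Pool.Agent.M45f4ba

open Polynomial

variable {n : ℕ}

/-- From a rational curve to a polynomial curve that is not an orbit closure. -/
lemma nonOrbit_of_rational {w : Fin n → ℕ} (hw : ∀ i, 0 < w i) {p : MvPolynomial (Fin n) ℂ}
    {d : ℕ} (hp : MvPolynomial.IsWeightedHomogeneous w p d) (h : HasRationalCurve w p) :
    HasNonOrbitCurve p := by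
  obtain ⟨g, hg, s, t, hs, ht, hst⟩ := h
  have hne : s ≠ t := by
    rintro rfl
    exact hst ⟨1, fun i => by simp⟩
  set h0 : ℂ[X] := (X - C s) * (X - C t) with hh0
  set f : Fin n → ℂ[X] := fun i => h0 ^ w i * g i with hf
  have hval : ∀ z, val f z = fun i => (h0.eval z) ^ w i * val g z i := by
    intro z
    funext i
    simp [hf, val]
  have hs0 : h0.eval s = 0 := by simp [hh0]
  have ht0 : h0.eval t = 0 := by simp [hh0]
  have hfs : val f s = 0 := by
    rw [hval]
    funext i
    simp [hs0, (hw i).ne']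
  have hft : val f t = 0 := by
    rw [hval]
    funext i
    simp [ht0, (hw i).ne']
  have hfne : ∃ z, val f z ≠ 0 := by
    by_contra hcon
    push Not at hcon
    apply hs
    funext i
    have h1 : f i = 0 := by
      refine Polynomial.funext fun z => ?_
      rw [eval_zero]
      exact congrFun (hcon z) i
    simp only [hf, mul_eq_zero] at h1
    rcases h1 with h1 | h1
    · exact absurd h1 (pow_ne_zero _ (mul_ne_zero (X_sub_C_ne_zero s) (X_sub_C_ne_zero t)))
    · simp [val, h1]
  obtain ⟨z, hz⟩ := hfne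
  refine ⟨f, fun z => ?_, ⟨z, s, by rw [hfs]; exact hz⟩, fun σ x hrange => ?_⟩
  · have h1 : MvPolynomial.eval (val g z) p = 0 := hg z
    show MvPolynomial.eval (val f z) p = 0
    rw [hval, eval_weighted hp, h1, mul_zero]
  · obtain ⟨φ, P, hP, hφ⟩ := factor_through σ x f ⟨z, s, by rw [hfs]; exact hz⟩ hrange
    refine hst (same_of_comp hw g s t hne φ P (fun i => ?_) (hφ s t (by rw [hfs, hft])) hs ht)
    rw [← hP i]

/-- The standard action on a quasihomogeneous hypersurface. -/
noncomputable def stdAction {w : Fin n → ℕ} {p : MvPolynomial (Fin n) ℂ}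
    {d : ℕ} (hp : MvPolynomial.IsWeightedHomogeneous w p d) : CStarAction (Hyp p) where
  action :=
    { smul := fun l x => ⟨fun i => (l : ℂ) ^ w i * (x : Fin n → ℂ) i, by
        have h1 : MvPolynomial.eval (x : Fin n → ℂ) p = 0 := x.2
        show MvPolynomial.eval _ p = 0
        rw [eval_weighted hp, h1, mul_zero]⟩
      one_smul := fun x => by
        apply Subtype.ext
        funext i
        show ((1 : ℂˣ) : ℂ) ^ w i * (x : Fin n → ℂ) i = (x : Fin n → ℂ) i
        simp
      mul_smul := fun l m x => by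
        apply Subtype.ext
        funext i
        show ((l * m : ℂˣ) : ℂ) ^ w i * (x : Fin n → ℂ) i =
          (l : ℂ) ^ w i * ((m : ℂ) ^ w i * (x : Fin n → ℂ) i)
        rw [Units.val_mul, mul_pow, mul_assoc] }
  regular := by
    refine ⟨0, fun i => X ^ w i * C (MvPolynomial.X i), fun l x i => ?_⟩
    rw [pow_zero, one_mul, Polynomial.map_mul, Polynomial.map_pow, map_X, map_C, eval_mul,
      eval_pow, eval_X, eval_C, MvPolynomial.eval_X]
    rfl

lemma stdAction_orbit {w : Fin n → ℕ} {p : MvPolynomial (Fin n) ℂ}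
    {d : ℕ} (hp : MvPolynomial.IsWeightedHomogeneous w p d) (x : Hyp p) :
    (stdAction hp).orbit x = {y | SameOrbit w (x : Fin n → ℂ) y} := by
  ext y
  constructor
  · rintro ⟨l, rfl⟩
    exact ⟨l, fun i => rfl⟩
  · rintro ⟨l, hl⟩
    refine ⟨l, ?_⟩
    funext i
    exact (hl i).symm

lemma zero_mem_zclosure {w : Fin n → ℕ} (hw : ∀ i, 0 < w i) (x : Fin n → ℂ) :
    (0 : Fin n → ℂ) ∈ zclosure {y | SameOrbit w x y} := by
  intro q hq
  set F : Fin n → ℂ[X] := fun i => X ^ w i * C (x i) with hF
  have h1 : pull F q = 0 := by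
    refine poly_ext_of_units _ _ fun l => ?_
    rw [pull_eval, eval_zero]
    refine hq _ ⟨l, fun i => ?_⟩
    simp only [val, hF, eval_mul, eval_pow, eval_X, eval_C]
  have h2 := pull_eval F q 0
  rw [h1, eval_zero] at h2
  have h3 : val F 0 = 0 := by
    funext i
    simp only [val, hF, eval_mul, eval_pow, eval_X, eval_C]
    rw [zero_pow (hw i).ne', zero_mul]
    rfl
  rw [h3] at h2
  exact h2.symm

/-- If all polynomial curves in `X` lie in orbit closures of the standard action, then each
non-constant one is such an orbit closure. -/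
lemma rational_of_nonOrbit {w : Fin n → ℕ} (hw : ∀ i, 0 < w i) {p : MvPolynomial (Fin n) ℂ}
    {d : ℕ} (hp : MvPolynomial.IsWeightedHomogeneous w p d) (h : HasNonOrbitCurve p) :
    HasRationalCurve w p := by
  classical
  by_contra hno
  obtain ⟨f, hfX, ⟨s1, s2, hs12⟩, hf⟩ := h
  obtain ⟨s0, hs0⟩ : ∃ s, val f s ≠ 0 := by
    by_contra hcon
    push Not at hcon
    exact hs12 (by rw [hcon s1, hcon s2])
  set x0 : Fin n → ℂ := val f s0 with hx0
  have hsame : ∀ t, val f t ≠ 0 → SameOrbit w x0 (val f t) := by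
    intro t ht
    by_contra hcon
    exact hno ⟨f, hfX, s0, t, hs0, ht, hcon⟩
  refine hf (stdAction hp) ⟨x0, hfX s0⟩ ?_
  rw [stdAction_orbit]
  simp only
  set I : Finset (Fin n) := Finset.univ.filter fun i => x0 i ≠ 0 with hI
  have memI : ∀ i, i ∈ I ↔ x0 i ≠ 0 := by intro i; simp [hI]
  have hIne : I.Nonempty := by
    by_contra hcon
    rw [Finset.not_nonempty_iff_eq_empty] at hcon
    apply hs0
    funext i
    by_contra hi
    have : i ∈ I := (memI i).2 hi
    rw [hcon] at this
    simp at this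
  obtain ⟨m, hm, hgcd⟩ := Finset.extract_gcd w hIne
  have mpos : ∀ i ∈ I, 0 < m i := by
    intro i hi
    have h1 := hw i
    rw [hm i hi] at h1
    exact Nat.pos_of_mul_pos_left h1
  have key : ∀ y : Fin n → ℂ, (y = 0 ∨ SameOrbit w x0 y) → ∀ i ∈ I, ∀ j ∈ I,
      ((x0 i)⁻¹ * y i) ^ m j = ((x0 j)⁻¹ * y j) ^ m i := by
    rintro y (rfl | ⟨l, hl⟩) i hi j hj
    · simp [(mpos i hi).ne', (mpos j hj).ne']
    · have h1 : ∀ k ∈ I, (x0 k)⁻¹ * y k = (l : ℂ) ^ w k := by
        intro k hk
        rw [hl k, mul_comm ((l : ℂ) ^ w k), ← mul_assoc, inv_mul_cancel₀ ((memI k).1 hk), one_mul]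
      rw [h1 i hi, h1 j hj, ← pow_mul, ← pow_mul, hm i hi, hm j hj]
      congr 1
      ring
  have hcurve : ∀ t, val f t = 0 ∨ SameOrbit w x0 (val f t) := by
    intro t
    by_cases ht : val f t = 0
    · exact Or.inl ht
    · exact Or.inr (hsame t ht)
  set q : Fin n → ℂ[X] := fun i => C ((x0 i)⁻¹) * f i with hq
  have hrel : ∀ i ∈ I, ∀ j ∈ I, q i ^ m j = q j ^ m i := by
    intro i hi j hj
    refine Polynomial.funext fun t => ?_
    simp only [hq, eval_pow, eval_mul, eval_C]
    exact key _ (hcurve t) i hi j hj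
  obtain ⟨φ, hφ⟩ := exists_common_root I m mpos hgcd q hrel
  have hfI : ∀ i ∈ I, ∀ t, val f t i = x0 i * φ.eval t ^ m i := by
    intro i hi t
    have h1 := congrArg (fun P => Polynomial.eval t P) (hφ i hi)
    simp only [hq, eval_mul, eval_C, eval_pow] at h1
    rw [← h1, ← mul_assoc, mul_inv_cancel₀ ((memI i).1 hi), one_mul]
    rfl
  have hfI' : ∀ i, i ∉ I → ∀ t, val f t i = 0 := by
    intro i hi t
    have h0 : x0 i = 0 := by
      by_contra h
      exact hi ((memI i).2 h)
    rcases hcurve t with h | ⟨l, hl⟩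
    · rw [h]; rfl
    · rw [hl i, h0, mul_zero]
  have hφnc : 0 < φ.degree := by
    by_contra hcon
    push Not at hcon
    have h1 : φ = C (φ.coeff 0) := Polynomial.eq_C_of_degree_le_zero hcon
    apply hs12
    funext i
    by_cases hi : i ∈ I
    · rw [hfI i hi, hfI i hi, h1, eval_C, eval_C]
    · rw [hfI' i hi, hfI' i hi]
  apply Set.Subset.antisymm
  · rintro _ ⟨t, rfl⟩
    rcases hcurve t with h | h
    · rw [h]
      exact zero_mem_zclosure hw x0
    · exact subset_zclosure _ h
  · intro z hz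
    have hz' : ∀ i, i ∉ I → z i = 0 := by
      intro i hi
      have h0 : x0 i = 0 := by
        by_contra h
        exact hi ((memI i).2 h)
      have := hz (MvPolynomial.X i) (by
        rintro y ⟨l, hl⟩
        rw [MvPolynomial.eval_X, hl i, h0, mul_zero])
      rwa [MvPolynomial.eval_X] at this
    have hzI : ∀ i ∈ I, ∀ j ∈ I, ((x0 i)⁻¹ * z i) ^ m j = ((x0 j)⁻¹ * z j) ^ m i := by
      intro i hi j hj
      have h1 := hz ((MvPolynomial.C (x0 i)⁻¹ * MvPolynomial.X i) ^ m j -
        (MvPolynomial.C (x0 j)⁻¹ * MvPolynomial.X j) ^ m i) (by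
          intro y hy
          simp only [map_sub, map_pow, map_mul, MvPolynomial.eval_C, MvPolynomial.eval_X]
          rw [sub_eq_zero]
          exact key y (Or.inr hy) i hi j hj)
      simp only [map_sub, map_pow, map_mul, MvPolynomial.eval_C, MvPolynomial.eval_X] at h1
      exact sub_eq_zero.1 h1
    obtain ⟨θ, hθ⟩ := exists_common_root I m mpos hgcd (fun i => C ((x0 i)⁻¹ * z i))
      (fun i hi j hj => by rw [← C_pow, ← C_pow, hzI i hi j hj])
    set c := θ.eval 0 with hc
    have hzc : ∀ i ∈ I, z i = x0 i * c ^ m i := by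
      intro i hi
      have h1 := congrArg (fun P => Polynomial.eval 0 P) (hθ i hi)
      simp only [eval_C, eval_pow] at h1
      rw [← h1, ← mul_assoc, mul_inv_cancel₀ ((memI i).1 hi), one_mul]
    obtain ⟨t, ht⟩ := IsAlgClosed.exists_root (φ - C c) (by
      rw [degree_sub_C hφnc]
      exact hφnc.ne')
    have ht' : φ.eval t = c := by
      have : (φ - C c).eval t = 0 := ht
      rw [eval_sub, eval_C, sub_eq_zero] at this
      exact this
    refine ⟨t, ?_⟩
    funext i
    by_cases hi : i ∈ I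
    · rw [hfI i hi, hzc i hi, ht']
    · rw [hfI' i hi, hz' i hi]

theorem hasNonOrbitCurve_iff {w : Fin n → ℕ} (hw : ∀ i, 0 < w i) {p : MvPolynomial (Fin n) ℂ}
    {d : ℕ} (hp : MvPolynomial.IsWeightedHomogeneous w p d) :
    HasNonOrbitCurve p ↔ HasRationalCurve w p :=
  ⟨rational_of_nonOrbit hw hp, nonOrbit_of_rational hw hp⟩

end Pool.Agent.M45f4ba
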