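import Pool.Agent.M45f4ba.Curve4

/-!
The third characterization: the hypersurface contains a unirational surface.
-/

namespace Pool.Agent.M45f4ba

open Polynomial

variable {n : ℕ}

/-- Polynomials with vanishing Wronskian are proportional. -/
lemma wronskian_zero (A B : ℂ[X]) (hB : B ≠ 0)
    (h : derivative A * B = A * derivative B) : ∃ c : ℂ, A = C c * B := by
  by_cases hA : A = 0
  · exact ⟨0, by simp [hA]⟩
  -- choose `c` such that the degree of `A - c B` is not the degree of `B`
  set c : ℂ := A.coeff B.natDegree / B.leadingCoeff with hc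
  refine ⟨c, ?_⟩
  by_contra hne
  set D := A - C c * B with hD
  have hD0 : D ≠ 0 := sub_ne_zero.2 hne
  have hW : derivative D * B = D * derivative B := by
    simp only [hD, derivative_sub, derivative_C_mul]
    linear_combination h
  have hcoef : D.coeff B.natDegree = 0 := by
    rw [hD, coeff_sub, coeff_C_mul, hc]
    have : B.leadingCoeff ≠ 0 := leadingCoeff_ne_zero.2 hB
    rw [show B.coeff B.natDegree = B.leadingCoeff from rfl]
    field_simp
    ring
  have hdeg : D.natDegree ≠ B.natDegree := by
    intro h1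
    rw [← h1] at hcoef
    exact hD0 (leadingCoeff_eq_zero.1 hcoef)
  -- compare the coefficients of degree `deg D + deg B - 1`
  have key : (D.natDegree : ℂ) * (D.leadingCoeff * B.leadingCoeff) =
      (B.natDegree : ℂ) * (D.leadingCoeff * B.leadingCoeff) := by
    have h1 : (X * (derivative D * B)).coeff (D.natDegree + B.natDegree) =
        (D.natDegree : ℂ) * (D.leadingCoeff * B.leadingCoeff) := by
      have h2 : X * (derivative D * B) = (X * derivative D) * B := by ring
      rw [h2, coeff_mul_add_eq_of_natDegree_le ?_ (le_refl _)]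
      · by_cases h3 : D.natDegree = 0
        · rw [h3]
          simp
        · obtain ⟨k, hk⟩ := Nat.exists_eq_succ_of_ne_zero h3
          rw [hk, coeff_X_mul, coeff_derivative]
          have : D.leadingCoeff = D.coeff (k + 1) := by rw [leadingCoeff, hk]
          rw [this]
          push_cast
          rw [show B.coeff B.natDegree = B.leadingCoeff from rfl]
          ring
      · by_cases h3 : derivative D = 0
        · simp [h3]
        · refine le_trans natDegree_mul_le ?_
          have h4 : D.natDegree ≠ 0 := by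
            intro h5
            apply h3
            exact derivative_of_natDegree_zero h5
          have h5 := natDegree_derivative_lt h4
          have h6 := natDegree_X_le (R := ℂ)
          omega
    have h1' : (X * (D * derivative B)).coeff (D.natDegree + B.natDegree) =
        (B.natDegree : ℂ) * (D.leadingCoeff * B.leadingCoeff) := by
      have h2 : X * (D * derivative B) = D * (X * derivative B) := by ring
      rw [h2, coeff_mul_add_eq_of_natDegree_le (le_refl _) ?_]
      · by_cases h3 : B.natDegree = 0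
        · rw [h3]
          simp
        · obtain ⟨k, hk⟩ := Nat.exists_eq_succ_of_ne_zero h3
          rw [hk, coeff_X_mul, coeff_derivative]
          have : B.leadingCoeff = B.coeff (k + 1) := by rw [leadingCoeff, hk]
          rw [this]
          push_cast
          rw [show D.coeff D.natDegree = D.leadingCoeff from rfl]
          ring
      · by_cases h3 : derivative B = 0
        · simp [h3]
        · refine le_trans natDegree_mul_le ?_
          have h4 : B.natDegree ≠ 0 := by
            intro h5
            apply h3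
            exact derivative_of_natDegree_zero h5
          have h5 := natDegree_derivative_lt h4
          have h6 := natDegree_X_le (R := ℂ)
          omega
    rw [← h1, ← h1', hW]
  have hne0 : D.leadingCoeff * B.leadingCoeff ≠ 0 :=
    mul_ne_zero (leadingCoeff_ne_zero.2 hD0) (leadingCoeff_ne_zero.2 hB)
  have := mul_right_cancel₀ hne0 key
  exact hdeg (by exact_mod_cast this)

/-- If all the expressions `w i * g i * (g j)' - w j * (g i)' * g j` vanish, then any two nonzero
values of the curve `g` lie in one orbit. -/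
lemma same_of_wronskians {w : Fin n → ℕ} (hw : ∀ i, 0 < w i) (g : Fin n → ℂ[X])
    (h : ∀ i j, (w i : ℂ[X]) * (g i * derivative (g j)) = (w j : ℂ[X]) * (derivative (g i) * g j))
    (s t : ℂ) (hs : val g s ≠ 0) (ht : val g t ≠ 0) : SameOrbit w (val g s) (val g t) := by
  classical
  set I : Finset (Fin n) := Finset.univ.filter fun i => g i ≠ 0 with hI
  have memI : ∀ i, i ∈ I ↔ g i ≠ 0 := by intro i; simp [hI]
  obtain ⟨is, his⟩ : ∃ i, (g i).eval s ≠ 0 := by
    by_contra hcon
    push Not at hcon
    exact hs (_root_.funext hcon)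
  obtain ⟨it, hit⟩ : ∃ i, (g i).eval t ≠ 0 := by
    by_contra hcon
    push Not at hcon
    exact ht (_root_.funext hcon)
  have gne : ∀ i (z : ℂ), (g i).eval z ≠ 0 → g i ≠ 0 := by
    intro i z h1 h0
    rw [h0, eval_zero] at h1
    exact h1 rfl
  have hIne : I.Nonempty := ⟨is, (memI is).2 (gne is s his)⟩
  obtain ⟨m, hm, hgcd⟩ := Finset.extract_gcd w hIne
  set G := I.gcd w with hG
  have hGpos : 0 < G := by
    have h1 := hw is
    rw [hm is ((memI is).2 (gne is s his))] at h1
    exact Nat.pos_of_mul_pos_right h1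
  have mpos : ∀ i ∈ I, 0 < m i := by
    intro i hi
    have h1 := hw i
    rw [hm i hi] at h1
    exact Nat.pos_of_mul_pos_left h1
  have hprop : ∀ i ∈ I, ∀ j ∈ I, ∃ c : ℂ, c ≠ 0 ∧ g j ^ m i = C c * g i ^ m j := by
    intro i hi j hj
    have h1 := h i j
    rw [hm i hi, hm j hj] at h1
    push_cast at h1
    have hG0 : (G : ℂ[X]) ≠ 0 := by exact_mod_cast hGpos.ne'
    have h2 : (m i : ℂ[X]) * (g i * derivative (g j)) =
        (m j : ℂ[X]) * (derivative (g i) * g j) := by
      have h3 : (G : ℂ[X]) * ((m i : ℂ[X]) * (g i * derivative (g j))) =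
          (G : ℂ[X]) * ((m j : ℂ[X]) * (derivative (g i) * g j)) := by
        rw [← mul_assoc, h1, mul_assoc]
      exact mul_left_cancel₀ hG0 h3
    obtain ⟨c, hc⟩ := wronskian_zero (g j ^ m i) (g i ^ m j)
      (pow_ne_zero _ ((memI i).1 hi)) (by
        rw [derivative_pow, derivative_pow]
        obtain ⟨a, ha⟩ := Nat.exists_eq_succ_of_ne_zero (mpos i hi).ne'
        obtain ⟨b, hb⟩ := Nat.exists_eq_succ_of_ne_zero (mpos j hj).ne'
        rw [ha, hb] at h2 ⊢
        simp only [Nat.succ_eq_add_one, Nat.add_sub_cancel, map_natCast] at h2 ⊢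
        rw [pow_succ (g i) b, pow_succ (g j) a]
        linear_combination (g j ^ a * g i ^ b) * h2)
    refine ⟨c, fun hc0 => ?_, hc⟩
    rw [hc0, C_0, zero_mul] at hc
    exact (memI j).1 hj (pow_eq_zero_iff (mpos i hi).ne' |>.1 hc)
  -- the supports of the values are all of `I`
  have supp : ∀ z : ℂ, (∃ i, (g i).eval z ≠ 0) → ∀ j ∈ I, (g j).eval z ≠ 0 := by
    rintro z ⟨i, hi⟩ j hj h0
    have hiI := (memI i).2 (gne i z hi)
    obtain ⟨c, hc0, hc⟩ := hprop i hiI j hj
    have h1 := congrArg (fun P => Polynomial.eval z P) hc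
    simp only [eval_pow, eval_mul, eval_C, h0] at h1
    rw [zero_pow (mpos i hiI).ne'] at h1
    exact mul_ne_zero hc0 (pow_ne_zero _ hi) h1.symm
  have hrel : ∀ i ∈ I, ∀ j ∈ I, (((g i).eval s)⁻¹ * (g i).eval t) ^ m j =
      (((g j).eval s)⁻¹ * (g j).eval t) ^ m i := by
    intro i hi j hj
    obtain ⟨c, hc0, hc⟩ := hprop i hi j hj
    have h1 := congrArg (fun P => Polynomial.eval s P) hc
    have h2 := congrArg (fun P => Polynomial.eval t P) hc
    simp only [eval_pow, eval_mul, eval_C] at h1 h2
    have hi0 := supp s ⟨is, his⟩ i hi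
    have hj0 := supp s ⟨is, his⟩ j hj
    rw [mul_pow, mul_pow, inv_pow, inv_pow, h1, h2]
    have h3 : (eval s (g i)) ^ m j ≠ 0 := pow_ne_zero _ hi0
    field_simp
  obtain ⟨θ, hθ⟩ := exists_common_root I m mpos hgcd
    (fun i => C (((g i).eval s)⁻¹ * (g i).eval t))
    (fun i hi j hj => by rw [← C_pow, ← C_pow, hrel i hi j hj])
  set c := θ.eval 0 with hc
  have hcI : ∀ i ∈ I, (g i).eval t = c ^ m i * (g i).eval s := by
    intro i hi
    have h1 := congrArg (fun P => Polynomial.eval 0 P) (hθ i hi)
    simp only [eval_C, eval_pow] at h1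
    rw [← hc] at h1
    rw [← h1]
    have hi0 := supp s ⟨is, his⟩ i hi
    field_simp
  have hc0 : c ≠ 0 := by
    intro h0
    have h1 := hcI it ((memI it).2 (gne it t hit))
    rw [h0, zero_pow (mpos it ((memI it).2 (gne it t hit))).ne', zero_mul] at h1
    exact hit h1
  obtain ⟨l, hl⟩ := IsAlgClosed.exists_pow_nat_eq c hGpos
  have hl0 : l ≠ 0 := by
    intro h0
    rw [h0, zero_pow hGpos.ne'] at hl
    exact hc0 hl.symm
  refine ⟨Units.mk0 l hl0, fun i => ?_⟩
  simp only [val, Units.val_mk0]
  by_cases hi : i ∈ I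
  · rw [hcI i hi, hm i hi, pow_mul, hl]
  · have : g i = 0 := by
      by_contra h1
      exact hi ((memI i).2 h1)
    rw [this, eval_zero, eval_zero, mul_zero]

lemma planeMap_of_rational {w : Fin n → ℕ} (hw : ∀ i, 0 < w i) {p : MvPolynomial (Fin n) ℂ}
    {d : ℕ} (hp : MvPolynomial.IsWeightedHomogeneous w p d) (h : HasRationalCurve w p) :
    HasPlaneMap p := by
  classical
  obtain ⟨g, hg, s, t, hs, ht, hst⟩ := h
  set F : Fin n → MvPolynomial (Fin 2) ℂ := fun i =>
    MvPolynomial.X 0 ^ w i * Polynomial.aeval (MvPolynomial.X 1 : MvPolynomial (Fin 2) ℂ) (g i)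
    with hF
  have ev : ∀ (z : Fin 2 → ℂ) (q : ℂ[X]), MvPolynomial.eval z
      (Polynomial.aeval (MvPolynomial.X 1 : MvPolynomial (Fin 2) ℂ) q) = q.eval (z 1) := by
    intro z q
    rw [← MvPolynomial.coe_aeval_eq_eval]
    have := Polynomial.aeval_algHom_apply
      (MvPolynomial.aeval z : MvPolynomial (Fin 2) ℂ →ₐ[ℂ] ℂ) (MvPolynomial.X 1) q
    simp only [RingHom.coe_coe]
    rw [← this]
    simp
  have hval : ∀ z : Fin 2 → ℂ, (fun i => MvPolynomial.eval z (F i)) =
      fun i => z 0 ^ w i * val g (z 1) i := by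
    intro z
    funext i
    simp only [hF, map_mul, map_pow, MvPolynomial.eval_X]
    congr 1
    exact ev z (g i)
  refine ⟨F, fun z => ?_, ?_⟩
  · rw [hval]
    have h1 : MvPolynomial.eval (val g (z 1)) p = 0 := hg (z 1)
    show MvPolynomial.eval _ p = 0
    rw [eval_weighted hp, h1, mul_zero]
  · by_contra hcon
    push Not at hcon
    refine hst (same_of_wronskians hw g (fun i j => ?_) s t hs ht)
    -- derivatives of `F`
    have d0 : ∀ i, MvPolynomial.pderiv 0 (F i) = (w i : MvPolynomial (Fin 2) ℂ) *
        MvPolynomial.X 0 ^ (w i - 1) *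
        Polynomial.aeval (MvPolynomial.X 1 : MvPolynomial (Fin 2) ℂ) (g i) := by
      intro i
      simp only [hF]
      rw [Derivation.leibniz, Derivation.leibniz_pow, MvPolynomial.pderiv_X_self]
      have h2 : MvPolynomial.pderiv (0 : Fin 2)
          (Polynomial.aeval (MvPolynomial.X 1 : MvPolynomial (Fin 2) ℂ) (g i)) = 0 := by
        rw [Derivation.map_aeval]
        simp [MvPolynomial.pderiv_X]
      rw [h2]
      simp only [smul_eq_mul, nsmul_eq_mul]
      ring
    have d1 : ∀ i, MvPolynomial.pderiv 1 (F i) =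
        MvPolynomial.X 0 ^ w i *
        Polynomial.aeval (MvPolynomial.X 1 : MvPolynomial (Fin 2) ℂ) (derivative (g i)) := by
      intro i
      simp only [hF]
      rw [Derivation.leibniz, Derivation.leibniz_pow]
      have h2 : MvPolynomial.pderiv (1 : Fin 2)
          (Polynomial.aeval (MvPolynomial.X 1 : MvPolynomial (Fin 2) ℂ) (g i)) =
          Polynomial.aeval (MvPolynomial.X 1 : MvPolynomial (Fin 2) ℂ) (derivative (g i)) := by
        rw [Derivation.map_aeval, MvPolynomial.pderiv_X_self]
        simp
      rw [h2]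
      simp [MvPolynomial.pderiv_X]
    refine Polynomial.funext fun z => ?_
    have h1 := hcon i j ![1, z]
    rw [d0, d1, d1, d0] at h1
    simp only [map_sub, map_mul, map_pow, MvPolynomial.eval_X, ev, map_natCast,
      Matrix.cons_val_zero, Matrix.cons_val_one, one_pow, mul_one, one_mul] at h1
    simp only [eval_mul, eval_natCast]
    linear_combination h1

lemma rational_of_planeMap {w : Fin n → ℕ} (hw : ∀ i, 0 < w i) {p : MvPolynomial (Fin n) ℂ}
    (h : HasPlaneMap p) : HasRationalCurve w p := by
  classical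
  by_contra hno
  obtain ⟨F, hFX, i, j, z0, hz0⟩ := h
  set ev : (Fin 2 → ℂ) → Fin n → ℂ := fun z k => MvPolynomial.eval z (F k) with hev
  -- any two nonzero values lie in one orbit
  have hline : ∀ a b : Fin 2 → ℂ, ev a ≠ 0 → ev b ≠ 0 → SameOrbit w (ev a) (ev b) := by
    intro a b ha hb
    by_contra hcon
    apply hno
    set g : Fin n → ℂ[X] := fun k =>
      MvPolynomial.aeval (fun r => C (a r) + C (b r - a r) * X) (F k) with hg
    have hval : ∀ t, val g t = ev (fun r => a r + (b r - a r) * t) := by
      intro t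
      funext k
      have h1 := pull_eval (fun r => C (a r) + C (b r - a r) * X) (F k) t
      have h2 : val (fun r => C (a r) + C (b r - a r) * X) t =
          (fun r => a r + (b r - a r) * t) := by
        funext r
        simp [val]
      rw [h2] at h1
      exact h1
    have h0 : val g 0 = ev a := by
      rw [hval]; congr 1; funext r; ring
    have h1 : val g 1 = ev b := by
      rw [hval]; congr 1; funext r; ring
    refine ⟨g, fun t => ?_, 0, 1, ?_, ?_, ?_⟩
    · rw [hval]; exact hFX _
    · rw [h0]; exact ha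
    · rw [h1]; exact hb
    · rw [h0, h1]; exact hcon
  obtain ⟨a, ha⟩ : ∃ a, ev a ≠ 0 := by
    by_contra hcon
    push Not at hcon
    have h1 : F i = 0 := by
      refine MvPolynomial.funext fun z => ?_
      rw [map_zero]
      exact congrFun (hcon z) i
    rw [h1] at hz0
    simp at hz0
  set x0 := ev a with hx0
  have hall : ∀ z, ev z = 0 ∨ SameOrbit w x0 (ev z) := by
    intro z
    by_cases hz : ev z = 0
    · exact Or.inl hz
    · exact Or.inr (hline a z ha hz)
  have hzero : ∀ k, x0 k = 0 → F k = 0 := by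
    intro k hk
    refine MvPolynomial.funext fun z => ?_
    rw [map_zero]
    rcases hall z with h | ⟨l, hl⟩
    · exact congrFun h k
    · have := hl k
      rw [hk, mul_zero] at this
      exact this
  have hi0 : x0 i ≠ 0 := by
    intro h
    rw [hzero i h] at hz0
    simp at hz0
  have hj0 : x0 j ≠ 0 := by
    intro h
    rw [hzero j h] at hz0
    simp at hz0
  have hFi : F i ≠ 0 := by
    intro h
    rw [h] at hz0
    simp at hz0
  have hrel : MvPolynomial.C (x0 j ^ w i) * F i ^ w j = MvPolynomial.C (x0 i ^ w j) * F j ^ w i := by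
    refine MvPolynomial.funext fun z => ?_
    simp only [map_mul, map_pow, MvPolynomial.eval_C]
    have e1 : MvPolynomial.eval z (F i) = ev z i := rfl
    have e2 : MvPolynomial.eval z (F j) = ev z j := rfl
    rw [e1, e2]
    rcases hall z with h | ⟨l, hl⟩
    · rw [h]
      simp [(hw i).ne', (hw j).ne']
    · rw [hl i, hl j, mul_pow, mul_pow, ← pow_mul, ← pow_mul, mul_comm (w j) (w i)]
      ring
  have hder : ∀ r : Fin 2, MvPolynomial.C (x0 j ^ w i) *
      ((w j : MvPolynomial (Fin 2) ℂ) * F i ^ (w j - 1) * MvPolynomial.pderiv r (F i)) =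
      MvPolynomial.C (x0 i ^ w j) *
      ((w i : MvPolynomial (Fin 2) ℂ) * F j ^ (w i - 1) * MvPolynomial.pderiv r (F j)) := by
    intro r
    have h1 := congrArg (MvPolynomial.pderiv r) hrel
    rw [MvPolynomial.pderiv_C_mul, MvPolynomial.pderiv_C_mul, Derivation.leibniz_pow,
      Derivation.leibniz_pow] at h1
    simpa only [smul_eq_mul, nsmul_eq_mul, mul_assoc] using h1
  have hM : MvPolynomial.pderiv 0 (F i) * MvPolynomial.pderiv 1 (F j) -
        MvPolynomial.pderiv 1 (F i) * MvPolynomial.pderiv 0 (F j) = 0 := by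
    have h0 := hder 0
    have h1 := hder 1
    have h2 : (MvPolynomial.C (x0 j ^ w i) * ((w j : MvPolynomial (Fin 2) ℂ) * F i ^ (w j - 1))) *
        (MvPolynomial.pderiv 0 (F i) * MvPolynomial.pderiv 1 (F j) -
        MvPolynomial.pderiv 1 (F i) * MvPolynomial.pderiv 0 (F j)) = 0 := by
      linear_combination (MvPolynomial.pderiv 1 (F j)) * h0 - (MvPolynomial.pderiv 0 (F j)) * h1
    rcases mul_eq_zero.1 h2 with h3 | h3
    · exfalso
      rcases mul_eq_zero.1 h3 with h4 | h4
      · rw [MvPolynomial.C_eq_zero] at h4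
        exact pow_ne_zero _ hj0 h4
      · rcases mul_eq_zero.1 h4 with h5 | h5
        · have h6 : (w j : MvPolynomial (Fin 2) ℂ) ≠ 0 := by exact_mod_cast (hw j).ne'
          exact h6 h5
        · exact pow_ne_zero _ hFi h5
    · exact h3
  rw [hM] at hz0
  simp at hz0

end Pool.Agent.M45f4ba
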