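import Pool.Agent.M45f4ba.Grade

/-!
Homogenization of a derivation that is locally nilpotent modulo a homogeneous polynomial.
-/

namespace Pool.Agent.M45f4ba

open MvPolynomial

variable {n : ℕ}

lemma dvd_map_of_dvd {q : MvPolynomial (Fin n) ℂ}
    {E : Derivation ℂ (MvPolynomial (Fin n) ℂ) (MvPolynomial (Fin n) ℂ)} (hEq : q ∣ E q)
    {g : MvPolynomial (Fin n) ℂ} (hg : q ∣ g) : q ∣ E g := by
  obtain ⟨c, rfl⟩ := hg
  rw [Derivation.leibniz, smul_eq_mul, smul_eq_mul]
  exact dvd_add (dvd_mul_right _ _) (hEq.mul_left _)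

lemma dvd_iter_of_dvd {q : MvPolynomial (Fin n) ℂ}
    {E : Derivation ℂ (MvPolynomial (Fin n) ℂ) (MvPolynomial (Fin n) ℂ)} (hEq : q ∣ E q)
    {g : MvPolynomial (Fin n) ℂ} {k m : ℕ} (hkm : k ≤ m) (hg : q ∣ (⇑E)^[k] g) :
    q ∣ (⇑E)^[m] g := by
  obtain ⟨r, rfl⟩ := Nat.exists_eq_add_of_le hkm
  induction r with
  | zero => exact hg
  | succ r ih =>
    rw [← Nat.add_assoc, iter_succ]
    exact dvd_map_of_dvd hEq (ih (by omega))

theorem homogenize {W : Fin n → ℤ} {q : MvPolynomial (Fin n) ℂ} {kq : ℤ} (hq : WH W q kq)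
    (E : Derivation ℂ (MvPolynomial (Fin n) ℂ) (MvPolynomial (Fin n) ℂ)) (hEq : q ∣ E q)
    (hnil : ∀ f, ∃ k, q ∣ (⇑E)^[k] f) (hne : ∃ f, ¬ q ∣ E f)
    (S : Set (MvPolynomial (Fin n) ℂ)) (hS : ∀ s ∈ S, (∃ m, WH W s m) ∧ q ∣ E s) :
    ∃ (e : ℤ) (E' : Derivation ℂ (MvPolynomial (Fin n) ℂ) (MvPolynomial (Fin n) ℂ)),
      (∀ f m, WH W f m → WH W (E' f) (m + e)) ∧ q ∣ E' q ∧ (∀ f, ∃ k, q ∣ (⇑E')^[k] f) ∧
      (∃ i, ¬ q ∣ E' (X i)) ∧ ∀ s ∈ S, q ∣ E' s := by
  classical
  set a : Fin n → MvPolynomial (Fin n) ℂ := fun i => E (X i) with ha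
  have hE : ∀ f, E f = ∑ i, a i * pderiv i f := by
    intro f
    rw [← mkD_apply]
    congr 1
    refine MvPolynomial.derivation_ext fun i => ?_
    rw [mkDerivation_X]
  set a' : Fin n → MvPolynomial (Fin n) ℂ := fun i =>
    ∑ k ∈ (degs W (a i)).filter (fun k => ¬ q ∣ comp W k (a i)), comp W k (a i) with ha'
  have hdiff : ∀ i, q ∣ a i - a' i := by
    intro i
    have h1 : a i - a' i =
        ∑ k ∈ (degs W (a i)).filter (fun k => q ∣ comp W k (a i)), comp W k (a i) := by
      have h2 := sum_comp W (a i) (degs W (a i)) (subset_refl _)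
      rw [← Finset.sum_filter_add_sum_filter_not (degs W (a i))
        (fun k => q ∣ comp W k (a i))] at h2
      simp only [ha']
      nth_rewrite 1 [← h2]
      ring
    rw [h1]
    refine Finset.dvd_sum fun k hk => ?_
    exact (Finset.mem_filter.1 hk).2
  have hcomp : ∀ i k, comp W k (a' i) = if q ∣ comp W k (a i) then 0 else comp W k (a i) := by
    intro i k
    simp only [ha']
    unfold comp
    rw [map_sum]
    have h1 : ∀ j ∈ (degs W (a i)).filter (fun k => ¬ q ∣ comp W k (a i)),
        weightedHomogeneousComponent W k (comp W j (a i)) =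
        if j = k then comp W j (a i) else 0 := by
      intro j _
      split_ifs with h
      · subst h
        exact comp_same (comp_WH W j (a i))
      · exact comp_ne (comp_WH W j (a i)) (Ne.symm h)
    rw [Finset.sum_congr rfl h1, Finset.sum_ite_eq']
    split_ifs with h2 h3 h3
    · exact absurd h3 (Finset.mem_filter.1 h2).2
    · rfl
    · rfl
    · by_contra h4
      apply h2
      rw [Finset.mem_filter]
      refine ⟨?_, h3⟩
      by_contra h5
      exact h4 (comp_eq_zero_of_not_mem h5).symm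
  set Et := mkD a' with hEt
  have hEtf : ∀ f, q ∣ E f - Et f := by
    intro f
    rw [hE, hEt, mkD_apply, ← Finset.sum_sub_distrib]
    refine Finset.dvd_sum fun i _ => ?_
    rw [← sub_mul]
    exact (hdiff i).mul_right _
  have hEtq : q ∣ Et q := by
    have h1 := hEtf q
    exact (dvd_sub_right hEq).1 h1
  have hiter : ∀ k f, q ∣ (⇑E)^[k] f - (⇑Et)^[k] f := by
    intro k f
    induction k with
    | zero => simp
    | succ k ih =>
      rw [iter_succ, iter_succ]
      have h1 : E ((⇑E)^[k] f) - Et ((⇑Et)^[k] f) =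
          E ((⇑E)^[k] f - (⇑Et)^[k] f) + (E ((⇑Et)^[k] f) - Et ((⇑Et)^[k] f)) := by
        rw [map_sub]; ring
      rw [h1]
      exact dvd_add (dvd_map_of_dvd hEq ih) (hEtf _)
  -- the top degree
  set T : Finset ℤ := Finset.univ.biUnion fun i =>
    ((degs W (a i)).filter (fun k => ¬ q ∣ comp W k (a i))).image (fun k => k - W i) with hT
  have hTne : T.Nonempty := by
    obtain ⟨f, hf⟩ := hne
    have h1 : ∃ i, ¬ q ∣ a i := by
      by_contra hcon
      push Not at hcon
      apply hf
      rw [hE]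
      exact Finset.dvd_sum fun i _ => (hcon i).mul_right _
    obtain ⟨i, hi⟩ := h1
    have h2 : ∃ k, ¬ q ∣ comp W k (a i) := by
      by_contra hcon
      push Not at hcon
      exact hi (dvd_of_comp hcon)
    obtain ⟨k, hk⟩ := h2
    refine ⟨k - W i, ?_⟩
    rw [hT, Finset.mem_biUnion]
    refine ⟨i, Finset.mem_univ i, ?_⟩
    rw [Finset.mem_image]
    refine ⟨k, ?_, rfl⟩
    rw [Finset.mem_filter]
    refine ⟨?_, hk⟩
    by_contra h5
    apply hk
    rw [comp_eq_zero_of_not_mem h5]
    exact dvd_zero _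
  set e := T.max' hTne with he
  have hle : ∀ i k, ¬ q ∣ comp W k (a i) → k - W i ≤ e := by
    intro i k hk
    refine Finset.le_max' _ _ ?_
    rw [hT, Finset.mem_biUnion]
    refine ⟨i, Finset.mem_univ i, ?_⟩
    rw [Finset.mem_image]
    refine ⟨k, ?_, rfl⟩
    rw [Finset.mem_filter]
    refine ⟨?_, hk⟩
    by_contra h5
    apply hk
    rw [comp_eq_zero_of_not_mem h5]
    exact dvd_zero _
  obtain ⟨i0, k0, hk0, hik⟩ : ∃ i k, ¬ q ∣ comp W k (a i) ∧ k - W i = e := by
    have h1 := Finset.max'_mem T hTne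
    rw [← he, hT, Finset.mem_biUnion] at h1
    obtain ⟨i, -, hi⟩ := h1
    rw [Finset.mem_image] at hi
    obtain ⟨k, hk, hki⟩ := hi
    exact ⟨i, k, (Finset.mem_filter.1 hk).2, hki⟩
  have hzero : ∀ i k, e + W i < k → comp W k (a' i) = 0 := by
    intro i k hk
    rw [hcomp]
    split_ifs with h
    · rfl
    · have := hle i k h
      omega
  set E' := mkD (fun i => comp W (e + W i) (a' i)) with hE'
  have hhom : ∀ f m, WH W f m → WH W (E' f) (m + e) := by
    intro f m hf
    rw [hE', mkD_apply]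
    refine IsWeightedHomogeneous.sum _ _ _ fun i _ => ?_
    have h1 : WH W (pderiv i f) (m - W i) := hf.pderiv (by ring)
    have h2 := (comp_WH W (e + W i) (a' i)).mul h1
    have h3 : e + W i + (m - W i) = m + e := by ring
    rw [h3] at h2
    exact h2
  -- components of `Et g` for homogeneous `g`
  have hc1 : ∀ g j, WH W g j → comp W (j + e) (Et g) = E' g := by
    intro g j hg
    rw [hEt, comp_mkD a' hg, hE']
    congr 2
    funext i
    congr 1
    ring
  have hc2 : ∀ g j k, WH W g j → j + e < k → comp W k (Et g) = 0 := by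
    intro g j k hg hk
    rw [hEt, comp_mkD a' hg]
    have : (fun i => comp W (k - j + W i) (a' i)) = fun _ => 0 := by
      funext i
      exact hzero i _ (by omega)
    rw [this, mkD_apply]
    simp
  have hit : ∀ (k : ℕ) f m, WH W f m → (∀ r, m + k * e < r → comp W r ((⇑Et)^[k] f) = 0) ∧
      comp W (m + k * e) ((⇑Et)^[k] f) = (⇑E')^[k] f := by
    intro k f m hf
    induction k with
    | zero =>
      refine ⟨fun r hr => ?_, ?_⟩
      · exact comp_ne hf (by simp at hr; omega)
      · simp only [Nat.cast_zero, zero_mul, add_zero, Function.iterate_zero, id_eq]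
        exact comp_same hf
    | succ k ih =>
      set g := (⇑Et)^[k] f with hg
      have hsum : ∀ r, comp W r (Et g) = ∑ j ∈ degs W g, comp W r (Et (comp W j g)) := by
        intro r
        conv_lhs => rw [← sum_comp W g (degs W g) (subset_refl _), map_sum]
        unfold comp
        rw [map_sum]
      rw [iter_succ, iter_succ]
      refine ⟨fun r hr => ?_, ?_⟩
      · rw [hsum]
        refine Finset.sum_eq_zero fun j _ => ?_
        by_cases hj : m + k * e < j
        · rw [ih.1 j hj, map_zero]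
          unfold comp
          rw [map_zero]
        · refine hc2 _ j r (comp_WH W j g) ?_
          push_cast at hr
          have : (↑k + 1) * e = k * e + e := by ring
          rw [this] at hr
          omega
      · rw [hsum]
        have h1 : m + ((k + 1 : ℕ) : ℤ) * e = (m + k * e) + e := by push_cast; ring
        rw [h1, Finset.sum_eq_single (m + k * e)]
        · rw [hc1 _ _ (comp_WH W _ g), ih.2]
        · intro j _ hj
          by_cases hj2 : m + k * e < j
          · rw [ih.1 j hj2, map_zero]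
            unfold comp
            rw [map_zero]
          · exact hc2 _ j _ (comp_WH W j g) (by omega)
        · intro h2
          rw [comp_eq_zero_of_not_mem h2, map_zero]
          unfold comp
          rw [map_zero]
  have hE'q : q ∣ E' q := by
    rw [← hc1 q kq hq]
    exact comp_mem hq hEtq _
  refine ⟨e, E', hhom, hE'q, ?_, ⟨i0, ?_⟩, ?_⟩
  · intro f
    have h1 : ∀ m, ∃ k, q ∣ (⇑E')^[k] (comp W m f) := by
      intro m
      obtain ⟨k, hk⟩ := hnil (comp W m f)
      refine ⟨k, ?_⟩
      have h2 : q ∣ (⇑Et)^[k] (comp W m f) := (dvd_sub_right hk).1 (hiter k _)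
      rw [← (hit k _ m (comp_WH W m f)).2]
      exact comp_mem hq h2 _
    choose K hK using h1
    obtain ⟨K0, hK0⟩ : ∃ K0, ∀ m ∈ degs W f, K m ≤ K0 :=
      ⟨(degs W f).sup K, fun m hm => Finset.le_sup hm⟩
    refine ⟨K0, ?_⟩
    have h2 : (⇑E')^[K0] f = ∑ m ∈ degs W f, (⇑E')^[K0] (comp W m f) := by
      conv_lhs => rw [← sum_comp W f (degs W f) (subset_refl _)]
      rw [iter_sum]
    rw [h2]
    refine Finset.dvd_sum fun m hm => ?_
    exact dvd_iter_of_dvd hE'q (hK0 m hm) (hK m)
  · rw [hE', mkDerivation_X, hcomp]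
    have h1 : e + W i0 = k0 := by omega
    rw [h1, if_neg hk0]
    exact hk0
  · intro s hs
    obtain ⟨⟨m, hm⟩, hEs⟩ := hS s hs
    rw [← hc1 s m hm]
    exact comp_mem hq ((dvd_sub_right hEs).1 (hEtf s)) _

end Pool.Agent.M45f4ba
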