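import Pool.Agent.M45f4ba.Slice
import Pool.Agent.M45f4ba.Homog

/-!
From an additive group action on a quasihomogeneous hypersurface to a principal cylinder with
quasihomogeneous complement.
-/

namespace Pool.Agent.M45f4ba

open Polynomial

set_option linter.unusedSectionVars false

variable {n : ℕ}

lemma loc_iso {C B : Type} [CommRing C] [CommRing B] [Algebra ℂ C] [Algebra ℂ B]
    (π : C →ₐ[ℂ] B) (hπ : Function.Surjective π) (h : C)
    (hker : ∀ c, π c = 0 → ∃ k, h ^ k * c = 0) :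
    Nonempty (Localization.Away h ≃ₐ[ℂ] Localization.Away (π h)) := by
  refine ⟨AlgEquiv.ofBijective (IsLocalization.Away.mapₐ (Localization.Away h)
    (Localization.Away (π h)) π h) ⟨?_, ?_⟩⟩
  · have := (Localization.awayMap_injective_iff (f := π.toRingHom) (r := h)).2 hker
    exact this
  · exact IsLocalization.Away.mapₐ_surjective_of_surjective h hπ

/-- An element killed together with all its irreducible factors. -/
lemma ker_of_factors {q : MvPolynomial (Fin n) ℂ}
    (D : Derivation ℂ (MvPolynomial (Fin n) ℂ ⧸ Ideal.span {q})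
      (MvPolynomial (Fin n) ℂ ⧸ Ideal.span {q})) :
    ∀ g : MvPolynomial (Fin n) ℂ, g ≠ 0 →
      (∀ q', Irreducible q' → q' ∣ g → D (Ideal.Quotient.mk _ q') = 0) →
      D (Ideal.Quotient.mk _ g) = 0 := by
  intro g
  induction g using WfDvdMonoid.induction_on_irreducible with
  | zero => intro h; exact absurd rfl h
  | unit u hu =>
    intro _ _
    obtain ⟨c, -, hc⟩ := MvPolynomial.isUnit_iff_eq_C_of_isReduced.1 hu
    rw [hc]
    have : Ideal.Quotient.mk (Ideal.span {q}) (MvPolynomial.C c) = algebraMap ℂ _ c := rfl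
    rw [this, Derivation.map_algebraMap]
  | mul a i ha hi ih =>
    intro hne hall
    rw [map_mul, Derivation.leibniz, hall i hi (dvd_mul_right _ _),
      ih ha (fun q' hq' hdiv => hall q' hq' (hdiv.mul_left _)), smul_zero, smul_zero, add_zero]

/-- The data attached to an additive action: an irreducible factor `q` of `p`, the cofactor `s`,
and a homogeneous derivation that is locally nilpotent modulo `q`, nonzero modulo `q`, and kills
`s` modulo `q`. -/
structure Data (W : Fin n → ℤ) (p q s : MvPolynomial (Fin n) ℂ) (k : ℕ) (kq ks e : ℤ)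
    (E : Derivation ℂ (MvPolynomial (Fin n) ℂ) (MvPolynomial (Fin n) ℂ)) : Prop where
  irr : Irreducible q
  kpos : 0 < k
  split : p = q ^ k * s
  ndvd : ¬ q ∣ s
  hq : WH W q kq
  hs : WH W s ks
  hom : ∀ f m, WH W f m → WH W (E f) (m + e)
  Eq : q ∣ E q
  nil : ∀ f, ∃ k, q ∣ (⇑E)^[k] f
  ne : ∃ i, ¬ q ∣ E (MvPolynomial.X i)
  Es : q ∣ E s

theorem exists_data {W : Fin n → ℤ} {p : MvPolynomial (Fin n) ℂ} {d : ℤ} (hp0 : p ≠ 0)
    (hp : WH W p d) (h : AdmitsAdditiveAction p) :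
    ∃ q s k kq ks e E, Data W p q s k kq ks e E := by
  obtain ⟨q, hq, hqp, D, hD0, hDnil, hDq'⟩ := reduce_forward hp0 h
  obtain ⟨k, s, hk, hps, hqs⟩ := exists_split hp0 hq hqp
  have hs0 : s ≠ 0 := by
    rintro rfl
    exact hqs (dvd_zero q)
  have hDs : D (Ideal.Quotient.mk _ s) = 0 := by
    refine ker_of_factors D s hs0 fun q' hq' hq's => hDq' q' hq' ?_ ?_
    · rw [hps]; exact hq's.mul_left _
    · intro hqq'
      exact hqs (hqq'.trans hq's)
  obtain ⟨E, hE⟩ := exists_lift _ D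
  have hqWH : ∃ kq, WH W q kq := by
    obtain ⟨c, hc⟩ := hqp
    rw [hc] at hp hp0
    exact WH_of_mul hp hp0
  have hsWH : ∃ ks, WH W s ks := by
    rw [hps, mul_comm] at hp hp0
    exact WH_of_mul hp hp0
  obtain ⟨kq, hqWH⟩ := hqWH
  obtain ⟨ks, hsWH⟩ := hsWH
  have hmk : ∀ f, Ideal.Quotient.mk (Ideal.span {q}) f = 0 ↔ q ∣ f := fun f => by
    rw [Ideal.Quotient.eq_zero_iff_mem, Ideal.mem_span_singleton]
  have hEq : q ∣ E q := by
    rw [← hmk, hE, (hmk q).2 dvd_rfl, map_zero]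
  have hnil : ∀ f, ∃ k, q ∣ (⇑E)^[k] f := by
    intro f
    obtain ⟨m, hm⟩ := hDnil (Ideal.Quotient.mk _ f)
    refine ⟨m, ?_⟩
    rw [iter_mk _ E D hE] at hm
    exact (hmk _).1 hm
  have hne : ∃ f, ¬ q ∣ E f := by
    by_contra hcon
    push Not at hcon
    apply hD0
    ext a
    obtain ⟨f, rfl⟩ := Ideal.Quotient.mk_surjective a
    rw [← hE, (hmk _).2 (hcon f)]
    rfl
  have hEs : q ∣ E s := by
    rw [← hmk, hE, hDs]
  obtain ⟨e, E', h1, h2, h3, h4, h5⟩ := homogenize hqWH E hEq hnil hne {s} (by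
    intro t ht
    rw [Set.mem_singleton_iff] at ht
    rw [ht]
    exact ⟨⟨ks, hsWH⟩, hEs⟩)
  exact ⟨q, s, k, kq, ks, e, E', ⟨hq, hk, hps, hqs, hqWH, hsWH, h1, h2, h3, h4, h5 s rfl⟩⟩

/-- The coordinate ring of the hypersurface and of one component become isomorphic after
inverting an element vanishing on the other components. -/
lemma loc_iso' {p q s h : MvPolynomial (Fin n) ℂ} {k : ℕ} (hq : Irreducible q) (hk : 0 < k)
    (hps : p = q ^ k * s) (hp0 : p ≠ 0) (hsh : s ∣ h) :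
    Nonempty (Localization.Away (Ideal.Quotient.mk _ h : CoordRing p) ≃ₐ[ℂ]
      Localization.Away (Ideal.Quotient.mk _ h : MvPolynomial (Fin n) ℂ ⧸ Ideal.span {q})) := by
  set I := (Ideal.span {p}).radical with hI
  have hqp : q ∣ p := by
    rw [hps]
    exact (dvd_pow_self q hk.ne').mul_right _
  have hle : I ≤ Ideal.span {q} := by
    intro g hg
    rw [Ideal.mem_span_singleton]
    exact (mem_radical_iff hp0 g).1 hg q hq hqp
  have hπ : Function.Surjective (Ideal.Quotient.factorₐ ℂ hle) := by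
    intro b
    obtain ⟨f, rfl⟩ := Ideal.Quotient.mk_surjective b
    exact ⟨Ideal.Quotient.mk I f, rfl⟩
  refine loc_iso (Ideal.Quotient.factorₐ ℂ hle) hπ (Ideal.Quotient.mk I h) fun c hc => ?_
  obtain ⟨f, rfl⟩ := Ideal.Quotient.mk_surjective c
  have h1 : Ideal.Quotient.mk (Ideal.span {q}) f = 0 := hc
  rw [Ideal.Quotient.eq_zero_iff_mem, Ideal.mem_span_singleton] at h1
  refine ⟨1, ?_⟩
  rw [pow_one, ← map_mul, Ideal.Quotient.eq_zero_iff_mem]
  refine ⟨k, Ideal.mem_span_singleton.2 ?_⟩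
  rw [hps, mul_comm h f, mul_pow]
  exact mul_dvd_mul (pow_dvd_pow_of_dvd h1 k) (hsh.trans (dvd_pow_self h hk.ne'))

section data

variable {W : Fin n → ℤ} {p q s : MvPolynomial (Fin n) ℂ} {k : ℕ} {kq ks e : ℤ}
  {E : Derivation ℂ (MvPolynomial (Fin n) ℂ) (MvPolynomial (Fin n) ℂ)}

lemma Data.prime (H : Data W p q s k kq ks e E) : Prime q :=
  UniqueFactorizationMonoid.irreducible_iff_prime.1 H.irr

lemma Data.iter_hom (H : Data W p q s k kq ks e E) {f : MvPolynomial (Fin n) ℂ} {m : ℤ}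
    (hf : WH W f m) (j : ℕ) : WH W ((⇑E)^[j] f) (m + j * e) := by
  induction j with
  | zero => simpa using hf
  | succ j ih =>
    rw [iter_succ]
    have := H.hom _ _ ih
    have h2 : m + ((j + 1 : ℕ) : ℤ) * e = m + j * e + e := by push_cast; ring
    rw [h2]
    exact this

/-- `f` is not divisible by `q`, some iterate is a nonzero element of the kernel. -/
lemma Data.exists_deg (H : Data W p q s k kq ks e E) {f : MvPolynomial (Fin n) ℂ}
    (hf : ¬ q ∣ f) : ∃ m, ¬ q ∣ (⇑E)^[m] f ∧ q ∣ (⇑E)^[m + 1] f := by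
  classical
  have h := H.nil f
  have h1 : q ∣ (⇑E)^[Nat.find h] f := Nat.find_spec h
  have h2 : Nat.find h ≠ 0 := by
    intro h0
    rw [h0] at h1
    exact hf h1
  refine ⟨Nat.find h - 1, Nat.find_min h (by omega), ?_⟩
  rw [Nat.sub_add_cancel (by omega)]
  exact h1

lemma Data.exists_slice (H : Data W p q s k kq ks e E) :
    ∃ r mr, WH W r mr ∧ ¬ q ∣ E r ∧ q ∣ E (E r) := by
  obtain ⟨i, hi⟩ := H.ne
  obtain ⟨m, hm, hm'⟩ := H.exists_deg hi
  refine ⟨(⇑E)^[m] (MvPolynomial.X i), W i + m * e, ?_, ?_, ?_⟩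
  · exact H.iter_hom (MvPolynomial.isWeightedHomogeneous_X ℂ W i) m
  · rw [← iter_succ, Function.iterate_succ_apply]
    exact hm
  · rw [← iter_succ, ← iter_succ, Function.iterate_succ_apply]
    exact hm'

lemma Data.mk_eq_zero {f : MvPolynomial (Fin n) ℂ} :
    Ideal.Quotient.mk (Ideal.span {q}) f = 0 ↔ q ∣ f := by
  rw [Ideal.Quotient.eq_zero_iff_mem, Ideal.mem_span_singleton]

/-- The derivation induced on the coordinate ring of the component. -/
lemma Data.exists_der (H : Data W p q s k kq ks e E) :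
    ∃ D : Derivation ℂ (MvPolynomial (Fin n) ℂ ⧸ Ideal.span {q})
      (MvPolynomial (Fin n) ℂ ⧸ Ideal.span {q}),
      (∀ f, D (Ideal.Quotient.mk _ f) = Ideal.Quotient.mk _ (E f)) ∧ IsLocNilp D := by
  obtain ⟨D, hD⟩ := exists_descend (Ideal.span {q}) E (by
    intro f hf
    rw [Ideal.mem_span_singleton] at hf ⊢
    exact dvd_map_of_dvd H.Eq hf)
  refine ⟨D, hD, fun a => ?_⟩
  obtain ⟨f, rfl⟩ := Ideal.Quotient.mk_surjective a
  obtain ⟨m, hm⟩ := H.nil f
  refine ⟨m, ?_⟩
  rw [iter_mk _ E D (fun f => (hD f).symm), Data.mk_eq_zero]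
  exact hm

/-- The main construction: `t` is an arbitrary nonzero element of the kernel. -/
theorem Data.cylinder (H : Data W p q s k kq ks e E) (hp0 : p ≠ 0)
    {r t : MvPolynomial (Fin n) ℂ} (hr : ¬ q ∣ E r) (hr' : q ∣ E (E r)) (ht : ¬ q ∣ t)
    (ht' : q ∣ E t) (D : Derivation ℂ (MvPolynomial (Fin n) ℂ ⧸ Ideal.span {q})
      (MvPolynomial (Fin n) ℂ ⧸ Ideal.span {q}))
    (hDE : ∀ f, D (Ideal.Quotient.mk _ f) = Ideal.Quotient.mk _ (E f)) (hDn : IsLocNilp D)
    (hh : D (Ideal.Quotient.mk _ (E r * s * t)) = 0) :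
    Nonempty (Localization.Away (Ideal.Quotient.mk _ (E r * s * t) : CoordRing p) ≃ₐ[ℂ]
      Polynomial (locKer D (Ideal.Quotient.mk _ (E r * s * t))
        (Localization.Away (Ideal.Quotient.mk _ (E r * s * t) :
          MvPolynomial (Fin n) ℂ ⧸ Ideal.span {q})) hh)) := by
  have : Fact (Irreducible q) := ⟨H.irr⟩
  have hprime := H.prime
  have hh0 : (Ideal.Quotient.mk (Ideal.span {q}) (E r * s * t)) ≠ 0 := by
    rw [Ne, Data.mk_eq_zero]
    intro hcon
    rcases hprime.dvd_or_dvd hcon with h1 | h1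
    · rcases hprime.dvd_or_dvd h1 with h2 | h2
      · exact hr h2
      · exact H.ndvd h2
    · exact ht h1
  obtain ⟨φ⟩ := loc_iso' (h := E r * s * t) H.irr H.kpos H.split hp0
    ((dvd_mul_left s (E r)).mul_right t)
  have hbij := slice_bijective (D := D) (h := Ideal.Quotient.mk _ (E r * s * t))
    (L := Localization.Away (Ideal.Quotient.mk _ (E r * s * t) :
          MvPolynomial (Fin n) ℂ ⧸ Ideal.span {q})) hDn hh0
    (r := Ideal.Quotient.mk _ r) (κ := Ideal.Quotient.mk _ (E r))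
    (s := Ideal.Quotient.mk _ (s * t)) (hDE r)
    (by rw [hDE, Data.mk_eq_zero]; exact hr')
    (by
      rw [hDE, Data.mk_eq_zero, Derivation.leibniz, smul_eq_mul, smul_eq_mul]
      exact dvd_add (ht'.mul_left _) (H.Es.mul_left _))
    (by rw [← map_mul, mul_assoc]) hh
  exact ⟨φ.trans ((AlgEquiv.ofBijective _ hbij).restrictScalars ℂ).symm⟩

end data

end Pool.Agent.M45f4ba
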