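import Mathlib

/-!
Definitions for the problem `MP_45f4ba_ag`: affine hypersurfaces in complex affine space, regular
actions of the multiplicative group, polynomial maps from the line, and rational curves in the
weighted projective variety attached to a quasihomogeneous hypersurface.
-/

namespace Pool.Agent.M45f4ba

open Polynomial

/-- The affine hypersurface `{p = 0}` in complex affine `n`-space. -/
def Hyp {n : ℕ} (p : MvPolynomial (Fin n) ℂ) : Set (Fin n → ℂ) :=
  {x | MvPolynomial.eval x p = 0}

/-- The Zariski closure of a set of points of complex affine `n`-space. -/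
def zclosure {n : ℕ} (S : Set (Fin n → ℂ)) : Set (Fin n → ℂ) :=
  {x | ∀ q : MvPolynomial (Fin n) ℂ, (∀ y ∈ S, MvPolynomial.eval y q = 0) →
    MvPolynomial.eval x q = 0}

/-- The point `(f_1(t), ..., f_n(t))` of affine `n`-space, for a tuple `f` of polynomials in one
variable. -/
def val {n : ℕ} (f : Fin n → ℂ[X]) (t : ℂ) : Fin n → ℂ := fun i => (f i).eval t

/-- A regular algebraic action of the multiplicative group on a closed subvariety `X` of affine
`n`-space: a group action of `ℂˣ` on the set `X` for which every coordinate of `l • x` is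
`l ^ (-N)` times a polynomial in `l` and the coordinates of `x`. -/
structure CStarAction {n : ℕ} (X : Set (Fin n → ℂ)) where
  /-- the group action -/
  action : MulAction ℂˣ X
  /-- the action map is a morphism of varieties -/
  regular : ∃ (N : ℕ) (A : Fin n → Polynomial (MvPolynomial (Fin n) ℂ)),
    ∀ (l : ℂˣ) (x : X) (i : Fin n),
      (l : ℂ) ^ N * (action.smul l x : Fin n → ℂ) i =
        ((A i).map (MvPolynomial.eval (x : Fin n → ℂ))).eval (l : ℂ)

/-- The orbit of `x` under a regular action, as a set of points of affine `n`-space. -/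
def CStarAction.orbit {n : ℕ} {X : Set (Fin n → ℂ)} (σ : CStarAction X) (x : X) :
    Set (Fin n → ℂ) :=
  Set.range fun l : ℂˣ => ((σ.action.smul l x : X) : Fin n → ℂ)

/-- The hypersurface `{p = 0}` admits a non-constant polynomial map from the complex line whose
image is not the Zariski closure of an orbit of any regular action of the multiplicative group on
the hypersurface. -/
def HasNonOrbitCurve {n : ℕ} (p : MvPolynomial (Fin n) ℂ) : Prop :=
  ∃ f : Fin n → ℂ[X], (∀ t, val f t ∈ Hyp p) ∧ (∃ s t, val f s ≠ val f t) ∧
    ∀ (σ : CStarAction (Hyp p)) (x : Hyp p), Set.range (val f) ≠ zclosure (σ.orbit x)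

/-- `x` and `y` lie in one orbit of the action `l • (x_1, ..., x_n) = (l^{w_1} x_1, ...)`. -/
def SameOrbit {n : ℕ} (w : Fin n → ℕ) (x y : Fin n → ℂ) : Prop :=
  ∃ l : ℂˣ, ∀ i, y i = (l : ℂ) ^ w i * x i

/-- The weighted projective variety `(X ∖ {0}) / ℂˣ` of `X = {p = 0}` contains a rational curve:
there is a tuple `g` of polynomials in one variable with `p(g) = 0` for which the rational map
`t ↦ [g_1(t) : ... : g_n(t)]` to weighted projective space is not constant. -/
def HasRationalCurve {n : ℕ} (w : Fin n → ℕ) (p : MvPolynomial (Fin n) ℂ) : Prop :=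
  ∃ g : Fin n → ℂ[X], (∀ t, val g t ∈ Hyp p) ∧
    ∃ s t, val g s ≠ 0 ∧ val g t ≠ 0 ∧ ¬ SameOrbit w (val g s) (val g t)

/-- The hypersurface `{p = 0}` contains a unirational surface: there is a polynomial map
`F` from the complex plane to it whose Jacobian matrix has rank two at some point, that is, some
two by two minor of the Jacobian matrix is not identically zero. -/
def HasPlaneMap {n : ℕ} (p : MvPolynomial (Fin n) ℂ) : Prop :=
  ∃ F : Fin n → MvPolynomial (Fin 2) ℂ,
    (∀ z : Fin 2 → ℂ, (fun i => MvPolynomial.eval z (F i)) ∈ Hyp p) ∧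
    ∃ (i j : Fin n) (z : Fin 2 → ℂ), MvPolynomial.eval z
      (MvPolynomial.pderiv 0 (F i) * MvPolynomial.pderiv 1 (F j) -
        MvPolynomial.pderiv 1 (F i) * MvPolynomial.pderiv 0 (F j)) ≠ 0

end Pool.Agent.M45f4ba
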