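import Pool.Agent.M45f4ba.Reduce

/-!
Weighted homogeneous components with integer weights, and the homogenization of derivations.
-/

namespace Pool.Agent.M45f4ba

open MvPolynomial

variable {n : ℕ}

/-- Homogeneous component, integer weights. -/
noncomputable abbrev comp (W : Fin n → ℤ) (m : ℤ) (f : MvPolynomial (Fin n) ℂ) :
    MvPolynomial (Fin n) ℂ := weightedHomogeneousComponent W m f

/-- Weighted homogeneous, integer weights. -/
abbrev WH (W : Fin n → ℤ) (f : MvPolynomial (Fin n) ℂ) (m : ℤ) : Prop :=
  IsWeightedHomogeneous W f m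

/-- The finite set of degrees of a polynomial. -/
noncomputable def degs (W : Fin n → ℤ) (f : MvPolynomial (Fin n) ℂ) : Finset ℤ :=
  f.support.image (fun m => Finsupp.weight W m)

lemma comp_WH (W : Fin n → ℤ) (m : ℤ) (f : MvPolynomial (Fin n) ℂ) : WH W (comp W m f) m :=
  weightedHomogeneousComponent_isWeightedHomogeneous m f

lemma comp_same {W : Fin n → ℤ} {m : ℤ} {f : MvPolynomial (Fin n) ℂ} (h : WH W f m) :
    comp W m f = f := weightedHomogeneousComponent_eq_self h

lemma comp_ne {W : Fin n → ℤ} {m k : ℤ} {f : MvPolynomial (Fin n) ℂ} (h : WH W f m)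
    (hk : k ≠ m) : comp W k f = 0 := h.weightedHomogeneousComponent_ne k hk

lemma comp_eq_zero_of_not_mem {W : Fin n → ℤ} {m : ℤ} {f : MvPolynomial (Fin n) ℂ}
    (h : m ∉ degs W f) : comp W m f = 0 := by
  refine weightedHomogeneousComponent_eq_zero' m f fun d hd hne => h ?_
  rw [degs, Finset.mem_image]
  exact ⟨d, hd, hne⟩

lemma sum_comp (W : Fin n → ℤ) (f : MvPolynomial (Fin n) ℂ) (S : Finset ℤ)
    (hS : degs W f ⊆ S) : ∑ m ∈ S, comp W m f = f := by
  classical
  ext d
  rw [coeff_sum]
  simp only [comp, coeff_weightedHomogeneousComponent]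
  by_cases hd : coeff d f = 0
  · rw [hd]; simp
  · rw [Finset.sum_eq_single (Finsupp.weight W d)]
    · rw [if_pos rfl]
    · intro b _ hb
      rw [if_neg hb.symm]
    · intro h
      exfalso
      apply h
      apply hS
      rw [degs, Finset.mem_image]
      exact ⟨d, mem_support_iff.2 hd, rfl⟩

lemma comp_mul {W : Fin n → ℤ} {k : ℤ} {g : MvPolynomial (Fin n) ℂ} (hg : WH W g k)
    (m : ℤ) (a : MvPolynomial (Fin n) ℂ) : comp W m (a * g) = comp W (m - k) a * g := by
  classical
  conv_lhs => rw [← sum_comp W a (degs W a) (subset_refl _), Finset.sum_mul]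
  unfold comp
  rw [map_sum]
  have h1 : ∀ j ∈ degs W a, weightedHomogeneousComponent W m (comp W j a * g) =
      if j = m - k then comp W j a * g else 0 := by
    intro j _
    have h2 : WH W (comp W j a * g) (j + k) := (comp_WH W j a).mul hg
    split_ifs with h
    · have : m = j + k := by omega
      rw [this]
      exact comp_same h2
    · exact comp_ne h2 (by omega)
  rw [Finset.sum_congr rfl h1, Finset.sum_ite_eq' (degs W a) (m - k)]
  split_ifs with h
  · rfl
  · have := comp_eq_zero_of_not_mem h
    unfold comp at this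
    rw [this, zero_mul]

/-- The ideal generated by a homogeneous polynomial is homogeneous. -/
lemma comp_mem {W : Fin n → ℤ} {k : ℤ} {q : MvPolynomial (Fin n) ℂ} (hq : WH W q k)
    {f : MvPolynomial (Fin n) ℂ} (hf : q ∣ f) (m : ℤ) : q ∣ comp W m f := by
  obtain ⟨c, rfl⟩ := hf
  rw [mul_comm, comp_mul hq]
  exact dvd_mul_left _ _

lemma dvd_of_comp {W : Fin n → ℤ} {q f : MvPolynomial (Fin n) ℂ}
    (h : ∀ m, q ∣ comp W m f) : q ∣ f := by
  rw [← sum_comp W f (degs W f) (subset_refl _)]
  exact Finset.dvd_sum fun m _ => h m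

/-- Factors of homogeneous polynomials are homogeneous. -/
lemma WH_of_mul {W : Fin n → ℤ} {d : ℤ} {f g : MvPolynomial (Fin n) ℂ} (h : WH W (f * g) d)
    (hne : f * g ≠ 0) : ∃ k, WH W f k := by
  classical
  have hf : f ≠ 0 := left_ne_zero_of_mul hne
  have hg : g ≠ 0 := right_ne_zero_of_mul hne
  -- the degrees with nonzero component
  have hprod : ∀ m, comp W m (f * g) = ∑ i ∈ degs W f, comp W i f * comp W (m - i) g := by
    intro m
    conv_lhs => rw [← sum_comp W f (degs W f) (subset_refl _), Finset.sum_mul]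
    unfold comp
    rw [map_sum]
    refine Finset.sum_congr rfl fun i _ => ?_
    have := comp_mul (comp_WH W i f) m g
    rw [mul_comm, mul_comm (weightedHomogeneousComponent W i f) _]
    exact this
  have exT : ∀ a : MvPolynomial (Fin n) ℂ, a ≠ 0 → ∃ M, comp W M a ≠ 0 ∧
      ∀ k, M < k → comp W k a = 0 := by
    intro a ha
    have hne : ((degs W a).filter fun k => comp W k a ≠ 0).Nonempty := by
      by_contra hcon
      rw [Finset.not_nonempty_iff_eq_empty, Finset.filter_eq_empty_iff] at hcon
      apply ha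
      rw [← sum_comp W a (degs W a) (subset_refl _)]
      refine Finset.sum_eq_zero fun k hk => ?_
      have := hcon hk
      push Not at this
      exact this
    refine ⟨_, (Finset.mem_filter.1 (Finset.max'_mem _ hne)).2, fun k hk => ?_⟩
    by_contra h0
    have hmem : k ∈ (degs W a).filter fun k => comp W k a ≠ 0 := by
      rw [Finset.mem_filter]
      refine ⟨?_, h0⟩
      by_contra h1
      exact h0 (comp_eq_zero_of_not_mem h1)
    exact absurd (Finset.le_max' _ _ hmem) (not_le.2 hk)
  have exB : ∀ a : MvPolynomial (Fin n) ℂ, a ≠ 0 → ∃ M, comp W M a ≠ 0 ∧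
      ∀ k, k < M → comp W k a = 0 := by
    intro a ha
    have hne : ((degs W a).filter fun k => comp W k a ≠ 0).Nonempty := by
      by_contra hcon
      rw [Finset.not_nonempty_iff_eq_empty, Finset.filter_eq_empty_iff] at hcon
      apply ha
      rw [← sum_comp W a (degs W a) (subset_refl _)]
      refine Finset.sum_eq_zero fun k hk => ?_
      have := hcon hk
      push Not at this
      exact this
    refine ⟨_, (Finset.mem_filter.1 (Finset.min'_mem _ hne)).2, fun k hk => ?_⟩
    by_contra h0
    have hmem : k ∈ (degs W a).filter fun k => comp W k a ≠ 0 := by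
      rw [Finset.mem_filter]
      refine ⟨?_, h0⟩
      by_contra h1
      exact h0 (comp_eq_zero_of_not_mem h1)
    exact absurd (Finset.min'_le _ _ hmem) (not_le.2 hk)
  obtain ⟨Mf, hMf, hMf'⟩ := exT f hf
  obtain ⟨Mg, hMg, hMg'⟩ := exT g hg
  obtain ⟨mf, hmf, hmf'⟩ := exB f hf
  obtain ⟨mg, hmg, hmg'⟩ := exB g hg
  have memf : ∀ k, comp W k f ≠ 0 → k ∈ degs W f := by
    intro k hk
    by_contra h1
    exact hk (comp_eq_zero_of_not_mem h1)
  have h1 : comp W (Mf + Mg) (f * g) ≠ 0 := by
    rw [hprod, Finset.sum_eq_single Mf]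
    · rw [add_sub_cancel_left]
      exact mul_ne_zero hMf hMg
    · intro i _ hi
      by_cases h2 : Mf < i
      · rw [hMf' i h2, zero_mul]
      · rw [hMg' (Mf + Mg - i) (by omega), mul_zero]
    · intro h2
      exact absurd (memf Mf hMf) h2
  have h2 : comp W (mf + mg) (f * g) ≠ 0 := by
    rw [hprod, Finset.sum_eq_single mf]
    · rw [add_sub_cancel_left]
      exact mul_ne_zero hmf hmg
    · intro i _ hi
      by_cases h2 : i < mf
      · rw [hmf' i h2, zero_mul]
      · rw [hmg' (mf + mg - i) (by omega), mul_zero]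
    · intro h2
      exact absurd (memf mf hmf) h2
  have h3 : Mf + Mg = d := by
    by_contra hne'
    exact h1 (comp_ne h hne')
  have h4 : mf + mg = d := by
    by_contra hne'
    exact h2 (comp_ne h hne')
  have h5 : mf ≤ Mf := by
    by_contra hcon
    push Not at hcon
    exact hMf (hmf' Mf hcon)
  have h6 : mg ≤ Mg := by
    by_contra hcon
    push Not at hcon
    exact hMg (hmg' Mg hcon)
  have h7 : mf = Mf := by omega
  refine ⟨Mf, ?_⟩
  have h8 : f = comp W Mf f := by
    conv_lhs => rw [← sum_comp W f (degs W f) (subset_refl _)]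
    rw [Finset.sum_eq_single Mf]
    · intro i _ hi
      by_cases h9 : Mf < i
      · exact hMf' i h9
      · exact hmf' i (by omega)
    · intro h9
      exact absurd (memf Mf hMf) h9
  rw [h8]
  exact comp_WH W Mf f

/-- The derivation with prescribed values on the variables. -/
noncomputable abbrev mkD (a : Fin n → MvPolynomial (Fin n) ℂ) :
    Derivation ℂ (MvPolynomial (Fin n) ℂ) (MvPolynomial (Fin n) ℂ) := mkDerivation ℂ a

lemma mkD_apply (a : Fin n → MvPolynomial (Fin n) ℂ) (f : MvPolynomial (Fin n) ℂ) :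
    mkD a f = ∑ i, a i * pderiv i f := by
  classical
  induction f using MvPolynomial.induction_on with
  | C c =>
    rw [derivation_C, Finset.sum_eq_zero]
    intro i _
    rw [pderiv_C, mul_zero]
  | add p q hp hq =>
    rw [map_add, hp, hq, ← Finset.sum_add_distrib]
    refine Finset.sum_congr rfl fun i _ => ?_
    rw [map_add, mul_add]
  | mul_X p j hp =>
    rw [Derivation.leibniz, hp, mkDerivation_X]
    simp only [smul_eq_mul]
    have h1 : ∀ i ∈ (Finset.univ : Finset (Fin n)), a i * pderiv i (p * X j) =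
        (if i = j then p * a j else 0) + X j * (a i * pderiv i p) := by
      intro i _
      rw [Derivation.leibniz]
      simp only [smul_eq_mul]
      split_ifs with h
      · subst h
        rw [pderiv_X_self]
        ring
      · rw [pderiv_X_of_ne (Ne.symm h)]
        ring
    rw [Finset.sum_congr rfl h1, Finset.sum_add_distrib, Finset.sum_ite_eq', Finset.mul_sum]
    simp

lemma comp_mkD {W : Fin n → ℤ} (a : Fin n → MvPolynomial (Fin n) ℂ)
    {f : MvPolynomial (Fin n) ℂ} {m : ℤ} (hf : WH W f m) (k : ℤ) :
    comp W k (mkD a f) = mkD (fun i => comp W (k - m + W i) (a i)) f := by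
  rw [mkD_apply, mkD_apply]
  unfold comp
  rw [map_sum]
  refine Finset.sum_congr rfl fun i _ => ?_
  have h1 : WH W (pderiv i f) (m - W i) := hf.pderiv (by ring)
  have h2 := comp_mul h1 k (a i)
  have h3 : k - (m - W i) = k - m + W i := by ring
  rw [h3] at h2
  exact h2

end Pool.Agent.M45f4ba
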