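import Mathlib

/-!
Basic facts on locally nilpotent derivations of domains of characteristic zero.
-/

namespace Pool.Agent.M45f4ba

/-- A derivation `D` is locally nilpotent if every element is killed by some iterate of `D`. -/
def IsLocNilp {A : Type*} [CommRing A] [Algebra ℂ A] (D : Derivation ℂ A A) : Prop :=
  ∀ a : A, ∃ k : ℕ, (⇑D)^[k] a = 0

section general

variable {A : Type*} [CommRing A] [Algebra ℂ A] (D : Derivation ℂ A A)

lemma iter_succ (k : ℕ) (a : A) : (⇑D)^[k + 1] a = D ((⇑D)^[k] a) :=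
  Function.iterate_succ_apply' _ _ _

lemma iter_zero_of_le {k m : ℕ} (hkm : k ≤ m) {a : A} (h : (⇑D)^[k] a = 0) : (⇑D)^[m] a = 0 := by
  obtain ⟨r, rfl⟩ := Nat.exists_eq_add_of_le hkm
  induction r with
  | zero => exact h
  | succ r ih =>
    rw [← Nat.add_assoc, iter_succ, ih (by omega), map_zero]

lemma iter_add (k : ℕ) (a b : A) : (⇑D)^[k] (a + b) = (⇑D)^[k] a + (⇑D)^[k] b := by
  induction k with
  | zero => rfl
  | succ k ih => rw [iter_succ, iter_succ, iter_succ, ih, map_add]

lemma iter_zero (k : ℕ) : (⇑D)^[k] (0 : A) = 0 := by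
  induction k with
  | zero => rfl
  | succ k ih => rw [iter_succ, ih, map_zero]

lemma iter_sum {ι : Type*} (s : Finset ι) (f : ι → A) (k : ℕ) :
    (⇑D)^[k] (∑ i ∈ s, f i) = ∑ i ∈ s, (⇑D)^[k] (f i) := by
  classical
  induction s using Finset.induction with
  | empty => simp [iter_zero]
  | insert a s ha ih => rw [Finset.sum_insert ha, Finset.sum_insert ha, iter_add, ih]

/-- Leibniz formula for iterates. -/
lemma iter_mul (k : ℕ) (a b : A) : (⇑D)^[k] (a * b) =
    ∑ ij ∈ Finset.HasAntidiagonal.antidiagonal k, (Nat.choose k ij.1 : A) * ((⇑D)^[ij.1] a * (⇑D)^[ij.2] b) := by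
  induction k with
  | zero => simp
  | succ k ih =>
    rw [iter_succ, ih, map_sum]
    have h1 : ∀ ij ∈ Finset.HasAntidiagonal.antidiagonal k,
        D ((Nat.choose k ij.1 : A) * ((⇑D)^[ij.1] a * (⇑D)^[ij.2] b)) =
        (Nat.choose k ij.1 : A) * ((⇑D)^[ij.1 + 1] a * (⇑D)^[ij.2] b) +
        (Nat.choose k ij.1 : A) * ((⇑D)^[ij.1] a * (⇑D)^[ij.2 + 1] b) := by
      intro ij _
      rw [Derivation.leibniz, Derivation.map_natCast, Derivation.leibniz, iter_succ, iter_succ]
      simp only [smul_eq_mul]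
      ring
    rw [Finset.sum_congr rfl h1, Finset.sum_add_distrib,
      Finset.Nat.sum_antidiagonal_eq_sum_range_succ
        (fun i j => (Nat.choose k i : A) * ((⇑D)^[i + 1] a * (⇑D)^[j] b)),
      Finset.Nat.sum_antidiagonal_eq_sum_range_succ
        (fun i j => (Nat.choose k i : A) * ((⇑D)^[i] a * (⇑D)^[j + 1] b)),
      Finset.Nat.sum_antidiagonal_eq_sum_range_succ
        (fun i j => (Nat.choose (k + 1) i : A) * ((⇑D)^[i] a * (⇑D)^[j] b))]
    rw [Finset.sum_range_succ' (fun i => (Nat.choose (k + 1) i : A) *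
      ((⇑D)^[i] a * (⇑D)^[k + 1 - i] b))]
    rw [Finset.sum_range_succ' (fun i => (Nat.choose k i : A) *
      ((⇑D)^[i] a * (⇑D)^[k - i + 1] b))]
    have h2 : ∀ i ∈ Finset.range (k + 1), (Nat.choose (k + 1) (i + 1) : A) *
        ((⇑D)^[i + 1] a * (⇑D)^[k + 1 - (i + 1)] b) =
        (Nat.choose k i : A) * ((⇑D)^[i + 1] a * (⇑D)^[k - i] b) +
        (Nat.choose k (i + 1) : A) * ((⇑D)^[i + 1] a * (⇑D)^[k - i] b) := by
      intro i hi
      rw [Nat.choose_succ_succ, Nat.add_sub_add_right]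
      push_cast
      ring
    rw [Finset.sum_congr rfl h2, Finset.sum_add_distrib]
    have h3 : ∑ i ∈ Finset.range (k + 1),
        (Nat.choose k (i + 1) : A) * ((⇑D)^[i + 1] a * (⇑D)^[k - i] b) =
        ∑ i ∈ Finset.range k,
        (Nat.choose k (i + 1) : A) * ((⇑D)^[i + 1] a * (⇑D)^[k - (i + 1) + 1] b) := by
      rw [Finset.sum_range_succ, Nat.choose_succ_self]
      simp only [Nat.cast_zero, zero_mul, add_zero]
      refine Finset.sum_congr rfl fun i hi => ?_
      have : k - (i + 1) + 1 = k - i := by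
        have := Finset.mem_range.1 hi
        omega
      rw [this]
    rw [h3]
    simp only [Nat.choose_zero_right, Nat.sub_zero]
    ring

end general

section domain

variable {A : Type*} [CommRing A] [Algebra ℂ A] [IsDomain A] (D : Derivation ℂ A A)

/-- Every nonzero element has a degree with respect to a locally nilpotent derivation. -/
lemma exists_deg (hD : IsLocNilp D) {a : A} (ha : a ≠ 0) :
    ∃ m : ℕ, (⇑D)^[m] a ≠ 0 ∧ (⇑D)^[m + 1] a = 0 := by
  classical
  have h := hD a
  set k := Nat.find h with hk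
  have h1 : (⇑D)^[k] a = 0 := Nat.find_spec h
  have h2 : k ≠ 0 := by
    intro h0
    rw [h0] at h1
    exact ha h1
  obtain ⟨m, hm⟩ := Nat.exists_eq_succ_of_ne_zero h2
  refine ⟨m, ?_, ?_⟩
  · exact Nat.find_min h (by rw [← hk, hm]; exact Nat.lt_succ_self m)
  · rw [← Nat.succ_eq_add_one, ← hm]; exact h1

lemma natCast_ne_zero_of_pos {n : ℕ} (hn : n ≠ 0) : (n : A) ≠ 0 := by
  have : CharZero A := charZero_of_injective_algebraMap (algebraMap ℂ A).injective
  exact_mod_cast hn

/-- Degrees add up. -/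
lemma deg_mul {a b : A} {m l : ℕ} (ha : (⇑D)^[m] a ≠ 0) (ha' : (⇑D)^[m + 1] a = 0)
    (hb : (⇑D)^[l] b ≠ 0) (hb' : (⇑D)^[l + 1] b = 0) :
    (⇑D)^[m + l] (a * b) ≠ 0 ∧ (⇑D)^[m + l + 1] (a * b) = 0 := by
  constructor
  · rw [iter_mul, Finset.sum_eq_single (m, l)]
    · refine mul_ne_zero ?_ (mul_ne_zero ha hb)
      exact natCast_ne_zero_of_pos (Nat.choose_pos (Nat.le_add_right m l)).ne'
    · rintro ⟨i, j⟩ hij hne
      rw [Finset.HasAntidiagonal.mem_antidiagonal] at hij
      simp only at hij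
      by_cases hi : m < i
      · rw [iter_zero_of_le D (Nat.succ_le_of_lt hi) ha', zero_mul, mul_zero]
      · have hj : l + 1 ≤ j := by
          have : i ≠ m := by
            rintro rfl
            exact hne (by rw [show j = l by omega])
          omega
        rw [iter_zero_of_le D hj hb', mul_zero, mul_zero]
    · intro h
      exact absurd (Finset.HasAntidiagonal.mem_antidiagonal.2
        (rfl : (m, l).1 + (m, l).2 = m + l)) h
  · rw [iter_mul]
    refine Finset.sum_eq_zero ?_
    rintro ⟨i, j⟩ hij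
    rw [Finset.HasAntidiagonal.mem_antidiagonal] at hij
    simp only at hij
    by_cases hi : m < i
    · rw [iter_zero_of_le D (Nat.succ_le_of_lt hi) ha', zero_mul, mul_zero]
    · rw [iter_zero_of_le D (show l + 1 ≤ j by omega) hb', mul_zero, mul_zero]

/-- If `a` divides `D a` then `D a = 0`. -/
lemma map_eq_zero_of_dvd (hD : IsLocNilp D) {a c : A} (h : D a = c * a) : D a = 0 := by
  by_contra hne
  have ha : a ≠ 0 := by
    rintro rfl
    exact hne (by simp)
  have hc : c ≠ 0 := by
    rintro rfl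
    exact hne (by rw [h, zero_mul])
  obtain ⟨m, hm, hm'⟩ := exists_deg D hD ha
  obtain ⟨l, hl, hl'⟩ := exists_deg D hD hc
  obtain ⟨h1, -⟩ := deg_mul D hl hl' hm hm'
  apply h1
  rw [← h]
  have h2 : (⇑D)^[l + m] (D a) = (⇑D)^[l + m + 1] a := by
    rw [Function.iterate_succ_apply]
  rw [h2]
  exact iter_zero_of_le D (by omega) hm'

/-- The kernel is factorially closed. -/
lemma factor_closed (hD : IsLocNilp D) {a b : A} (h : D (a * b) = 0) (hab : a * b ≠ 0) :
    D a = 0 := by
  have ha : a ≠ 0 := left_ne_zero_of_mul hab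
  have hb : b ≠ 0 := right_ne_zero_of_mul hab
  obtain ⟨m, hm, hm'⟩ := exists_deg D hD ha
  obtain ⟨l, hl, hl'⟩ := exists_deg D hD hb
  obtain ⟨h1, -⟩ := deg_mul D hm hm' hl hl'
  have h2 : m + l = 0 := by
    by_contra hne
    apply h1
    exact iter_zero_of_le D (show 1 ≤ m + l by omega) (by simpa using h)
  have h3 : m = 0 := by omega
  rw [h3] at hm'
  simpa using hm'

end domain

end Pool.Agent.M45f4ba
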