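import Pool.Agent.M45f4ba.SurfC
import Pool.Agent.M45f4ba.Conv

/-!
The criterion for additive group actions on quasihomogeneous hypersurfaces.
-/

namespace Pool.Agent.M45f4ba

open MvPolynomial

lemma weight_cast {n : ℕ} (w : Fin n → ℕ) (c : Fin n →₀ ℕ) :
    Finsupp.weight (fun i => (w i : ℤ)) c = ((Finsupp.weight w c : ℕ) : ℤ) := by
  simp [Finsupp.weight_apply, Finsupp.sum]

lemma WH_of_nat {n : ℕ} {w : Fin n → ℕ} {p : MvPolynomial (Fin n) ℂ} {d : ℕ}
    (hp : IsWeightedHomogeneous w p d) : WH (fun i => (w i : ℤ)) p d := by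
  intro c hc
  rw [weight_cast, hp hc]

lemma nat_of_WH {n : ℕ} {w : Fin n → ℕ} {p : MvPolynomial (Fin n) ℂ} {d : ℤ}
    (hp : WH (fun i => (w i : ℤ)) p d) : IsWeightedHomogeneous w p d.toNat := by
  intro c hc
  have h1 := hp hc
  rw [weight_cast] at h1
  omega

/-- Every number of variables: an additive action exists if and only if the complement of some
quasihomogeneous hypersurface section is a cylinder. -/
theorem action_iff_cylinder {n : ℕ} {w : Fin n → ℕ} {p : MvPolynomial (Fin n) ℂ} {d : ℕ}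
    (hp0 : p ≠ 0) (hp : IsWeightedHomogeneous w p d) :
    AdmitsAdditiveAction p ↔ ∃ (h : MvPolynomial (Fin n) ℂ) (m : ℕ),
      IsWeightedHomogeneous w h m ∧ ∃ (A : Type) (_ : CommRing A) (_ : Algebra ℂ A),
        Nontrivial A ∧ Nonempty (Localization.Away (Ideal.Quotient.mk _ h : CoordRing p)
          ≃ₐ[ℂ] Polynomial A) := by
  constructor
  · intro h
    obtain ⟨q, s, k, kq, ks, e, E, H⟩ := exists_data hp0 (WH_of_nat hp) h
    have hfact : Fact (Irreducible q) := ⟨H.irr⟩
    obtain ⟨D, hDE, hDn⟩ := H.exists_der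
    obtain ⟨r, mr, hr, hr1, hr2⟩ := H.exists_slice
    have hh : D (Ideal.Quotient.mk _ (E r * s * 1)) = 0 := by
      rw [mul_one, hDE, Data.mk_eq_zero, Derivation.leibniz, smul_eq_mul, smul_eq_mul]
      exact dvd_add (H.Es.mul_left _) (hr2.mul_left _)
    have h1 : ¬ q ∣ (1 : MvPolynomial (Fin n) ℂ) := fun h =>
      H.irr.not_isUnit (isUnit_of_dvd_one h)
    obtain ⟨φ⟩ := H.cylinder hp0 hr1 hr2 h1
      (by rw [Derivation.map_one_eq_zero]; exact dvd_zero _) D hDE hDn hh
    refine ⟨E r * s * 1, (mr + e + ks + 0).toNat, nat_of_WH ?_, _, inferInstance, inferInstance,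
      ?_, ⟨φ⟩⟩
    · exact ((H.hom r mr hr).mul H.hs).mul (isWeightedHomogeneous_one ℂ _)
    · have : Nontrivial (Localization.Away (Ideal.Quotient.mk (Ideal.span {q})
          (E r * s * 1))) := by
        have hinj : Function.Injective (algebraMap (MvPolynomial (Fin n) ℂ ⧸ Ideal.span {q})
            (Localization.Away (Ideal.Quotient.mk (Ideal.span {q}) (E r * s * 1)))) := by
          refine injective_away (h := Ideal.Quotient.mk (Ideal.span {q}) (E r * s * 1)) ?_
          rw [Ne, Data.mk_eq_zero, mul_one]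
          intro hcon
          exact (H.prime.dvd_or_dvd hcon).elim hr1 H.ndvd
        exact hinj.nontrivial
      infer_instance
  · rintro ⟨h, m, -, A, _, _, hA, ⟨φ⟩⟩
    exact action_of_cylinder φ

/-- Surfaces: an additive action exists if and only if the complement of some quasihomogeneous
hypersurface section is isomorphic to the product of the punctured line and the line. -/
theorem action_iff_surface {w : Fin 3 → ℕ} (hw : ∀ i, 0 < w i) {p : MvPolynomial (Fin 3) ℂ}
    {d : ℕ} (hp0 : p ≠ 0) (hp : IsWeightedHomogeneous w p d) :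
    AdmitsAdditiveAction p ↔ ∃ (h : MvPolynomial (Fin 3) ℂ) (m : ℕ),
      IsWeightedHomogeneous w h m ∧
        Nonempty (Localization.Away (Ideal.Quotient.mk _ h : CoordRing p)
          ≃ₐ[ℂ] Polynomial (LaurentPolynomial ℂ)) := by
  constructor
  · intro h
    obtain ⟨q, s, k, kq, ks, e, E, H⟩ := exists_data hp0 (WH_of_nat hp) h
    have hW : ∀ i : Fin 3, 0 < ((w i : ℕ) : ℤ) := fun i => by exact_mod_cast hw i
    obtain ⟨D, hDE, hDn⟩ := H.exists_der
    obtain ⟨r, mr, hr, hr1, hr2⟩ := H.exists_slice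
    obtain ⟨a, f1, m1, f2, m2, ha0, h1, h2, ha, hgen⟩ := exists_gen hW H
    have hg : HK _ q E (E r * s) (mr + e + ks) :=
      HK.mul H ⟨H.hom r mr hr, hr1, hr2⟩ ⟨H.hs, H.ndvd, H.Es⟩
    have ht := HK.mul H h1 h2
    have hh' := HK.mul H hg ht
    have hh : D (Ideal.Quotient.mk _ (E r * s * (f1 * f2))) = 0 := by
      rw [hDE, Data.mk_eq_zero]
      exact hh'.ker
    obtain ⟨φ⟩ := H.cylinder hp0 hr1 hr2 ht.nd ht.ker D hDE hDn hh
    obtain ⟨χ⟩ := locKer_laurent hW H h1 h2 hg rfl ha ha0 hgen D hDE hh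
    exact ⟨E r * s * (f1 * f2), _, nat_of_WH hh'.wh, ⟨φ.trans (Polynomial.mapAlgEquiv χ.symm)⟩⟩
  · rintro ⟨h, m, -, ⟨φ⟩⟩
    exact action_of_cylinder φ

end Pool.Agent.M45f4ba
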