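import Pool.Agent.M45f4ba.LND

/-!
Reduction of the question of additive group actions on a hypersurface to its irreducible
components.
-/

namespace Pool.Agent.M45f4ba

/-- The coordinate ring of the (reduced) hypersurface `{p = 0}`. -/
abbrev CoordRing {n : ℕ} (p : MvPolynomial (Fin n) ℂ) : Type :=
  MvPolynomial (Fin n) ℂ ⧸ (Ideal.span {p}).radical

/-- The hypersurface `{p = 0}` admits a non-trivial regular action of the additive group: its
coordinate ring has a nonzero locally nilpotent derivation. -/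
def AdmitsAdditiveAction {n : ℕ} (p : MvPolynomial (Fin n) ℂ) : Prop :=
  ∃ D : Derivation ℂ (CoordRing p) (CoordRing p), D ≠ 0 ∧ IsLocNilp D

variable {n : ℕ}

/-- Derivations of quotients of polynomial rings lift to the polynomial ring. -/
lemma exists_lift (I : Ideal (MvPolynomial (Fin n) ℂ))
    (D : Derivation ℂ (MvPolynomial (Fin n) ℂ ⧸ I) (MvPolynomial (Fin n) ℂ ⧸ I)) :
    ∃ E : Derivation ℂ (MvPolynomial (Fin n) ℂ) (MvPolynomial (Fin n) ℂ),
      ∀ f, Ideal.Quotient.mk I (E f) = D (Ideal.Quotient.mk I f) := by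
  have hs : ∀ i, ∃ g, Ideal.Quotient.mk I g = D (Ideal.Quotient.mk I (MvPolynomial.X i)) :=
    fun i => Ideal.Quotient.mk_surjective _
  choose g hg using hs
  refine ⟨MvPolynomial.mkDerivation ℂ g, fun f => ?_⟩
  induction f using MvPolynomial.induction_on with
  | C a =>
    rw [MvPolynomial.derivation_C, map_zero]
    have : Ideal.Quotient.mk I (MvPolynomial.C a) = algebraMap ℂ _ a := rfl
    rw [this, Derivation.map_algebraMap]
  | add p q hp hq => rw [map_add, map_add, map_add, map_add, hp, hq]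
  | mul_X p i hp =>
    rw [Derivation.leibniz, map_add, smul_eq_mul, smul_eq_mul, map_mul, map_mul, hp,
      MvPolynomial.mkDerivation_X, hg i, map_mul, Derivation.leibniz, smul_eq_mul, smul_eq_mul]

/-- A derivation of the polynomial ring preserving an ideal descends to the quotient. -/
lemma exists_descend (I : Ideal (MvPolynomial (Fin n) ℂ))
    (E : Derivation ℂ (MvPolynomial (Fin n) ℂ) (MvPolynomial (Fin n) ℂ))
    (hE : ∀ f ∈ I, E f ∈ I) :
    ∃ D : Derivation ℂ (MvPolynomial (Fin n) ℂ ⧸ I) (MvPolynomial (Fin n) ℂ ⧸ I),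
      ∀ f, D (Ideal.Quotient.mk I f) = Ideal.Quotient.mk I (E f) := by
  have hd : ∀ x, Ideal.Quotient.mkₐ ℂ I x = 0 → Ideal.Quotient.mkₐ ℂ I (E x) = 0 := by
    intro x hx
    have h1 : x ∈ I := Ideal.Quotient.eq_zero_iff_mem.1 hx
    exact Ideal.Quotient.eq_zero_iff_mem.2 (hE x h1)
  refine ⟨Derivation.liftOfSurjective (Ideal.Quotient.mkₐ_surjective ℂ I) hd, fun f => ?_⟩
  exact Derivation.liftOfSurjective_apply (Ideal.Quotient.mkₐ_surjective ℂ I) hd f

lemma iter_mk (I : Ideal (MvPolynomial (Fin n) ℂ))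
    (E : Derivation ℂ (MvPolynomial (Fin n) ℂ) (MvPolynomial (Fin n) ℂ))
    (D : Derivation ℂ (MvPolynomial (Fin n) ℂ ⧸ I) (MvPolynomial (Fin n) ℂ ⧸ I))
    (h : ∀ f, Ideal.Quotient.mk I (E f) = D (Ideal.Quotient.mk I f)) (k : ℕ)
    (f : MvPolynomial (Fin n) ℂ) :
    (⇑D)^[k] (Ideal.Quotient.mk I f) = Ideal.Quotient.mk I ((⇑E)^[k] f) := by
  induction k with
  | zero => rfl
  | succ k ih => rw [iter_succ, iter_succ, ih, h]

lemma mem_radical_iff {p : MvPolynomial (Fin n) ℂ} (hp : p ≠ 0) (f : MvPolynomial (Fin n) ℂ) :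
    f ∈ (Ideal.span {p}).radical ↔ ∀ q, Irreducible q → q ∣ p → q ∣ f := by
  constructor
  · rintro ⟨k, hk⟩ q hq hqp
    rw [Ideal.mem_span_singleton] at hk
    exact (UniqueFactorizationMonoid.irreducible_iff_prime.1 hq).dvd_of_dvd_pow (hqp.trans hk)
  · intro h
    by_cases hf : f = 0
    · rw [hf]; exact zero_mem _
    obtain ⟨k, hk⟩ : ∃ k, p ∣ f ^ k := by
      classical
      let _ : StrongNormalizationMonoid (MvPolynomial (Fin n) ℂ) :=
        UniqueFactorizationMonoid.strongNormalizationMonoid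
      have hrad : UniqueFactorizationMonoid.radical p ∣ f := by
        rw [UniqueFactorizationMonoid.radical_dvd_iff_primeFactors_subset hf]
        intro q hq
        rw [UniqueFactorizationMonoid.mem_primeFactors] at hq ⊢
        rw [UniqueFactorizationMonoid.mem_normalizedFactors_iff' hp] at hq
        rw [UniqueFactorizationMonoid.mem_normalizedFactors_iff' hf]
        exact ⟨hq.1, hq.2.1, h q hq.1 hq.2.2⟩
      exact (UniqueFactorizationMonoid.exists_dvd_pow_iff_radical_dvd hp).2 hrad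
    exact ⟨k, Ideal.mem_span_singleton.2 hk⟩

lemma exists_split {p q : MvPolynomial (Fin n) ℂ} (hp : p ≠ 0) (hq : Irreducible q) (hqp : q ∣ p) :
    ∃ (k : ℕ) (s : MvPolynomial (Fin n) ℂ), 0 < k ∧ p = q ^ k * s ∧ ¬ q ∣ s := by
  classical
  have hfin : FiniteMultiplicity q p := FiniteMultiplicity.of_not_isUnit hq.not_isUnit hp
  obtain ⟨s, hs, hns⟩ := hfin.exists_eq_pow_mul_and_not_dvd
  refine ⟨multiplicity q p, s, ?_, hs, hns⟩
  by_contra h0
  have : multiplicity q p = 0 := by omega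
  rw [this, pow_zero, one_mul] at hs
  exact hns (hs ▸ hqp)

instance quot_isDomain {q : MvPolynomial (Fin n) ℂ} [Fact (Irreducible q)] :
    IsDomain (MvPolynomial (Fin n) ℂ ⧸ Ideal.span {q}) := by
  have hq := Fact.out (p := Irreducible q)
  rw [Ideal.Quotient.isDomain_iff_prime, Ideal.span_singleton_prime hq.ne_zero]
  exact UniqueFactorizationMonoid.irreducible_iff_prime.1 hq

/-- From a reducible hypersurface to one of its irreducible components. -/
lemma reduce_forward {p : MvPolynomial (Fin n) ℂ} (hp : p ≠ 0) (h : AdmitsAdditiveAction p) :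
    ∃ q, Irreducible q ∧ q ∣ p ∧
      ∃ D : Derivation ℂ (MvPolynomial (Fin n) ℂ ⧸ Ideal.span {q})
        (MvPolynomial (Fin n) ℂ ⧸ Ideal.span {q}), D ≠ 0 ∧ IsLocNilp D ∧
        ∀ q', Irreducible q' → q' ∣ p → ¬ q ∣ q' → D (Ideal.Quotient.mk _ q') = 0 := by
  obtain ⟨D, hD0, hD⟩ := h
  obtain ⟨E, hE⟩ := exists_lift _ D
  set I := (Ideal.span {p}).radical with hI
  -- `E` preserves each irreducible component
  have hpres : ∀ q, Irreducible q → q ∣ p → q ∣ E q := by
    intro q hq hqp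
    have hprime := UniqueFactorizationMonoid.irreducible_iff_prime.1 hq
    obtain ⟨k, s, hk, hps, hqs⟩ := exists_split hp hq hqp
    have h1 : q * s ∈ I := by
      refine ⟨k, Ideal.mem_span_singleton.2 ?_⟩
      rw [hps, mul_pow]
      exact mul_dvd_mul_left _ (dvd_pow_self s hk.ne')
    have h2 : Ideal.Quotient.mk I (E (q * s)) = 0 := by
      rw [hE, Ideal.Quotient.eq_zero_iff_mem.2 h1, map_zero]
    have h3 := (mem_radical_iff hp _).1 (Ideal.Quotient.eq_zero_iff_mem.1 h2) q hq hqp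
    rw [Derivation.leibniz, smul_eq_mul, smul_eq_mul] at h3
    have h4 : q ∣ s * E q := (dvd_add_right (Dvd.intro _ rfl)).1 h3
    exact (hprime.dvd_or_dvd h4).resolve_left hqs
  obtain ⟨f, hf⟩ : ∃ f, D (Ideal.Quotient.mk I f) ≠ 0 := by
    by_contra hcon
    push Not at hcon
    apply hD0
    ext a
    obtain ⟨f, rfl⟩ := Ideal.Quotient.mk_surjective a
    rw [hcon f]
    rfl
  rw [← hE, Ne, Ideal.Quotient.eq_zero_iff_mem, mem_radical_iff hp] at hf
  push Not at hf
  obtain ⟨q, hq, hqp, hqf⟩ := hf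
  have hpresI : ∀ g ∈ Ideal.span {q}, E g ∈ Ideal.span {q} := by
    intro g hg
    rw [Ideal.mem_span_singleton] at hg ⊢
    obtain ⟨c, rfl⟩ := hg
    rw [Derivation.leibniz, smul_eq_mul, smul_eq_mul]
    exact dvd_add (Dvd.intro _ rfl) ((hpres q hq hqp).mul_left _)
  obtain ⟨Dq, hDq⟩ := exists_descend _ E hpresI
  have : Fact (Irreducible q) := ⟨hq⟩
  have hle : I ≤ Ideal.span {q} := by
    intro g hg
    rw [Ideal.mem_span_singleton]
    exact (mem_radical_iff hp g).1 hg q hq hqp
  have hDqnil : IsLocNilp Dq := by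
    intro a
    obtain ⟨g, rfl⟩ := Ideal.Quotient.mk_surjective a
    obtain ⟨k, hk⟩ := hD (Ideal.Quotient.mk I g)
    refine ⟨k, ?_⟩
    rw [iter_mk I E D hE, Ideal.Quotient.eq_zero_iff_mem] at hk
    rw [iter_mk _ E Dq (fun f => (hDq f).symm), Ideal.Quotient.eq_zero_iff_mem]
    exact hle hk
  refine ⟨q, hq, hqp, Dq, ?_, hDqnil, ?_⟩
  · intro h0
    apply hqf
    have := hDq f
    rw [h0] at this
    rw [← Ideal.mem_span_singleton, ← Ideal.Quotient.eq_zero_iff_mem, ← this]
    rfl
  · intro q' hq' hq'p hqq'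
    obtain ⟨c, hc⟩ := hpres q' hq' hq'p
    refine map_eq_zero_of_dvd Dq hDqnil (c := Ideal.Quotient.mk _ c) ?_
    rw [hDq, hc, map_mul, mul_comm]

/-- From an irreducible component to the reducible hypersurface. -/
lemma reduce_backward {p : MvPolynomial (Fin n) ℂ} (hp : p ≠ 0)
    (h : ∃ q, Irreducible q ∧ q ∣ p ∧
      ∃ D : Derivation ℂ (MvPolynomial (Fin n) ℂ ⧸ Ideal.span {q})
        (MvPolynomial (Fin n) ℂ ⧸ Ideal.span {q}), D ≠ 0 ∧ IsLocNilp D ∧
        ∀ q', Irreducible q' → q' ∣ p → ¬ q ∣ q' → D (Ideal.Quotient.mk _ q') = 0) :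
    AdmitsAdditiveAction p := by
  obtain ⟨q, hq, hqp, Dq, hDq0, hDqnil, hker⟩ := h
  have : Fact (Irreducible q) := ⟨hq⟩
  have hprime := UniqueFactorizationMonoid.irreducible_iff_prime.1 hq
  obtain ⟨k, s, hk, hps, hqs⟩ := exists_split hp hq hqp
  have hs0 : s ≠ 0 := by
    rintro rfl
    exact hqs (dvd_zero q)
  -- `s` lies in the kernel
  have hs : Dq (Ideal.Quotient.mk _ s) = 0 := by
    have key : ∀ g : MvPolynomial (Fin n) ℂ, g ≠ 0 →
        (∀ q', Irreducible q' → q' ∣ g → Dq (Ideal.Quotient.mk _ q') = 0) →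
        Dq (Ideal.Quotient.mk _ g) = 0 := by
      intro g
      induction g using WfDvdMonoid.induction_on_irreducible with
      | zero => intro h; exact absurd rfl h
      | unit u hu =>
        intro _ _
        obtain ⟨c, -, hc⟩ := MvPolynomial.isUnit_iff_eq_C_of_isReduced.1 hu
        rw [hc]
        have : Ideal.Quotient.mk (Ideal.span {q}) (MvPolynomial.C c) = algebraMap ℂ _ c := rfl
        rw [this, Derivation.map_algebraMap]
      | mul a i ha hi ih =>
        intro hne hall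
        rw [map_mul, Derivation.leibniz, hall i hi (dvd_mul_right _ _),
          ih ha (fun q' hq' hdiv => hall q' hq' (hdiv.mul_left _)), smul_zero, smul_zero, add_zero]
    refine key s hs0 fun q' hq' hq's => hker q' hq' ?_ ?_
    · rw [hps]; exact hq's.mul_left _
    · intro hqq'
      exact hqs (hqq'.trans hq's)
  obtain ⟨E, hE⟩ := exists_lift _ Dq
  set I := (Ideal.span {p}).radical with hI
  set E' : Derivation ℂ (MvPolynomial (Fin n) ℂ) (MvPolynomial (Fin n) ℂ) := s • E with hE'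
  have hE'apply : ∀ f, E' f = s * E f := fun f => rfl
  have hEq : ∀ g, q ∣ g → q ∣ E g := by
    intro g hg
    rw [← Ideal.mem_span_singleton, ← Ideal.Quotient.eq_zero_iff_mem] at hg ⊢
    rw [hE, hg, map_zero]
  have hmem : ∀ g, q ∣ g → s ∣ g → g ∈ I := by
    intro g hg1 hg2
    rw [mem_radical_iff hp]
    intro q' hq' hq'p
    have hp' := UniqueFactorizationMonoid.irreducible_iff_prime.1 hq'
    rw [hps] at hq'p
    rcases hp'.dvd_or_dvd hq'p with h1 | h1
    · exact (hp'.dvd_of_dvd_pow h1).trans hg1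
    · exact h1.trans hg2
  have hpresI : ∀ g ∈ I, E' g ∈ I := by
    intro g hg
    rw [hE'apply]
    refine hmem _ ?_ (Dvd.intro _ rfl)
    exact (hEq g ((mem_radical_iff hp g).1 hg q hq hqp)).mul_left _
  obtain ⟨D, hD⟩ := exists_descend I E' hpresI
  refine ⟨D, ?_, ?_⟩
  · intro h0
    apply hDq0
    ext a
    obtain ⟨f, rfl⟩ := Ideal.Quotient.mk_surjective a
    have h1 : Ideal.Quotient.mk I (E' f) = 0 := by
      rw [← hD f, h0]; rfl
    rw [Ideal.Quotient.eq_zero_iff_mem, mem_radical_iff hp, hE'apply] at h1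
    have h2 := (hprime.dvd_or_dvd (h1 q hq hqp)).resolve_left hqs
    rw [← Ideal.mem_span_singleton, ← Ideal.Quotient.eq_zero_iff_mem, hE] at h2
    rw [h2]
    rfl
  · intro a
    obtain ⟨f, rfl⟩ := Ideal.Quotient.mk_surjective a
    obtain ⟨m, hm⟩ := hDqnil (Ideal.Quotient.mk _ f)
    refine ⟨m + 1, ?_⟩
    rw [iter_mk I E' D (fun f => (hD f).symm), Ideal.Quotient.eq_zero_iff_mem, iter_succ,
      hE'apply]
    refine hmem _ ?_ (Dvd.intro _ rfl)
    -- modulo `q` the iterates are `s ^ m` times the iterates of `Dq`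
    have hiter : ∀ j, Ideal.Quotient.mk (Ideal.span {q}) ((⇑E')^[j] f) =
        Ideal.Quotient.mk (Ideal.span {q}) (s ^ j) *
          (⇑Dq)^[j] (Ideal.Quotient.mk (Ideal.span {q}) f) := by
      intro j
      induction j with
      | zero => simp
      | succ j ih =>
        rw [iter_succ, hE'apply, map_mul, hE, ih, iter_succ, Derivation.leibniz, map_pow,
          Derivation.leibniz_pow, hs, smul_zero, smul_zero, smul_zero, add_zero, smul_eq_mul,
          map_pow, pow_succ]
        ring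
    refine (hEq _ ?_).mul_left _
    rw [← Ideal.mem_span_singleton, ← Ideal.Quotient.eq_zero_iff_mem, hiter m, hm, mul_zero]

end Pool.Agent.M45f4ba
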