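import Pool.Agent.M45f4ba.LND

/-!
The slice theorem after localization: a domain with a locally nilpotent derivation becomes a
polynomial ring in one variable after inverting a suitable element of the kernel.
-/

namespace Pool.Agent.M45f4ba

open Polynomial

set_option linter.unusedSectionVars false

section

variable {B : Type*} [CommRing B] [Algebra ℂ B] (D : Derivation ℂ B B)

lemma ker_mul {a b : B} (ha : D a = 0) (hb : D b = 0) : D (a * b) = 0 := by
  rw [Derivation.leibniz, ha, hb, smul_zero, smul_zero, add_zero]

lemma ker_pow {a : B} (ha : D a = 0) (k : ℕ) : D (a ^ k) = 0 := by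
  rw [Derivation.leibniz_pow, ha, smul_zero, smul_zero]

lemma iter_ker_mul {c : B} (hc : D c = 0) (k : ℕ) (x : B) :
    (⇑D)^[k] (c * x) = c * (⇑D)^[k] x := by
  induction k with
  | zero => rfl
  | succ k ih => rw [iter_succ, iter_succ, ih, Derivation.leibniz, hc, smul_zero, add_zero,
      smul_eq_mul]

lemma iter_pow_zero {r κ : B} (hr : D r = κ) (hκ : D κ = 0) :
    ∀ m k : ℕ, m < k → (⇑D)^[k] (r ^ m) = 0 := by
  intro m
  induction m with
  | zero =>
    intro k hk
    obtain ⟨j, rfl⟩ : ∃ j, k = j + 1 := ⟨k - 1, by omega⟩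
    rw [pow_zero, Function.iterate_succ_apply, Derivation.map_one_eq_zero, iter_zero]
  | succ m ih =>
    intro k hk
    obtain ⟨j, rfl⟩ : ∃ j, k = j + 1 := ⟨k - 1, by omega⟩
    rw [Function.iterate_succ_apply, Derivation.leibniz_pow, hr, smul_eq_mul, nsmul_eq_mul]
    have h1 : ((m + 1 : ℕ) : B) * (r ^ (m + 1 - 1) * κ) = (((m + 1 : ℕ) : B) * κ) * r ^ m := by
      simp only [Nat.add_sub_cancel]
      ring
    have h2 : D (((m + 1 : ℕ) : B) * κ) = 0 := by
      refine ker_mul D ?_ hκ
      exact D.map_natCast _
    rw [h1, iter_ker_mul D h2, ih j (by omega), mul_zero]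

lemma iter_pow_self {r κ : B} (hr : D r = κ) (hκ : D κ = 0) (m : ℕ) :
    (⇑D)^[m] (r ^ m) = (Nat.factorial m : B) * κ ^ m := by
  induction m with
  | zero => simp
  | succ m ih =>
    rw [Function.iterate_succ_apply, Derivation.leibniz_pow, hr, smul_eq_mul, nsmul_eq_mul]
    have h1 : ((m + 1 : ℕ) : B) * (r ^ (m + 1 - 1) * κ) = (((m + 1 : ℕ) : B) * κ) * r ^ m := by
      simp only [Nat.add_sub_cancel]
      ring
    have h2 : D (((m + 1 : ℕ) : B) * κ) = 0 := by
      refine ker_mul D ?_ hκ
      exact D.map_natCast _
    rw [h1, iter_ker_mul D h2, ih, Nat.factorial_succ]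
    push_cast
    ring

end

section

variable {B : Type*} [CommRing B] [IsDomain B] [Algebra ℂ B] (D : Derivation ℂ B B)
variable (h : B) (L : Type*) [CommRing L] [Algebra B L] [IsLocalization.Away h L]
variable [Algebra ℂ L] [IsScalarTower ℂ B L]

/-- The localized kernel. -/
def locKer (hh : D h = 0) : Subalgebra ℂ L where
  carrier := {x | ∃ (k : ℕ) (b : B), D b = 0 ∧ x * algebraMap B L h ^ k = algebraMap B L b}
  mul_mem' := by
    rintro x y ⟨k, b, hb, hx⟩ ⟨l, c, hc, hy⟩
    refine ⟨k + l, b * c, ker_mul D hb hc, ?_⟩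
    rw [map_mul, ← hx, ← hy, pow_add]
    ring
  add_mem' := by
    rintro x y ⟨k, b, hb, hx⟩ ⟨l, c, hc, hy⟩
    refine ⟨k + l, b * h ^ l + c * h ^ k, ?_, ?_⟩
    · rw [map_add, ker_mul D hb (ker_pow D hh l), ker_mul D hc (ker_pow D hh k), add_zero]
    · rw [map_add, map_mul, map_mul, ← hx, ← hy, map_pow, map_pow, pow_add]
      ring
  algebraMap_mem' := by
    intro c
    refine ⟨0, algebraMap ℂ B c, D.map_algebraMap c, ?_⟩
    rw [pow_zero, mul_one, ← IsScalarTower.algebraMap_apply]

variable {D h L}

lemma mem_locKer_of_ker (hh : D h = 0) {c : B} (hc : D c = 0) :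
    algebraMap B L c ∈ locKer D h L hh :=
  ⟨0, c, hc, by rw [pow_zero, mul_one]⟩

lemma inv_mem_locKer (hh : D h = 0) :
    (IsLocalization.Away.invSelf h : L) ∈ locKer D h L hh := by
  refine ⟨1, 1, D.map_one_eq_zero, ?_⟩
  rw [pow_one, map_one, mul_comm]
  exact IsLocalization.Away.mul_invSelf h

lemma injective_away (hh0 : h ≠ 0) : Function.Injective (algebraMap B L) :=
  IsLocalization.injective (M := Submonoid.powers h) L
    (powers_le_nonZeroDivisors_of_noZeroDivisors hh0)

/-- Common denominators for the coefficients of a polynomial. -/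
lemma common_denom (hh : D h = 0) (P : (locKer D h L hh)[X]) :
    ∃ N : ℕ, ∀ i, ∃ b : B, D b = 0 ∧ ((P.coeff i : locKer D h L hh) : L) * algebraMap B L h ^ N =
      algebraMap B L b := by
  classical
  have hk : ∀ i, ∃ (k : ℕ) (b : B), D b = 0 ∧
      ((P.coeff i : locKer D h L hh) : L) * algebraMap B L h ^ k = algebraMap B L b :=
    fun i => (P.coeff i).2
  choose k b hb hkb using hk
  refine ⟨P.support.sup k, fun i => ?_⟩
  by_cases hi : i ∈ P.support
  · obtain ⟨j, hj⟩ := Nat.exists_eq_add_of_le (Finset.le_sup (f := k) hi)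
    refine ⟨b i * h ^ j, ker_mul D (hb i) (ker_pow D hh j), ?_⟩
    rw [hj, map_mul, ← hkb, map_pow, pow_add]
    ring
  · refine ⟨0, map_zero D, ?_⟩
    rw [notMem_support_iff.1 hi]
    simp

/-- The slice theorem. -/
theorem slice_bijective (hD : IsLocNilp D) (hh0 : h ≠ 0) {r κ s : B} (hr : D r = κ)
    (hκ : D κ = 0) (hs : D s = 0) (hks : κ * s = h) (hh : D h = 0) :
    Function.Bijective (Polynomial.aeval (R := locKer D h L hh)
      (algebraMap B L r * (algebraMap B L s * IsLocalization.Away.invSelf h) : L)) := by
  classical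
  have hinj : Function.Injective (algebraMap B L) := injective_away hh0
  set inv : L := IsLocalization.Away.invSelf h with hinv
  have hinv1 : algebraMap B L h * inv = 1 := IsLocalization.Away.mul_invSelf h
  set ρ : L := algebraMap B L r * (algebraMap B L s * inv) with hρ
  have hκρ : algebraMap B L κ * ρ = algebraMap B L r := by
    have : algebraMap B L κ * ρ = algebraMap B L r * (algebraMap B L (κ * s) * inv) := by
      rw [hρ, map_mul]; ring
    rw [this, hks, hinv1, mul_one]
  have hκ0 : κ ≠ 0 := by
    rintro rfl
    exact hh0 (by rw [← hks, zero_mul])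
  constructor
  · rw [injective_iff_map_eq_zero]
    intro P hP
    by_contra hP0
    obtain ⟨N, hN⟩ := common_denom hh P
    choose b hb hNb using hN
    set m := P.natDegree with hm
    have h1 : ∑ i ∈ Finset.range (m + 1), b i * κ ^ (m - i) * r ^ i = 0 := by
      apply hinj
      rw [map_zero, map_sum]
      have h2 : ∀ i ∈ Finset.range (m + 1), algebraMap B L (b i * κ ^ (m - i) * r ^ i) =
          (((P.coeff i : locKer D h L hh) : L) * ρ ^ i) *
            (algebraMap B L h ^ N * algebraMap B L κ ^ m) := by
        intro i hi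
        have hi' : i ≤ m := by
          have := Finset.mem_range.1 hi
          omega
        have h3 : m = (m - i) + i := by omega
        rw [map_mul, map_mul, ← hNb, map_pow, map_pow, ← hκρ, mul_pow]
        conv_rhs => rw [h3, pow_add]
        ring
      rw [Finset.sum_congr rfl h2, ← Finset.sum_mul]
      rw [aeval_eq_sum_range] at hP
      have h4 : ∑ i ∈ Finset.range (m + 1), ((P.coeff i : locKer D h L hh) : L) * ρ ^ i = 0 := by
        rw [← hP]
        refine Finset.sum_congr rfl fun i _ => ?_
        rw [Algebra.smul_def]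
        rfl
      rw [h4, zero_mul]
    have h5 := congrArg (⇑D)^[m] h1
    rw [iter_zero, iter_sum, Finset.sum_eq_single m] at h5
    · rw [iter_ker_mul D (ker_mul D (hb m) (ker_pow D hκ _)), iter_pow_self D hr hκ] at h5
      have h6 : b m ≠ 0 := by
        intro h0
        have h7 := hNb m
        rw [h0, map_zero] at h7
        have h8 : ((P.coeff m : locKer D h L hh) : L) = 0 := by
          have h9 : algebraMap B L h ^ N * inv ^ N = 1 := by
            rw [← mul_pow, hinv1, one_pow]
          calc ((P.coeff m : locKer D h L hh) : L)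
              = ((P.coeff m : locKer D h L hh) : L) * (algebraMap B L h ^ N * inv ^ N) := by
                rw [h9, mul_one]
            _ = (((P.coeff m : locKer D h L hh) : L) * algebraMap B L h ^ N) * inv ^ N := by ring
            _ = 0 := by rw [h7, zero_mul]
        have h10 : P.coeff m = 0 := Subtype.ext h8
        rw [hm, coeff_natDegree, leadingCoeff_eq_zero] at h10
        exact hP0 h10
      have h11 : ((Nat.factorial m : ℕ) : B) ≠ 0 :=
        natCast_ne_zero_of_pos (Nat.factorial_ne_zero m)
      exact (mul_ne_zero (mul_ne_zero h6 (pow_ne_zero _ hκ0))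
        (mul_ne_zero h11 (pow_ne_zero _ hκ0))) h5
    · intro i hi hne
      have hi' : i < m := by
        have := Finset.mem_range.1 hi
        omega
      rw [iter_ker_mul D (ker_mul D (hb i) (ker_pow D hκ _)), iter_pow_zero D hr hκ i m hi',
        mul_zero]
    · intro hcon
      exact absurd (Finset.mem_range.2 (Nat.lt_succ_self m)) hcon
  · have hrange : ∀ x, x ∈ (Polynomial.aeval (R := locKer D h L hh) ρ).range ↔
        ∃ P, Polynomial.aeval (R := locKer D h L hh) ρ P = x := fun x => Iff.rfl
    set A := (Polynomial.aeval (R := locKer D h L hh) ρ).range with hA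
    have hK : ∀ x ∈ locKer D h L hh, x ∈ A := by
      intro x hx
      exact A.algebraMap_mem ⟨x, hx⟩
    have hρA : ρ ∈ A := ⟨X, by simp⟩
    have hrA : algebraMap B L r ∈ A := by
      rw [← hκρ]
      exact mul_mem (hK _ (mem_locKer_of_ker hh hκ)) hρA
    have hinvA : inv ∈ A := hK _ (inv_mem_locKer hh)
    have hκinv : algebraMap B L κ * (algebraMap B L s * inv) = 1 := by
      rw [← mul_assoc, ← map_mul, hks, hinv1]
    have hκinvA : algebraMap B L s * inv ∈ A :=
      mul_mem (hK _ (mem_locKer_of_ker hh hs)) hinvA
    have key : ∀ (m : ℕ) (b : B), (⇑D)^[m] b = 0 → algebraMap B L b ∈ A := by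
      intro m
      induction m with
      | zero =>
        intro b hb
        have hb' : b = 0 := hb
        rw [hb', map_zero]
        exact zero_mem _
      | succ m ih =>
        intro b hb
        set c := (⇑D)^[m] b with hc
        have hDc : D c = 0 := by rw [hc, ← iter_succ]; exact hb
        have h1 : (⇑D)^[m] (((Nat.factorial m : B) * κ ^ m) * b - c * r ^ m) = 0 := by
          have h2 : ((Nat.factorial m : B) * κ ^ m) * b - c * r ^ m =
              ((Nat.factorial m : B) * κ ^ m) * b + (-c) * r ^ m := by ring
          have h3 : D ((Nat.factorial m : B) * κ ^ m) = 0 :=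
            ker_mul D (D.map_natCast _) (ker_pow D hκ m)
          have h4 : D (-c) = 0 := by rw [map_neg, hDc, neg_zero]
          rw [h2, iter_add, iter_ker_mul D h3, iter_ker_mul D h4, iter_pow_self D hr hκ, ← hc]
          ring
        have h5 := ih _ h1
        rw [map_sub, map_mul, map_mul, map_mul, map_pow, map_pow, map_natCast] at h5
        have h6 : algebraMap B L c * algebraMap B L r ^ m ∈ A :=
          mul_mem (hK _ (mem_locKer_of_ker hh hDc)) (pow_mem hrA m)
        have h7 := add_mem h5 h6
        rw [sub_add_cancel] at h7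
        have h8 : algebraMap ℂ L ((Nat.factorial m : ℂ)⁻¹) ∈ A := by
          refine hK _ ?_
          exact Subalgebra.algebraMap_mem _ _
        have h9 : algebraMap B L b = algebraMap ℂ L ((Nat.factorial m : ℂ)⁻¹) *
            (algebraMap B L s * inv) ^ m *
            ((Nat.factorial m : L) * algebraMap B L κ ^ m * algebraMap B L b) := by
          have h10 : (Nat.factorial m : L) = algebraMap ℂ L (Nat.factorial m : ℂ) := by
            rw [map_natCast]
          have h11 : algebraMap ℂ L ((Nat.factorial m : ℂ)⁻¹) *
              algebraMap ℂ L (Nat.factorial m : ℂ) = 1 := by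
            rw [← map_mul, inv_mul_cancel₀ (by exact_mod_cast Nat.factorial_ne_zero m), map_one]
          have h12 : (algebraMap B L s * inv) ^ m * algebraMap B L κ ^ m = 1 := by
            rw [← mul_pow, mul_comm, hκinv, one_pow]
          calc algebraMap B L b = (algebraMap ℂ L ((Nat.factorial m : ℂ)⁻¹) *
                algebraMap ℂ L (Nat.factorial m : ℂ)) * ((algebraMap B L s * inv) ^ m *
                algebraMap B L κ ^ m) * algebraMap B L b := by rw [h11, h12]; ring
            _ = _ := by
              rw [h10]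
              ring
        rw [h9]
        exact mul_mem (mul_mem h8 (pow_mem hκinvA m)) h7
    intro x
    rw [← hrange]
    obtain ⟨k, b, hb⟩ := IsLocalization.Away.surj h x
    obtain ⟨m, hm⟩ := hD b
    have h1 := key m b hm
    have h2 : x = algebraMap B L b * inv ^ k := by
      rw [← hb, mul_assoc, ← mul_pow, hinv1, one_pow, mul_one]
    rw [h2]
    exact mul_mem h1 (pow_mem hinvA k)

end

end Pool.Agent.M45f4ba
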