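import Pool.Agent.M45f4ba.Cyl

/-!
Existence of homogeneous elements of positive degree in the kernel.
-/

namespace Pool.Agent.M45f4ba

open MvPolynomial

variable {n : ℕ}

lemma WH_nonneg {W : Fin n → ℤ} (hW : ∀ i, 0 < W i) {f : MvPolynomial (Fin n) ℂ} {m : ℤ}
    (hf : WH W f m) (hf0 : f ≠ 0) : 0 ≤ m := by
  obtain ⟨d, hd⟩ := (MvPolynomial.ne_zero_iff).1 hf0
  have h1 := hf hd
  rw [← h1, Finsupp.weight_apply, Finsupp.sum]
  exact Finset.sum_nonneg fun i _ => mul_nonneg (by positivity) (hW i).le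

lemma WH_zero_const {W : Fin n → ℤ} (hW : ∀ i, 0 < W i) {f : MvPolynomial (Fin n) ℂ}
    (hf : WH W f 0) : ∃ c, f = C c := by
  classical
  refine ⟨coeff 0 f, ?_⟩
  ext d
  rw [coeff_C]
  split_ifs with h
  · rw [h]
  · by_contra hne
    have h1 := hf hne
    rw [Finsupp.weight_apply, Finsupp.sum] at h1
    have h2 := (Finset.sum_eq_zero_iff_of_nonneg
      (fun i _ => mul_nonneg (by positivity) (hW i).le)).1 h1
    apply h
    symm
    ext i
    by_contra hi
    have h3 := h2 i (Finsupp.mem_support_iff.2 hi)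
    rcases mul_eq_zero.1 h3 with h4 | h4
    · exact hi (by exact_mod_cast h4)
    · exact (hW i).ne' h4

lemma isUnit_of_degreeOf {q : MvPolynomial (Fin n) ℂ} (hq : q ≠ 0)
    (h : ∀ i, degreeOf i q = 0) : IsUnit q := by
  have h1 : q.totalDegree = 0 := by
    rw [totalDegree_eq_zero_iff]
    intro m hm x
    have := monomial_le_degreeOf x hm
    rw [h x] at this
    omega
  rw [totalDegree_eq_zero_iff_eq_C] at h1
  rw [h1]
  refine IsUnit.map C ?_
  rw [isUnit_iff_ne_zero]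
  intro h2
  rw [h2, map_zero] at h1
  exact hq h1

lemma degreeOf_of_dvd {q f : MvPolynomial (Fin n) ℂ} (hf : f ≠ 0) (hqf : q ∣ f) {i : Fin n}
    (hi : degreeOf i f = 0) : degreeOf i q = 0 := by
  obtain ⟨g, rfl⟩ := hqf
  rw [degreeOf_mul_eq (left_ne_zero_of_mul hf) (right_ne_zero_of_mul hf)] at hi
  omega

/-- Three variables: existence of a homogeneous kernel element of positive degree. -/
theorem Data.exists_pos {W : Fin 3 → ℤ} {p q s : MvPolynomial (Fin 3) ℂ} {k : ℕ} {kq ks e : ℤ}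
    {E : Derivation ℂ (MvPolynomial (Fin 3) ℂ) (MvPolynomial (Fin 3) ℂ)}
    (hW : ∀ i, 0 < W i) (H : Data W p q s k kq ks e E) :
    ∃ f m, 0 < m ∧ WH W f m ∧ ¬ q ∣ f ∧ q ∣ E f := by
  classical
  by_contra hcon
  push Not at hcon
  have hprime := H.prime
  have hconst : ∀ f m, WH W f m → ¬ q ∣ f → q ∣ E f → m = 0 ∧ ∃ c, c ≠ 0 ∧ f = C c := by
    intro f m hf hqf hEf
    have hf0 : f ≠ 0 := by
      rintro rfl
      exact hqf (dvd_zero _)
    have h1 := WH_nonneg hW hf hf0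
    have h2 : ¬ 0 < m := fun hm => (hcon f m hm hf hqf) hEf
    have h3 : m = 0 := by omega
    rw [h3] at hf
    obtain ⟨c, hc⟩ := WH_zero_const hW hf
    refine ⟨h3, c, ?_, hc⟩
    rintro rfl
    exact hf0 (by rw [hc, map_zero])
  obtain ⟨D, hDE, hDn⟩ := H.exists_der
  have hiter : ∀ j f, (⇑D)^[j] (Ideal.Quotient.mk _ f) = Ideal.Quotient.mk _ ((⇑E)^[j] f) :=
    fun j f => iter_mk _ E D (fun f => (hDE f).symm) j f
  obtain ⟨r, mr, hr, hr1, hr2⟩ := H.exists_slice
  obtain ⟨hmr, κ, hκ0, hκ⟩ := hconst (E r) (mr + e) (H.hom r mr hr) hr1 hr2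
  have hfact : Fact (Irreducible q) := ⟨H.irr⟩
  have hr0 : r ≠ 0 := by
    rintro rfl
    rw [map_zero] at hr1
    exact hr1 (dvd_zero _)
  -- `e` is negative
  obtain ⟨i0, hi0⟩ := H.ne
  have hi0' : ¬ q ∣ (X i0 : MvPolynomial (Fin 3) ℂ) := fun h1 => hi0 (dvd_map_of_dvd H.Eq h1)
  have hdeg : ∀ f M, WH W f M → ¬ q ∣ f → ∃ m : ℕ, ¬ q ∣ (⇑E)^[m] f ∧ q ∣ (⇑E)^[m + 1] f ∧
      M + m * e = 0 ∧ ∃ c, c ≠ 0 ∧ (⇑E)^[m] f = C c := by
    intro f M hf hqf
    obtain ⟨m, hm, hm'⟩ := H.exists_deg hqf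
    obtain ⟨h1, h2⟩ := hconst _ _ (H.iter_hom hf m) hm (by rw [← iter_succ]; exact hm')
    exact ⟨m, hm, hm', h1, h2⟩
  obtain ⟨m0, -, -, h0, -⟩ := hdeg (X i0) (W i0) (isWeightedHomogeneous_X ℂ W i0) hi0'
  have he : e ≠ 0 := by
    rintro rfl
    have := hW i0
    simp at h0
    omega
  have hpowr : ∀ m : ℕ, WH W (r ^ m) (m * mr) := by
    intro m
    have h1 := hr.pow m
    rwa [nsmul_eq_mul] at h1
  have hmr' : mr = -e := by omega
  have hDr : D (Ideal.Quotient.mk _ r) = Ideal.Quotient.mk _ (C κ) := by rw [hDE, hκ]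
  have hDκ : D (Ideal.Quotient.mk _ (C κ : MvPolynomial (Fin 3) ℂ)) = 0 := by
    rw [hDE, derivation_C, map_zero]
  -- every homogeneous element is a multiple of a power of `r`
  have key : ∀ f M, WH W f M → ¬ q ∣ f → ∃ (m : ℕ) (c : ℂ), M + m * e = 0 ∧ c ≠ 0 ∧
      q ∣ f - C c * r ^ m := by
    intro f M hf hqf
    obtain ⟨m, hm, hm', hM, a, ha, hfa⟩ := hdeg f M hf hqf
    set c : ℂ := a / ((Nat.factorial m : ℂ) * κ ^ m) with hc
    have hfac : ((Nat.factorial m : ℂ) * κ ^ m) ≠ 0 :=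
      mul_ne_zero (by exact_mod_cast Nat.factorial_ne_zero m) (pow_ne_zero _ hκ0)
    have hca : c * ((Nat.factorial m : ℂ) * κ ^ m) = a := div_mul_cancel₀ _ hfac
    refine ⟨m, c, hM, div_ne_zero ha hfac, ?_⟩
    by_contra hndvd
    have hWH' : WH W (f - C c * r ^ m) M := by
      have h1 : WH W (C c * r ^ m) M := by
        have h2 := (isWeightedHomogeneous_C W c).mul (hpowr m)
        have h3 : (0 : ℤ) + m * mr = M := by rw [hmr']; linarith
        rwa [h3] at h2
      exact hf.sub h1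
    obtain ⟨m', hm1, -, hM', -⟩ := hdeg _ M hWH' hndvd
    have h4 : m' = m := by
      have h5 : (m' : ℤ) * e = m * e := by omega
      exact_mod_cast mul_right_cancel₀ he h5
    rw [h4] at hm1
    apply hm1
    rw [← Data.mk_eq_zero, ← hiter, map_sub, sub_eq_add_neg, iter_add, hiter, hfa]
    have h6 : -(Ideal.Quotient.mk (Ideal.span {q}) (C c * r ^ m)) =
        Ideal.Quotient.mk (Ideal.span {q}) (C (-c)) * (Ideal.Quotient.mk (Ideal.span {q}) r) ^ m
        := by
      rw [map_mul, map_pow, map_neg, map_neg]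
      ring
    rw [h6, iter_ker_mul D (by rw [hDE, derivation_C, map_zero]), iter_pow_self D hDr hDκ]
    have h7 : ((Nat.factorial m : ℕ) : MvPolynomial (Fin 3) ℂ ⧸ Ideal.span {q}) =
        Ideal.Quotient.mk (Ideal.span {q}) (C (Nat.factorial m : ℂ)) := by
      rw [map_natCast, map_natCast]
    rw [h7, ← map_pow, ← map_mul, ← map_mul, ← map_add]
    have h8 : (C a : MvPolynomial (Fin 3) ℂ) + C (-c) * (C (Nat.factorial m : ℂ) * C κ ^ m) = 0 := by
      rw [← hca, ← map_pow, ← map_mul, ← map_mul, ← map_add, ← map_zero C]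
      congr 1
      ring
    rw [h8, map_zero]
  have hXi : ∀ i : Fin 3, q ∣ (X i : MvPolynomial (Fin 3) ℂ) ∨ ∃ (m : ℕ) (c : ℂ), 0 < m ∧ c ≠ 0 ∧
      q ∣ X i - C c * r ^ m := by
    intro i
    by_cases hi : q ∣ (X i : MvPolynomial (Fin 3) ℂ)
    · exact Or.inl hi
    · obtain ⟨m, c, hm, hc, hd⟩ := key (X i) (W i) (isWeightedHomogeneous_X ℂ W i) hi
      refine Or.inr ⟨m, c, ?_, hc, hd⟩
      rcases Nat.eq_zero_or_pos m with h1 | h1
      · rw [h1] at hm
        have := hW i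
        simp at hm
        omega
      · exact h1
  -- so `q` divides nonzero polynomials missing any given variable
  have hmiss : ∀ l : Fin 3, degreeOf l q = 0 := by
    intro l
    obtain ⟨i, j, hij, hil, hjl⟩ : ∃ i j : Fin 3, i ≠ j ∧ i ≠ l ∧ j ≠ l := by
      fin_cases l
      · exact ⟨1, 2, by decide, by decide, by decide⟩
      · exact ⟨0, 2, by decide, by decide, by decide⟩
      · exact ⟨0, 1, by decide, by decide, by decide⟩
    rcases hXi i with h1 | ⟨mi, ci, hmi, hci, hdi⟩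
    · exact degreeOf_of_dvd (X_ne_zero i) h1 (degreeOf_X_of_ne hil.symm)
    rcases hXi j with h1 | ⟨mj, cj, hmj, hcj, hdj⟩
    · exact degreeOf_of_dvd (X_ne_zero j) h1 (degreeOf_X_of_ne hjl.symm)
    set f : MvPolynomial (Fin 3) ℂ := C (cj ^ mi) * X i ^ mj - C (ci ^ mj) * X j ^ mi with hf
    refine degreeOf_of_dvd (f := f) ?_ ?_ ?_
    · intro h0
      have h1 := congrArg (eval (fun t => if t = i then (1 : ℂ) else 0)) h0
      rw [hf] at h1
      simp only [map_sub, map_mul, map_pow, eval_C, eval_X, if_true, if_neg hij.symm, map_zero,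
        one_pow, mul_one, zero_pow hmi.ne', mul_zero, sub_zero] at h1
      exact pow_ne_zero _ hcj h1
    · rw [← Data.mk_eq_zero] at hdi hdj ⊢
      rw [map_sub, sub_eq_zero] at hdi hdj
      simp only [hf, map_sub, map_mul, map_pow] at hdi hdj ⊢
      rw [hdi, hdj]
      ring
    · rw [← Nat.le_zero]
      refine (degreeOf_sub_le l _ _).trans (max_le ?_ ?_)
      · refine (degreeOf_C_mul_le _ _ _).trans ?_
        rw [degreeOf_X_pow_of_ne _ hil.symm]
      · refine (degreeOf_C_mul_le _ _ _).trans ?_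
        rw [degreeOf_X_pow_of_ne _ hjl.symm]
  exact H.irr.not_isUnit (isUnit_of_degreeOf H.irr.ne_zero hmiss)

end Pool.Agent.M45f4ba
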