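import Pool.Agent.M45f4ba.SurfA

/-!
Transcendence degree of the coordinate ring of a surface in affine three-space, and
proportionality of homogeneous kernel elements of equal degree.
-/

namespace Pool.Agent.M45f4ba

open MvPolynomial

/-- Three elements of the coordinate ring of a surface in affine three-space are algebraically
dependent. -/
theorem no_three {q : MvPolynomial (Fin 3) ℂ} (hq : Irreducible q) {ι : Type} [Fintype ι]
    (hι : Fintype.card ι = 3) (x : ι → MvPolynomial (Fin 3) ℂ ⧸ Ideal.span {q}) :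
    ¬ AlgebraicIndependent ℂ x := by
  classical
  intro hx
  have hmk : ∀ f, Ideal.Quotient.mk (Ideal.span {q}) f = 0 ↔ q ∣ f := fun f => by
    rw [Ideal.Quotient.eq_zero_iff_mem, Ideal.mem_span_singleton]
  choose y hy using fun i => Ideal.Quotient.mk_surjective (x i)
  have hxy : x = (Ideal.Quotient.mkₐ ℂ (Ideal.span {q})) ∘ y := by
    funext i
    exact (hy i).symm
  have hyi : AlgebraicIndependent ℂ y := by
    refine AlgebraicIndependent.of_comp (Ideal.Quotient.mkₐ ℂ (Ideal.span {q})) ?_
    rw [← hxy]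
    exact hx
  have hnot : ¬ AlgebraicIndependent ℂ (fun o : Option ι ↦ o.elim q y) := by
    intro h4
    have h1 := h4.cardinalMk_le_trdeg
    rw [MvPolynomial.trdeg_of_isDomain] at h1
    simp [hι] at h1
    have h2 : ((4 : ℕ) : Cardinal) ≤ ((3 : ℕ) : Cardinal) := by
      push_cast
      convert h1 using 1
    rw [Nat.cast_le] at h2
    omega
  rw [hyi.option_iff_transcendental] at hnot
  apply hnot
  have key : ∀ (N : ℕ) (P : Polynomial (Algebra.adjoin ℂ (Set.range y))), P ≠ 0 →
      P.natDegree ≤ N → Polynomial.aeval q P ≠ 0 := by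
    intro N
    induction N with
    | zero =>
      intro P hP hdeg h0
      have h1 : P = Polynomial.C (P.coeff 0) := Polynomial.eq_C_of_natDegree_le_zero hdeg
      rw [h1, Polynomial.aeval_C] at h0
      have h2 : P.coeff 0 = 0 := by
        apply Subtype.ext
        exact h0
      apply hP
      rw [h1, h2, map_zero]
    | succ N ih =>
      intro P hP hdeg h0
      by_cases hc : P.coeff 0 = 0
      · have h1 : P = P.divX * Polynomial.X := by
          conv_lhs => rw [← Polynomial.divX_mul_X_add P, hc, map_zero, add_zero]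
        have h2 : P.divX ≠ 0 := by
          intro h3
          rw [h3, zero_mul] at h1
          exact hP h1
        have h3 : P.divX.natDegree ≤ N := by
          rw [Polynomial.natDegree_divX_eq_natDegree_tsub_one]
          omega
        apply ih P.divX h2 h3
        rw [h1, map_mul, Polynomial.aeval_X] at h0
        rcases mul_eq_zero.1 h0 with h4 | h4
        · exact h4
        · exact absurd h4 hq.ne_zero
      · have h1 := Polynomial.divX_mul_X_add P
        rw [← h1, map_add, map_mul, Polynomial.aeval_X, Polynomial.aeval_C] at h0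
        have h2 : q ∣ ((P.coeff 0 : Algebra.adjoin ℂ (Set.range y)) : MvPolynomial (Fin 3) ℂ) := by
          have h3 : ((P.coeff 0 : Algebra.adjoin ℂ (Set.range y)) : MvPolynomial (Fin 3) ℂ) =
              - (Polynomial.aeval q P.divX * q) := by
            rw [eq_neg_iff_add_eq_zero, add_comm]
            exact h0
          rw [h3]
          exact (dvd_mul_left _ _).neg_right
        obtain ⟨F, hF⟩ : ∃ F : MvPolynomial ι ℂ, aeval y F =
            ((P.coeff 0 : Algebra.adjoin ℂ (Set.range y)) : MvPolynomial (Fin 3) ℂ) := by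
          have h7 : ∀ z ∈ Algebra.adjoin ℂ (Set.range y),
              ∃ F : MvPolynomial ι ℂ, aeval y F = z := by
            intro z hz
            rw [Algebra.adjoin_range_eq_range_aeval] at hz
            exact hz
          exact h7 _ (P.coeff 0).2
        have h4 : aeval x F = 0 := by
          have h5 : aeval x F = Ideal.Quotient.mkₐ ℂ (Ideal.span {q}) (aeval y F) := by
            rw [hxy]
            have : aeval (⇑(Ideal.Quotient.mkₐ ℂ (Ideal.span {q})) ∘ y) =
                (Ideal.Quotient.mkₐ ℂ (Ideal.span {q})).comp (aeval y) := by ext; simp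
            rw [this]
            rfl
          rw [h5, hF]
          exact (hmk _).2 h2
        have h6 : F = 0 := by
          have h7 : aeval x F = aeval x (0 : MvPolynomial ι ℂ) := by rw [h4, map_zero]
          exact hx h7
        rw [h6, map_zero] at hF
        apply hc
        apply Subtype.ext
        exact hF.symm
  rintro ⟨P, hP, hP0⟩
  exact key P.natDegree P hP le_rfl hP0

/-- A slice is transcendental over the kernel. -/
theorem transcendental_slice {B : Type*} [CommRing B] [IsDomain B] [Algebra ℂ B]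
    (D : Derivation ℂ B B) {ι : Type} (x : ι → B) (hx : ∀ i, D (x i) = 0) {r κ : B} (hr : D r = κ)
    (hκ : D κ = 0) (hκ0 : κ ≠ 0) : Transcendental (Algebra.adjoin ℂ (Set.range x)) r := by
  rintro ⟨P, hP, hP0⟩
  have hker : ∀ z ∈ Algebra.adjoin ℂ (Set.range x), D z = 0 := by
    intro z hz
    induction hz using Algebra.adjoin_induction with
    | mem z hz =>
      obtain ⟨i, rfl⟩ := hz
      exact hx i
    | algebraMap c => exact D.map_algebraMap c
    | add a b _ _ ha hb => rw [map_add, ha, hb, add_zero]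
    | mul a b _ _ ha hb => exact ker_mul D ha hb
  have hsm : ∀ i, P.coeff i • r ^ i =
      ((P.coeff i : Algebra.adjoin ℂ (Set.range x)) : B) * r ^ i := fun i => rfl
  rw [Polynomial.aeval_eq_sum_range] at hP0
  have h1 := congrArg (⇑D)^[P.natDegree] hP0
  rw [iter_zero, iter_sum, Finset.sum_eq_single P.natDegree] at h1
  · rw [hsm, iter_ker_mul D (hker _ (Subtype.prop _)), iter_pow_self D hr hκ] at h1
    have h2 : ((P.coeff P.natDegree : Algebra.adjoin ℂ (Set.range x)) : B) ≠ 0 := by
      intro h3
      apply hP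
      rw [← Polynomial.leadingCoeff_eq_zero]
      exact Subtype.ext h3
    have h3 : ((Nat.factorial P.natDegree : ℕ) : B) ≠ 0 :=
      natCast_ne_zero_of_pos (Nat.factorial_ne_zero _)
    exact (mul_ne_zero h2 (mul_ne_zero h3 (pow_ne_zero _ hκ0))) h1
  · intro i hi hne
    have hi' : i < P.natDegree := by
      have := Finset.mem_range.1 hi
      omega
    rw [hsm, iter_ker_mul D (hker _ (Subtype.prop _)), iter_pow_zero D hr hκ i _ hi',
      mul_zero]
  · intro hcon
    exact absurd (Finset.mem_range.2 (Nat.lt_succ_self _)) hcon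

/-- Homogeneous kernel elements of equal positive degree are proportional. -/
theorem Data.proportional {W : Fin 3 → ℤ} {p q s : MvPolynomial (Fin 3) ℂ} {k : ℕ}
    {kq ks e : ℤ} {E : Derivation ℂ (MvPolynomial (Fin 3) ℂ) (MvPolynomial (Fin 3) ℂ)}
    (H : Data W p q s k kq ks e E) {f1 f2 : MvPolynomial (Fin 3) ℂ}
    {m : ℤ} (hm : 0 < m) (h1 : WH W f1 m) (h2 : WH W f2 m) (hq1 : ¬ q ∣ f1) (hq2 : ¬ q ∣ f2)
    (hE1 : q ∣ E f1) (hE2 : q ∣ E f2) : ∃ c : ℂ, c ≠ 0 ∧ q ∣ f1 - C c * f2 := by
  classical
  have hprime := H.prime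
  have hfact : Fact (Irreducible q) := ⟨H.irr⟩
  obtain ⟨D, hDE, hDn⟩ := H.exists_der
  obtain ⟨r, mr, hr, hr1, hr2⟩ := H.exists_slice
  set x : Fin 2 → MvPolynomial (Fin 3) ℂ ⧸ Ideal.span {q} :=
    ![Ideal.Quotient.mk _ f1, Ideal.Quotient.mk _ f2] with hx
  have hxker : ∀ i, D (x i) = 0 := by
    intro i
    fin_cases i
    · simp only [hx]
      change D (Ideal.Quotient.mk _ f1) = 0
      rw [hDE, Data.mk_eq_zero]
      exact hE1
    · simp only [hx]
      change D (Ideal.Quotient.mk _ f2) = 0
      rw [hDE, Data.mk_eq_zero]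
      exact hE2
  have htr := transcendental_slice D x hxker (hDE r)
    (by rw [hDE, Data.mk_eq_zero]; exact hr2) (by rw [Ne, Data.mk_eq_zero]; exact hr1)
  have hdep : ¬ AlgebraicIndependent ℂ x := by
    intro hxi
    refine no_three H.irr (ι := Option (Fin 2)) (by simp) _
      ((hxi.option_iff_transcendental (Ideal.Quotient.mk _ r)).2 htr)
  rw [AlgebraicIndependent, injective_iff_map_eq_zero] at hdep
  push Not at hdep
  obtain ⟨F, hF, hF0⟩ := hdep
  -- the polynomial relation upstairs
  have hFsum : q ∣ ∑ d ∈ F.support, C (coeff d F) * (f1 ^ d 0 * f2 ^ d 1) := by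
    rw [← Data.mk_eq_zero, ← hF, aeval_def, eval₂_eq', map_sum]
    refine Finset.sum_congr rfl fun d _ => ?_
    rw [Fin.prod_univ_two, map_mul, map_mul, map_pow, map_pow]
    rfl
  obtain ⟨d0, hd0⟩ := (MvPolynomial.ne_zero_iff).1 hF0
  set j : ℤ := (d0 0 : ℤ) + d0 1 with hj
  set S := F.support.filter (fun d => (d 0 : ℤ) + d 1 = j) with hS
  have hmon : ∀ d : Fin 2 →₀ ℕ, WH W (C (coeff d F) * (f1 ^ d 0 * f2 ^ d 1))
      (((d 0 : ℤ) + d 1) * m) := by
    intro d
    have h3 := (isWeightedHomogeneous_C W (coeff d F)).mul ((h1.pow (d 0)).mul (h2.pow (d 1)))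
    rw [nsmul_eq_mul, nsmul_eq_mul, zero_add, ← add_mul] at h3
    exact h3
  have hFj : q ∣ ∑ d ∈ S, C (coeff d F) * (f1 ^ d 0 * f2 ^ d 1) := by
    have h3 := comp_mem H.hq hFsum (j * m)
    unfold comp at h3
    rw [map_sum] at h3
    have h4 : ∑ d ∈ F.support, weightedHomogeneousComponent W (j * m)
        (C (coeff d F) * (f1 ^ d 0 * f2 ^ d 1)) =
        ∑ d ∈ S, C (coeff d F) * (f1 ^ d 0 * f2 ^ d 1) := by
      rw [hS, Finset.sum_filter]
      refine Finset.sum_congr rfl fun d _ => ?_
      split_ifs with h5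
      · have h6 := hmon d
        rw [h5] at h6
        exact comp_same h6
      · refine comp_ne (hmon d) ?_
        intro h6
        exact h5 (mul_right_cancel₀ hm.ne' h6).symm
    rwa [h4] at h3
  -- the fraction field
  set K := FractionRing (MvPolynomial (Fin 3) ℂ ⧸ Ideal.span {q}) with hK
  set ι : MvPolynomial (Fin 3) ℂ →+* K :=
    (algebraMap (MvPolynomial (Fin 3) ℂ ⧸ Ideal.span {q}) K).comp (Ideal.Quotient.mk _) with hι
  have hι0 : ∀ f, ι f = 0 ↔ q ∣ f := by
    intro f
    rw [hι, RingHom.comp_apply, map_eq_zero_iff _ (IsFractionRing.injective _ K),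
      Data.mk_eq_zero]
  have hιC : ∀ c, ι (C c) = algebraMap ℂ K c := fun c => rfl
  have hf1 : ι f1 ≠ 0 := by rw [Ne, hι0]; exact hq1
  have hf2 : ι f2 ≠ 0 := by rw [Ne, hι0]; exact hq2
  set z : K := ι f1 / ι f2 with hz
  have hzf : ι f1 = z * ι f2 := by rw [hz, div_mul_cancel₀ _ hf2]
  set P1 : Polynomial ℂ := ∑ d ∈ S, Polynomial.monomial (d 0) (coeff d F) with hP1
  have hP1z : Polynomial.aeval z P1 = 0 := by
    have h3 : ι (∑ d ∈ S, C (coeff d F) * (f1 ^ d 0 * f2 ^ d 1)) = 0 := (hι0 _).2 hFj
    have h4 : ι (∑ d ∈ S, C (coeff d F) * (f1 ^ d 0 * f2 ^ d 1)) =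
        ι f2 ^ (d0 0 + d0 1) * Polynomial.aeval z P1 := by
      rw [map_sum, hP1, map_sum, Finset.mul_sum]
      refine Finset.sum_congr rfl fun d hd => ?_
      rw [hS, Finset.mem_filter] at hd
      have h5 : d 0 + d 1 = d0 0 + d0 1 := by
        have := hd.2
        omega
      rw [map_mul, map_mul, map_pow, map_pow, hιC, Polynomial.aeval_monomial, hzf, ← h5]
      ring
    rw [h4] at h3
    exact (mul_eq_zero.1 h3).resolve_left (pow_ne_zero _ hf2)
  have hP10 : P1 ≠ 0 := by
    intro h0
    have h3 := congrArg (fun P => Polynomial.coeff P (d0 0)) h0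
    simp only [hP1, Polynomial.finsetSum_coeff, Polynomial.coeff_monomial,
      Polynomial.coeff_zero] at h3
    rw [Finset.sum_eq_single d0] at h3
    · rw [if_pos rfl] at h3
      exact hd0 h3
    · intro d hd hne
      rw [if_neg]
      intro h4
      apply hne
      rw [hS, Finset.mem_filter] at hd
      have h5 := hd.2
      ext i
      fin_cases i
      · exact h4
      · change d 1 = d0 1
        omega
    · intro h4
      exfalso
      apply h4
      rw [hS, Finset.mem_filter, mem_support_iff]
      exact ⟨hd0, rfl⟩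
  have hzint : IsIntegral ℂ z := by
    have : IsAlgebraic ℂ z := ⟨P1, hP10, hP1z⟩
    exact this.isIntegral
  obtain ⟨c, hc⟩ := minpoly.mem_range_of_degree_eq_one ℂ z
    (IsAlgClosed.degree_eq_one_of_irreducible ℂ (minpoly.irreducible hzint))
  refine ⟨c, ?_, ?_⟩
  · rintro rfl
    rw [map_zero] at hc
    rw [← hc, zero_mul] at hzf
    exact hf1 hzf
  · rw [← hι0, map_sub, map_mul, hιC, hc, ← hzf, sub_self]

end Pool.Agent.M45f4ba
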