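import Pool.Agent.M45f4ba.SurfB

/-!
The localized kernel of a homogeneous locally nilpotent derivation on a quasihomogeneous surface
is a Laurent polynomial ring.
-/

namespace Pool.Agent.M45f4ba

open MvPolynomial

variable {W : Fin 3 → ℤ} {p q s : MvPolynomial (Fin 3) ℂ} {k : ℕ}
    {kq ks e : ℤ} {E : Derivation ℂ (MvPolynomial (Fin 3) ℂ) (MvPolynomial (Fin 3) ℂ)}

/-- Homogeneous elements of the kernel modulo `q`, not divisible by `q`. -/
structure HK (W : Fin 3 → ℤ) (q : MvPolynomial (Fin 3) ℂ)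
    (E : Derivation ℂ (MvPolynomial (Fin 3) ℂ) (MvPolynomial (Fin 3) ℂ))
    (f : MvPolynomial (Fin 3) ℂ) (m : ℤ) : Prop where
  wh : WH W f m
  nd : ¬ q ∣ f
  ker : q ∣ E f

lemma HK.one (H : Data W p q s k kq ks e E) : HK W q E 1 0 where
  wh := isWeightedHomogeneous_one ℂ W
  nd := fun h => H.irr.not_isUnit (isUnit_of_dvd_one h)
  ker := by rw [Derivation.map_one_eq_zero]; exact dvd_zero _

lemma HK.mul (H : Data W p q s k kq ks e E) {f g : MvPolynomial (Fin 3) ℂ} {m l : ℤ}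
    (hf : HK W q E f m) (hg : HK W q E g l) : HK W q E (f * g) (m + l) where
  wh := hf.wh.mul hg.wh
  nd := fun h => (H.prime.dvd_or_dvd h).elim hf.nd hg.nd
  ker := by
    rw [Derivation.leibniz, smul_eq_mul, smul_eq_mul]
    exact dvd_add (hg.ker.mul_left _) (hf.ker.mul_left _)

lemma HK.pow (H : Data W p q s k kq ks e E) {f : MvPolynomial (Fin 3) ℂ} {m : ℤ}
    (hf : HK W q E f m) (l : ℕ) : HK W q E (f ^ l) (l * m) := by
  induction l with
  | zero => simpa using HK.one H
  | succ l ih =>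
    have h1 := HK.mul H ih hf
    rw [pow_succ]
    have h2 : ((l + 1 : ℕ) : ℤ) * m = l * m + m := by push_cast; ring
    rw [h2]
    exact h1

/-- Proportionality, all degrees. -/
lemma HK.prop (hW : ∀ i, 0 < W i) (H : Data W p q s k kq ks e E) {f g : MvPolynomial (Fin 3) ℂ}
    {m : ℤ} (hf : HK W q E f m) (hg : HK W q E g m) : ∃ c : ℂ, c ≠ 0 ∧ q ∣ f - C c * g := by
  have hf0 : f ≠ 0 := by
    rintro rfl
    exact hf.nd (dvd_zero _)
  have hg0 : g ≠ 0 := by
    rintro rfl
    exact hg.nd (dvd_zero _)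
  rcases (WH_nonneg hW hf.wh hf0).lt_or_eq with h | h
  · exact H.proportional h hf.wh hg.wh hf.nd hg.nd hf.ker hg.ker
  · have h1 := hf.wh
    have h2 := hg.wh
    rw [← h] at h1 h2
    obtain ⟨a, rfl⟩ := WH_zero_const hW h1
    obtain ⟨b, rfl⟩ := WH_zero_const hW h2
    have ha : a ≠ 0 := by
      rintro rfl
      exact hf0 (map_zero _)
    have hb : b ≠ 0 := by
      rintro rfl
      exact hg0 (map_zero _)
    refine ⟨a / b, div_ne_zero ha hb, ?_⟩
    rw [← map_mul, div_mul_cancel₀ _ hb, sub_self]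
    exact dvd_zero _

/-- The group of degrees. -/
def degGroup (H : Data W p q s k kq ks e E) : AddSubgroup ℤ where
  carrier := {m | ∃ f1 m1 f2 m2, HK W q E f1 m1 ∧ HK W q E f2 m2 ∧ m = m1 - m2}
  zero_mem' := ⟨1, 0, 1, 0, HK.one H, HK.one H, by ring⟩
  add_mem' := by
    rintro a b ⟨f1, m1, f2, m2, h1, h2, h3⟩ ⟨g1, l1, g2, l2, h4, h5, h6⟩
    exact ⟨f1 * g1, m1 + l1, f2 * g2, m2 + l2, HK.mul H h1 h4, HK.mul H h2 h5, by
      rw [h3, h6]; ring⟩
  neg_mem' := by
    rintro a ⟨f1, m1, f2, m2, h1, h2, h3⟩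
    exact ⟨f2, m2, f1, m1, h2, h1, by rw [h3]; ring⟩

/-- A generator of the group of degrees, as a difference of degrees. -/
lemma exists_gen (hW : ∀ i, 0 < W i) (H : Data W p q s k kq ks e E) :
    ∃ (a : ℤ) (f1 : MvPolynomial (Fin 3) ℂ) (m1 : ℤ) (f2 : MvPolynomial (Fin 3) ℂ) (m2 : ℤ),
      a ≠ 0 ∧ HK W q E f1 m1 ∧ HK W q E f2 m2 ∧ a = m1 - m2 ∧
      ∀ f m, HK W q E f m → ∃ i : ℤ, m = i * a := by
  obtain ⟨a, ha⟩ := Int.subgroup_cyclic (degGroup H)
  have ha1 : a ∈ degGroup H := by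
    rw [ha]
    exact AddSubgroup.subset_closure rfl
  obtain ⟨f1, m1, f2, m2, h1, h2, h3⟩ := ha1
  have hgen : ∀ f m, HK W q E f m → ∃ i : ℤ, m = i * a := by
    intro f m hf
    have h4 : m ∈ degGroup H := ⟨f, m, 1, 0, hf, HK.one H, by ring⟩
    rw [ha, AddSubgroup.mem_closure_singleton] at h4
    obtain ⟨i, hi⟩ := h4
    exact ⟨i, by rw [← hi, smul_eq_mul]⟩
  refine ⟨a, f1, m1, f2, m2, ?_, h1, h2, h3, hgen⟩
  rintro rfl
  obtain ⟨f, m, hm, hf, hqf, hEf⟩ := H.exists_pos hW
  obtain ⟨i, hi⟩ := hgen f m ⟨hf, hqf, hEf⟩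
  rw [mul_zero] at hi
  omega

/-- Every homogeneous element of the kernel is a constant times a power of the unit, in any
ring where `f1` and `f2` become units. -/
lemma exists_zpow (hW : ∀ i, 0 < W i) (H : Data W p q s k kq ks e E)
    {a m1 m2 : ℤ} {f1 f2 : MvPolynomial (Fin 3) ℂ} (h1 : HK W q E f1 m1) (h2 : HK W q E f2 m2)
    (ha : a = m1 - m2) {L : Type} [CommRing L] (j : MvPolynomial (Fin 3) ℂ →+* L)
    (hj : ∀ f, q ∣ f → j f = 0) (u1 u2 : Lˣ) (hu1 : (u1 : L) = j f1) (hu2 : (u2 : L) = j f2)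
    {f : MvPolynomial (Fin 3) ℂ} {m : ℤ} (hf : HK W q E f m) {i : ℤ} (hi : m = i * a) :
    ∃ c : ℂ, c ≠ 0 ∧ j f = j (C c) * (((u1 * u2⁻¹) ^ i : Lˣ) : L) := by
  rcases Int.le_total 0 i with h | h
  · obtain ⟨l, rfl⟩ := Int.eq_ofNat_of_zero_le h
    have h3 : HK W q E (f * f2 ^ l) (l * m1) := by
      have := HK.mul H hf (HK.pow H h2 l)
      have h4 : m + l * m2 = l * m1 := by rw [hi, ha]; ring
      rwa [h4] at this
    obtain ⟨c, hc, hd⟩ := HK.prop hW H h3 (HK.pow H h1 l)
    refine ⟨c, hc, ?_⟩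
    have h5 := hj _ hd
    rw [map_sub, sub_eq_zero, map_mul, map_mul, map_pow, map_pow, ← hu1, ← hu2] at h5
    have h6 : ((u2 ^ l : Lˣ) : L) * ((u2 ^ l)⁻¹ : Lˣ) = 1 := Units.mul_inv _
    calc j f = j f * (((u2 ^ l : Lˣ) : L) * ((u2 ^ l)⁻¹ : Lˣ)) := by rw [h6, mul_one]
      _ = (j f * (u2 : L) ^ l) * ((u2 ^ l)⁻¹ : Lˣ) := by rw [Units.val_pow_eq_pow_val]; ring
      _ = j (C c) * (((u1 * u2⁻¹) ^ ((l : ℕ) : ℤ) : Lˣ) : L) := by
        rw [h5, zpow_natCast, mul_pow, inv_pow, Units.val_mul, Units.val_pow_eq_pow_val]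
        ring
  · obtain ⟨l, hl⟩ := Int.eq_ofNat_of_zero_le (by omega : 0 ≤ -i)
    have hi' : i = -(l : ℤ) := by omega
    subst hi'
    have h3 : HK W q E (f * f1 ^ l) (l * m2) := by
      have := HK.mul H hf (HK.pow H h1 l)
      have h4 : m + l * m1 = l * m2 := by rw [hi, ha]; ring
      rwa [h4] at this
    obtain ⟨c, hc, hd⟩ := HK.prop hW H h3 (HK.pow H h2 l)
    refine ⟨c, hc, ?_⟩
    have h5 := hj _ hd
    rw [map_sub, sub_eq_zero, map_mul, map_mul, map_pow, map_pow, ← hu1, ← hu2] at h5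
    have h6 : ((u1 ^ l : Lˣ) : L) * ((u1 ^ l)⁻¹ : Lˣ) = 1 := Units.mul_inv _
    calc j f = j f * (((u1 ^ l : Lˣ) : L) * ((u1 ^ l)⁻¹ : Lˣ)) := by rw [h6, mul_one]
      _ = (j f * (u1 : L) ^ l) * ((u1 ^ l)⁻¹ : Lˣ) := by rw [Units.val_pow_eq_pow_val]; ring
      _ = j (C c) * (((u1 * u2⁻¹) ^ (-(l : ℤ)) : Lˣ) : L) := by
        rw [h5, zpow_neg, zpow_natCast, mul_pow, mul_inv, inv_pow, inv_inv, Units.val_mul,
          Units.val_pow_eq_pow_val]
        ring

set_option maxHeartbeats 4000000 in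
/-- The localized kernel is a Laurent polynomial ring. -/
theorem locKer_laurent (hW : ∀ i, 0 < W i) (H : Data W p q s k kq ks e E)
    {a m1 m2 : ℤ} {f1 f2 g h : MvPolynomial (Fin 3) ℂ} {mg : ℤ} (h1 : HK W q E f1 m1)
    (h2 : HK W q E f2 m2) (hg : HK W q E g mg) (hhdef : h = g * (f1 * f2))
    (ha : a = m1 - m2) (ha0 : a ≠ 0)
    (hgen : ∀ f m, HK W q E f m → ∃ i : ℤ, m = i * a)
    (D : Derivation ℂ (MvPolynomial (Fin 3) ℂ ⧸ Ideal.span {q})
      (MvPolynomial (Fin 3) ℂ ⧸ Ideal.span {q}))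
    (hDE : ∀ f, D (Ideal.Quotient.mk _ f) = Ideal.Quotient.mk _ (E f))
    (hh : D (Ideal.Quotient.mk _ h) = 0) :
    Nonempty (LaurentPolynomial ℂ ≃ₐ[ℂ] locKer D (Ideal.Quotient.mk _ h)
        (Localization.Away (Ideal.Quotient.mk _ h :
          MvPolynomial (Fin 3) ℂ ⧸ Ideal.span {q})) hh) := by
  classical
  have hfact : Fact (Irreducible q) := ⟨H.irr⟩
  have hprime := H.prime
  have hHK : HK W q E h (mg + (m1 + m2)) := by
    rw [hhdef]; exact HK.mul H hg (HK.mul H h1 h2)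
  set B := MvPolynomial (Fin 3) ℂ ⧸ Ideal.span {q} with hB
  set L := Localization.Away (Ideal.Quotient.mk (Ideal.span {q}) h) with hL
  set A := locKer D (Ideal.Quotient.mk _ h) L hh with hA
  set j : MvPolynomial (Fin 3) ℂ →+* L :=
    (algebraMap B L).comp (Ideal.Quotient.mk (Ideal.span {q})) with hj
  have hinj : Function.Injective (algebraMap B L) :=
    injective_away (h := Ideal.Quotient.mk (Ideal.span {q}) h)
      (by rw [Ne, Data.mk_eq_zero]; exact hHK.nd)
  have hj0 : ∀ f, j f = 0 ↔ q ∣ f := by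
    intro f
    rw [hj, RingHom.comp_apply, map_eq_zero_iff _ hinj, Data.mk_eq_zero]
  have hjC : ∀ c, j (C c) = algebraMap ℂ L c := fun c => rfl
  have hjh : IsUnit (j h) :=
    IsLocalization.Away.algebraMap_isUnit (Ideal.Quotient.mk (Ideal.span {q}) h)
  have hu1 : IsUnit (j f1) := by
    refine isUnit_of_dvd_unit ?_ hjh
    exact map_dvd j (by rw [hhdef]; exact (dvd_mul_right f1 f2).mul_left g)
  have hu2 : IsUnit (j f2) := by
    refine isUnit_of_dvd_unit ?_ hjh
    exact map_dvd j (by rw [hhdef]; exact (dvd_mul_left f2 f1).mul_left g)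
  obtain ⟨u1, hu1⟩ := hu1
  obtain ⟨u2, hu2⟩ := hu2
  have hmemK : ∀ f, q ∣ E f → j f ∈ A := by
    intro f hf
    have h3 : D (Ideal.Quotient.mk (Ideal.span {q}) f) = 0 := by
      rw [hDE, Data.mk_eq_zero]; exact hf
    exact mem_locKer_of_ker hh h3
  have hu1A : (u1 : L) ∈ A := by rw [hu1]; exact hmemK _ h1.ker
  have hu2A : (u2 : L) ∈ A := by rw [hu2]; exact hmemK _ h2.ker
  have hu1A' : ((u1⁻¹ : Lˣ) : L) ∈ A := by
    refine ⟨1, Ideal.Quotient.mk _ (g * f2), ?_, ?_⟩
    · rw [hDE, Data.mk_eq_zero]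
      exact (HK.mul H hg h2).ker
    · have h4 : h = (g * f2) * f1 := by rw [hhdef]; ring
      have h3 : j h = j (g * f2) * u1 := by rw [hu1, ← map_mul]; exact congrArg j h4
      rw [pow_one]
      change ((u1⁻¹ : Lˣ) : L) * j h = j (g * f2)
      rw [h3, mul_comm (j (g * f2)) _, ← mul_assoc, Units.inv_mul, one_mul]
  have hu2A' : ((u2⁻¹ : Lˣ) : L) ∈ A := by
    refine ⟨1, Ideal.Quotient.mk _ (g * f1), ?_, ?_⟩
    · rw [hDE, Data.mk_eq_zero]
      exact (HK.mul H hg h1).ker
    · have h4 : h = (g * f1) * f2 := by rw [hhdef]; ring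
      have h3 : j h = j (g * f1) * u2 := by rw [hu2, ← map_mul]; exact congrArg j h4
      rw [pow_one]
      change ((u2⁻¹ : Lˣ) : L) * j h = j (g * f1)
      rw [h3, mul_comm (j (g * f1)) _, ← mul_assoc, Units.inv_mul, one_mul]
  have hUA : ((u1 * u2⁻¹ : Lˣ) : L) ∈ A := by
    rw [Units.val_mul]; exact mul_mem hu1A hu2A'
  have hUA' : (((u1 * u2⁻¹)⁻¹ : Lˣ) : L) ∈ A := by
    have : (u1 * u2⁻¹)⁻¹ = u2 * u1⁻¹ := by rw [mul_inv, inv_inv, mul_comm]
    rw [this, Units.val_mul]; exact mul_mem hu2A hu1A'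
  set V : Aˣ := ⟨⟨((u1 * u2⁻¹ : Lˣ) : L), hUA⟩, ⟨(((u1 * u2⁻¹)⁻¹ : Lˣ) : L), hUA'⟩,
    Subtype.ext (Units.mul_inv (u1 * u2⁻¹)), Subtype.ext (Units.inv_mul (u1 * u2⁻¹))⟩ with hV
  have hVU : ∀ i : ℤ, (((V ^ i : Aˣ) : A) : L) = (((u1 * u2⁻¹) ^ i : Lˣ) : L) := by
    intro i
    have h3 : Units.map (A.val : A →* L) V = u1 * u2⁻¹ := Units.ext rfl
    rw [← h3, ← map_zpow]
    rfl
  set ψ : LaurentPolynomial ℂ →ₐ[ℂ] A :=
    { LaurentPolynomial.eval₂ (algebraMap ℂ A) V with
      commutes' := fun c => LaurentPolynomial.eval₂_C (algebraMap ℂ A) V c } with hψ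
  have hψT : ∀ i : ℤ, ψ (LaurentPolynomial.T i) = ((V ^ i : Aˣ) : A) := by
    intro i
    exact LaurentPolynomial.eval₂_T (algebraMap ℂ A) V i
  have hψL : ∀ Q : Polynomial ℂ, ψ (Polynomial.toLaurent Q) =
      Polynomial.eval₂ (algebraMap ℂ A) (V : A) Q := by
    intro Q
    exact LaurentPolynomial.eval₂_toLaurent (algebraMap ℂ A) V Q
  refine ⟨AlgEquiv.ofBijective ψ ⟨?_, ?_⟩⟩
  · rw [injective_iff_map_eq_zero]
    -- polynomials first
    have hpoly : ∀ Q : Polynomial ℂ, ψ (Polynomial.toLaurent Q) = 0 → Q = 0 := by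
      intro Q hQ
      rw [hψL, Polynomial.eval₂_eq_sum_range] at hQ
      set N := Q.natDegree with hN
      have h3 : ∑ i ∈ Finset.range (N + 1), j (C (Q.coeff i) * (f1 ^ i * f2 ^ (N - i))) = 0 := by
        have h4 := congrArg (fun z : A => (z : L) * (u2 : L) ^ N) hQ
        simp only [ZeroMemClass.coe_zero, zero_mul] at h4
        rw [← h4, AddSubmonoidClass.coe_finsetSum, Finset.sum_mul]
        refine Finset.sum_congr rfl fun i hi => ?_
        have hi' : i ≤ N := by
          have := Finset.mem_range.1 hi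
          omega
        have h5 : (((V : A) ^ i : A) : L) = (u1 : L) ^ i * ((u2⁻¹ : Lˣ) : L) ^ i := by
          rw [← mul_pow, ← Units.val_mul]
          rfl
        have h6 : (u2 : L) ^ N = (u2 : L) ^ (N - i) * (u2 : L) ^ i := by
          rw [← pow_add]; congr 1; omega
        have h7 : ((u2⁻¹ : Lˣ) : L) ^ i * (u2 : L) ^ i = 1 := by
          rw [← mul_pow, Units.inv_mul, one_pow]
        rw [map_mul, map_mul, map_pow, map_pow, ← hu1, ← hu2, hjC]
        have h8 : (((algebraMap ℂ A) (Q.coeff i) * (V : A) ^ i : A) : L) =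
            algebraMap ℂ L (Q.coeff i) * (((V : A) ^ i : A) : L) := rfl
        rw [h8, h5, h6]
        calc algebraMap ℂ L (Q.coeff i) * ((u1 : L) ^ i * (u2 : L) ^ (N - i))
            = algebraMap ℂ L (Q.coeff i) * ((u1 : L) ^ i * (u2 : L) ^ (N - i)) *
              (((u2⁻¹ : Lˣ) : L) ^ i * (u2 : L) ^ i) := by rw [h7, mul_one]
          _ = _ := by ring
      rw [← map_sum, hj0] at h3
      ext i
      rw [Polynomial.coeff_zero]
      by_cases hi : N < i
      · exact Polynomial.coeff_eq_zero_of_natDegree_lt hi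
      · have hi' : i ≤ N := by omega
        have hWHt : ∀ l ≤ N, WH W (C (Q.coeff l) * (f1 ^ l * f2 ^ (N - l))) (N * m2 + l * a) := by
          intro l hl
          have h4 := (isWeightedHomogeneous_C W (Q.coeff l)).mul
            ((h1.wh.pow l).mul (h2.wh.pow (N - l)))
          rw [nsmul_eq_mul, nsmul_eq_mul, zero_add] at h4
          have h5 : ((l : ℕ) : ℤ) * m1 + ((N - l : ℕ) : ℤ) * m2 = N * m2 + l * a := by
            rw [Nat.cast_sub hl, ha]
            ring
          rwa [h5] at h4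
        have h4 := comp_mem H.hq h3 (N * m2 + i * a)
        unfold comp at h4
        rw [map_sum, Finset.sum_eq_single i] at h4
        · have h5 := hWHt i hi'
          have h6 := comp_same h5
          unfold comp at h6
          rw [h6] at h4
          rcases hprime.dvd_or_dvd h4 with h7 | h7
          · by_contra hne
            have h8 : IsUnit (C (Q.coeff i) : MvPolynomial (Fin 3) ℂ) :=
              (isUnit_iff_ne_zero.2 hne).map C
            exact H.irr.not_isUnit (isUnit_of_dvd_unit h7 h8)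
          · rcases hprime.dvd_or_dvd h7 with h8 | h8
            · exact absurd (hprime.dvd_of_dvd_pow h8) h1.nd
            · exact absurd (hprime.dvd_of_dvd_pow h8) h2.nd
        · intro l hl hne
          have hl' : l ≤ N := by
            have := Finset.mem_range.1 hl
            omega
          refine comp_ne (hWHt l hl') ?_
          intro h5
          apply hne
          have h6 : (i : ℤ) * a = l * a := by linarith
          exact_mod_cast (mul_right_cancel₀ ha0 h6).symm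
        · intro h5
          exact absurd (Finset.mem_range.2 (by omega)) h5
    intro P hP
    obtain ⟨l, Q, hQ⟩ := LaurentPolynomial.exists_T_pow P
    have h3 : Q = 0 := by
      apply hpoly
      rw [hQ, map_mul, hP, zero_mul]
    rw [h3, map_zero] at hQ
    have h4 : P * LaurentPolynomial.T l * LaurentPolynomial.T (-(l : ℤ)) = 0 := by
      rw [← hQ, zero_mul]
    rw [LaurentPolynomial.mul_T_assoc, add_neg_cancel, LaurentPolynomial.T_zero, mul_one] at h4
    exact h4
  · set RG := (A.val.comp ψ).range with hRG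
    have hUR : ∀ i : ℤ, (((u1 * u2⁻¹) ^ i : Lˣ) : L) ∈ RG := by
      intro i
      refine ⟨LaurentPolynomial.T i, ?_⟩
      change ((ψ (LaurentPolynomial.T i) : A) : L) = _
      rw [hψT, hVU]
    have hCR : ∀ c, j (C c) ∈ RG := by
      intro c
      rw [hjC]
      exact RG.algebraMap_mem c
    have hHKR : ∀ f m, HK W q E f m → j f ∈ RG := by
      intro f m hf
      obtain ⟨i, hi⟩ := hgen f m hf
      obtain ⟨c, -, hc⟩ := exists_zpow hW H h1 h2 ha j (fun f hf => (hj0 f).2 hf) u1 u2 hu1 hu2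
        hf hi
      rw [hc]
      exact mul_mem (hCR c) (hUR i)
    have hkerR : ∀ f, q ∣ E f → j f ∈ RG := by
      intro f hf
      rw [← sum_comp W f (degs W f) (subset_refl _), map_sum]
      refine sum_mem fun m _ => ?_
      by_cases hm : q ∣ comp W m f
      · rw [(hj0 _).2 hm]
        exact zero_mem _
      · refine hHKR _ m ⟨comp_WH W m f, hm, ?_⟩
        have h3 := comp_mem H.hq hf (m + e)
        have h4 : comp W (m + e) (E f) = E (comp W m f) := by
          conv_lhs => rw [← sum_comp W f (degs W f) (subset_refl _), map_sum]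
          unfold comp
          rw [map_sum]
          by_cases hmem : m ∈ degs W f
          · rw [Finset.sum_eq_single m]
            · exact comp_same (H.hom _ _ (comp_WH W m f))
            · intro l _ hne
              refine comp_ne (H.hom _ _ (comp_WH W l f)) ?_
              intro h5
              apply hne
              omega
            · intro h5
              exact absurd hmem h5
          · have h5 := comp_eq_zero_of_not_mem hmem
            unfold comp at h5
            rw [h5, map_zero]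
            refine Finset.sum_eq_zero fun l hl => ?_
            refine comp_ne (H.hom _ _ (comp_WH W l f)) ?_
            intro h6
            apply hmem
            have : l = m := by omega
            rw [← this]
            exact hl
        rwa [h4] at h3
    rintro ⟨x, hx⟩
    obtain ⟨l, b, hb, hxb⟩ := hx
    obtain ⟨f, rfl⟩ := Ideal.Quotient.mk_surjective b
    have hxb' : x * j h ^ l = j f := hxb
    have hf : q ∣ E f := by
      rw [hDE, Data.mk_eq_zero] at hb
      exact hb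
    have hfR := hkerR f hf
    -- the inverse of `j h`
    obtain ⟨i, hi⟩ := hgen h _ hHK
    obtain ⟨c, hc, hjc⟩ := exists_zpow hW H h1 h2 ha j (fun f hf => (hj0 f).2 hf) u1 u2 hu1 hu2
      hHK hi
    set v : L := j (C c⁻¹) * (((u1 * u2⁻¹) ^ (-i) : Lˣ) : L) with hv
    have hvR : v ∈ RG := mul_mem (hCR _) (hUR _)
    have hv1 : j h * v = 1 := by
      have h3 : (((u1 * u2⁻¹) ^ i : Lˣ) : L) * (((u1 * u2⁻¹) ^ (-i) : Lˣ) : L) = 1 := by
        rw [← Units.val_mul, ← zpow_add, add_neg_cancel, zpow_zero, Units.val_one]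
      have h4 : j (C c) * j (C c⁻¹) = 1 := by
        rw [← map_mul, ← map_mul, mul_inv_cancel₀ hc, map_one, map_one]
      calc j h * v = (j (C c) * j (C c⁻¹)) * ((((u1 * u2⁻¹) ^ i : Lˣ) : L) *
            (((u1 * u2⁻¹) ^ (-i) : Lˣ) : L)) := by rw [hjc, hv]; ring
        _ = 1 := by rw [h3, h4, one_mul]
    have hxR : x ∈ RG := by
      have h3 : x = j f * v ^ l := by
        rw [← hxb', mul_assoc, ← mul_pow, hv1, one_pow, mul_one]
      rw [h3]
      exact mul_mem hfR (pow_mem hvR l)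
    obtain ⟨P, hP⟩ := hxR
    exact ⟨P, Subtype.ext hP⟩

end Pool.Agent.M45f4ba
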